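import Pool.Agent.H80.CC.SelIdeal

/-!
# MP_1bad5e_ag: the surfaces `D z ^ n = f(t, x)` and the class group of `f(t, x) = 0`

`F` is a field (for the Tate conjecture: finite with `n ∣ |F| - 1`), `K = F(t)`, `f ∈ F[t][x]` is
monic in `x` of degree `d` prime to `n`, and the affine plane curve `C : f(t, x) = 0` is
irreducible and normal, with coordinate ring `O = F[t][x]/(f)`; `D ∈ F[t]` is a polynomial such
that there is only one prime of `O` above each prime factor of `D` (for instance `D = 1`).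
`J` is the Jacobian of the curve `D z ^ n = f(x)` over `K`, on which `ζ ∈ μ_n` acts.

The `(1 - ζ)`-Selmer group of `J` is embedded into the `n`-torsion of the class group of `O` if `O`
has no units but the constants (for instance if `C` has one rational place at infinity). So
it vanishes if the class group has no `n`-torsion, and it is equal to `J(K)/(1 - ζ)J(K)` if all
`n`-torsion classes come from `J(K)`.
-/

namespace Pool.Agent.H80.CC.Plane

open Polynomial IsDedekindDomain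

/-- The polynomial `f` regarded as a polynomial in `x` over `K = F(t)`. -/
noncomputable def overK {F : Type} [Field F] (f : F[X][X]) : (RatFunc F)[X] :=
  f.map (algebraMap F[X] (RatFunc F))

/-- The polynomial `f` regarded as a polynomial in `x` over the completion `K_v`. -/
noncomputable def overKv {F : Type} [Field F] (f : F[X][X]) (v : HeightOneSpectrum F[X]) :
    (v.adicCompletion (RatFunc F))[X] :=
  (overK f).map (algebraMap (RatFunc F) (v.adicCompletion (RatFunc F)))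

/-- The image of `D ∈ F[t]` in the completion `K_v`. -/
noncomputable def constKv {F : Type} [Field F] (D : F[X]) (v : HeightOneSpectrum F[X]) :
    v.adicCompletion (RatFunc F) :=
  algebraMap (RatFunc F) (v.adicCompletion (RatFunc F)) (algebraMap F[X] (RatFunc F) D)

/-- The natural map from `O = F[t][x]/(f)` to `L = K[x]/(f)`. -/
noncomputable def toL {F : Type} [Field F] (f : F[X][X]) :
    AdjoinRoot f →+* AdjoinRoot (overK f) :=
  AdjoinRoot.map (algebraMap F[X] (RatFunc F)) f (overK f) dvd_rfl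

/-- The natural map from `L = K[x]/(f)` to `L ⊗ K_v = K_v[x]/(f)`. -/
noncomputable def toLv {F : Type} [Field F] (f : F[X][X]) (v : HeightOneSpectrum F[X]) :
    AdjoinRoot (overK f) →+* AdjoinRoot (overKv f v) :=
  AdjoinRoot.map (algebraMap (RatFunc F) (v.adicCompletion (RatFunc F))) (overK f) (overKv f v)
    dvd_rfl

/-- `(P, Q)` represents, over the field `k`, an effective divisor on `c z ^ m = g(x)` which is
disjoint from the points with `z = 0`, the points with `P(x) = 0` and `z = Q(x)`: `P` is monic,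
prime to `g`, and divides `c Q ^ m - g`. -/
def IsMumford {k : Type} [Field k] (m : ℕ) (c : k) (g P Q : k[X]) : Prop :=
  P.Monic ∧ IsCoprime P g ∧ P ∣ C c * Q ^ m - g

/-- The value `∏ c ^ a (x(p) - θ) = (-c ^ a) ^ r P(θ)` of the function `c ^ a (x - θ)` on the
divisor, in `k[x]/(g)`, where `θ` is the class of `x` and `r` is the degree of `P`. If `n` divides
`a d + 1`, where `d` is the degree of `g`, then `c ^ a (x - θ)` is on `c z ^ n = g(x)` near the
point at infinity the `n`-th power of a function with leading coefficient one. -/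
noncomputable def descent {k : Type} [Field k] (a : ℕ) (c : k) (g P : k[X]) : AdjoinRoot g :=
  AdjoinRoot.mk g (C (-c ^ a)) ^ P.natDegree * AdjoinRoot.mk g P

/-- The element `δ` of `k[x]/(g)` is, up to an `n`-th power, the value of the descent map of
`c z ^ n = g(x)` on a divisor: `δ γ ^ n` is a product of elements `descent a c g P ^ (n / m)`, with
`m` a divisor of `n` and `P` dividing `c Q ^ m - g`, that is, `z ^ (n / m) = Q(x)` on the divisor
with `P(x) = 0`. -/
def IsValue {k : Type} [Field k] (n a : ℕ) (c : k) (g : k[X]) (δ : AdjoinRoot g) : Prop :=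
  ∃ (r : ℕ) (m : Fin r → ℕ) (P Q : Fin r → k[X]) (γ : AdjoinRoot g),
    (∀ i, m i ∣ n ∧ IsMumford (m i) c g (P i) (Q i)) ∧
    δ * γ ^ n = ∏ i, descent a c g (P i) ^ (n / m i)

/-- `δ ∈ L^*` has norm in `K^{*n}` and, at each prime `v` of `F[t]` which does not divide `D`,
there is `b ∈ O`, in no prime of `O` above `v`, such that `δ b` is in `L ⊗ K_v` a value of the
descent map of `D z ^ n = f(x)`. -/
structure IsSelmer {F : Type} [Field F] (n a : ℕ) (D : F[X]) (f : F[X][X])
    (δ : AdjoinRoot (overK f)) : Prop where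
  ne_zero : δ ≠ 0
  norm : ∃ y : RatFunc F, Algebra.norm (RatFunc F) δ = y ^ n
  locally : ∀ v : HeightOneSpectrum F[X], D ∉ v.asIdeal → ∃ b : AdjoinRoot f,
    (∀ w : Ideal (AdjoinRoot f), w.IsPrime →
      (∀ s ∈ v.asIdeal, algebraMap F[X] (AdjoinRoot f) s ∈ w) → b ∉ w) ∧
    IsValue n a (constKv D v) (overKv f v) (toLv f v (δ * toL f b))

/-- There is at most one prime ideal of `O = F[t][x]/(f)` above each prime factor of `D`. -/
def NonsplitFactors {F : Type} [Field F] (D : F[X]) (f : F[X][X]) : Prop :=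
  ∀ P : F[X], Prime P → P ∣ D → ∀ w w' : Ideal (AdjoinRoot f), w.IsPrime → w'.IsPrime →
    algebraMap F[X] (AdjoinRoot f) P ∈ w → algebraMap F[X] (AdjoinRoot f) P ∈ w' → w = w'

/-- The divisor of `δ ∈ L^*` is `n` times a divisor of class `C`: `δ c ^ n = b` with `b, c ∈ O`,
`c ≠ 0`, `(b) = I ^ n` for an ideal `I ≠ 0` of `O`, and `C` is the class of `I`. -/
def HasClass {F : Type} [Field F] (f : F[X][X]) [IsDedekindDomain (AdjoinRoot f)] (n : ℕ)
    (δ : AdjoinRoot (overK f)) (C : ClassGroup (AdjoinRoot f)) : Prop :=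
  ∃ (I : nonZeroDivisors (Ideal (AdjoinRoot f))) (b c : AdjoinRoot f), c ≠ 0 ∧
    δ * toL f c ^ n = toL f b ∧ Ideal.span {b} = (I : Ideal (AdjoinRoot f)) ^ n ∧
    ClassGroup.mk0 I = C

section values

variable {k : Type} [Field k]

theorem descent_isUnit (a : ℕ) (c : k) (hc : c ≠ 0) (g P : k[X]) (hP : IsCoprime P g) :
    IsUnit (descent a c g P) := by
  refine IsUnit.mul (IsUnit.pow _ ?_) ?_
  · have h1 : IsUnit (C (-c ^ a) : k[X]) := by
      rw [isUnit_C, isUnit_iff_ne_zero]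
      exact neg_ne_zero.2 (pow_ne_zero _ hc)
    exact h1.map _
  · obtain ⟨s, t, hst⟩ := hP
    refine IsUnit.of_mul_eq_one (AdjoinRoot.mk g s) ?_
    rw [← map_mul, ← map_one (AdjoinRoot.mk g), ← hst, map_add, map_mul (AdjoinRoot.mk g) t g,
      AdjoinRoot.mk_self, mul_zero, add_zero, mul_comm]

theorem isUnit_of_isValue {n a : ℕ} (hn : n ≠ 0) {c : k} (hc : c ≠ 0) {g : k[X]}
    {δ γ : AdjoinRoot g} {r : ℕ} {m : Fin r → ℕ} {P Q : Fin r → k[X]}
    (hm : ∀ i, m i ∣ n ∧ IsMumford (m i) c g (P i) (Q i))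
    (h : δ * γ ^ n = ∏ i, descent a c g (P i) ^ (n / m i)) : IsUnit δ ∧ IsUnit γ := by
  have h1 : IsUnit (δ * γ ^ n) := by
    rw [h]
    refine (Finset.univ.prod_induction _ IsUnit (fun _ _ => IsUnit.mul) isUnit_one
      fun i _ => IsUnit.pow _ (descent_isUnit a c hc g (P i) (hm i).2.2.1))
  rw [IsUnit.mul_iff, isUnit_pow_iff hn] at h1
  exact h1

theorem norm_descent (a : ℕ) {n : ℕ} (c : k) (g : k[X]) (hg : g.Monic)
    (ha : n ∣ a * g.natDegree + 1) (m : ℕ) (hm : m ∣ n) (P Q : k[X])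
    (h : IsMumford m c g P Q) :
    ∃ y : k, Algebra.norm k (descent a c g P ^ (n / m)) = y ^ n := by
  obtain ⟨y, hy⟩ := H94.TL.norm_descent c g hg m a (hm.trans ha) P Q h.1 h.2.2
  refine ⟨y, ?_⟩
  have h1 : Algebra.norm k (descent a c g P) = y ^ m := hy
  rw [map_pow, h1, ← pow_mul, Nat.mul_div_cancel' hm]

theorem norm_of_isValue {n a : ℕ} (hn : n ≠ 0) {c : k} (hc : c ≠ 0) {g : k[X]} (hg : g.Monic)
    (ha : n ∣ a * g.natDegree + 1) {δ : AdjoinRoot g} (h : IsValue n a c g δ) :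
    ∃ y : k, Algebra.norm k δ = y ^ n := by
  obtain ⟨r, m, P, Q, γ, hm, h⟩ := h
  have hu := isUnit_of_isValue hn hc hm h
  choose y hy using fun i => norm_descent a c g hg ha (m i) (hm i).1 (P i) (Q i) (hm i).2
  have h1 := congrArg (Algebra.norm k) h
  rw [map_mul, map_pow, map_prod] at h1
  simp only [hy] at h1
  rw [Finset.prod_pow] at h1
  have h2 : Algebra.norm k γ ≠ 0 := (hu.2.map (Algebra.norm k)).ne_zero
  exact ⟨(∏ i, y i) / Algebra.norm k γ, by rw [div_pow, eq_div_iff (pow_ne_zero _ h2), h1]⟩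

theorem isValue_one (n a : ℕ) (c : k) (g : k[X]) : IsValue n a c g 1 :=
  ⟨0, Fin.elim0, Fin.elim0, Fin.elim0, 1, fun i => i.elim0, by simp⟩

/-- values are compatible with extensions of the field -/
theorem isValue_map {k' : Type} [Field k'] (φ : k →+* k') {n a : ℕ} {c : k} {g : k[X]}
    {δ : AdjoinRoot g} (h : IsValue n a c g δ) :
    IsValue n a (φ c) (g.map φ) (AdjoinRoot.map φ g (g.map φ) dvd_rfl δ) := by
  obtain ⟨r, m, P, Q, γ, hm, h⟩ := h
  refine ⟨r, m, fun i => (P i).map φ, fun i => (Q i).map φ,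
    AdjoinRoot.map φ g (g.map φ) dvd_rfl γ, fun i => ⟨(hm i).1, (hm i).2.1.map _,
      (hm i).2.2.1.map (mapRingHom φ), ?_⟩, ?_⟩
  · have := Polynomial.map_dvd φ (hm i).2.2.2
    rwa [Polynomial.map_sub, Polynomial.map_mul, Polynomial.map_pow, Polynomial.map_C] at this
  · have hmk : ∀ R : k[X], AdjoinRoot.map φ g (g.map φ) dvd_rfl (AdjoinRoot.mk g R) =
        AdjoinRoot.mk (g.map φ) (R.map φ) := by
      intro R
      induction R using Polynomial.induction_on' with
      | add p q hp hq => rw [map_add, map_add, hp, hq, Polynomial.map_add, map_add]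
      | monomial n a =>
        rw [Polynomial.map_monomial, ← C_mul_X_pow_eq_monomial, ← C_mul_X_pow_eq_monomial]
        simp only [map_mul, map_pow, AdjoinRoot.mk_C, AdjoinRoot.mk_X]
        rw [AdjoinRoot.map_of, AdjoinRoot.map_root]
    have h1 := congrArg (AdjoinRoot.map φ g (g.map φ) dvd_rfl) h
    rw [map_mul, map_pow, map_prod] at h1
    rw [h1]
    refine Finset.prod_congr rfl fun i _ => ?_
    rw [map_pow, descent, descent, map_mul, map_pow, hmk, hmk, natDegree_map, Polynomial.map_C,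
      map_neg, map_pow]

end values

theorem isSelmer_of_isValue {F : Type} [Field F] {n a : ℕ} (hn : n ≠ 0) {D : F[X]} (hD : D ≠ 0)
    {f : F[X][X]} (hf : f.Monic) [IsDomain (AdjoinRoot f)] (ha : n ∣ a * f.natDegree + 1)
    {δ : AdjoinRoot (overK f)}
    (h : IsValue n a (algebraMap F[X] (RatFunc F) D) (overK f) δ) : IsSelmer n a D f δ := by
  have hDK : algebraMap F[X] (RatFunc F) D ≠ 0 := by
    rw [Ne, FaithfulSMul.algebraMap_eq_zero_iff]; exact hD
  have hmonic : (overK f).Monic := hf.map _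
  have hdeg : (overK f).natDegree = f.natDegree := hf.natDegree_map _
  let _ : Fact (Irreducible (overK f)) := ⟨H94.TC.irreducible_map (RatFunc F) f hf⟩
  refine ⟨?_, norm_of_isValue hn hDK hmonic (by rwa [hdeg]) h, fun v _ => ⟨1, ?_, ?_⟩⟩
  · obtain ⟨r, m, P, Q, γ, hm, h⟩ := h
    exact (isUnit_of_isValue hn hDK hm h).1.ne_zero
  · intro w hw _ h1
    exact hw.ne_top ((Ideal.eq_top_iff_one _).2 h1)
  · rw [map_one, mul_one]
    exact isValue_map (algebraMap (RatFunc F) (v.adicCompletion (RatFunc F))) h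

theorem hasClass_of_isSelmer {F : Type} [Field F] {n a : ℕ} (hn : n ≠ 0) {D : F[X]}
    {f : F[X][X]} (hf : f.Monic) [IsDedekindDomain (AdjoinRoot f)]
    (ha : n ∣ a * f.natDegree + 1) (hns : NonsplitFactors D f)
    {δ : AdjoinRoot (overK f)} (h : IsSelmer n a D f δ) :
    ∃ C : ClassGroup (AdjoinRoot f), C ^ n = 1 ∧ HasClass f n δ C := by
  obtain ⟨I, b, c, hI, hc, h1, h2⟩ := sel_ideal (RatFunc F) f hf a hn ha D hns δ h.ne_zero
    h.norm (fun v hv => by
      obtain ⟨b, hb, r, m, P, Q, γ, hm, hγ⟩ := h.locally v hv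
      exact ⟨b, hb, r, m, P, Q, γ, fun i => ⟨(hm i).1, (hm i).2.1, (hm i).2.2.1, (hm i).2.2.2⟩,
        hγ⟩)
  have hI' : I ∈ nonZeroDivisors (Ideal (AdjoinRoot f)) := mem_nonZeroDivisors_of_ne_zero hI
  refine ⟨ClassGroup.mk0 ⟨I, hI'⟩, ?_, ⟨I, hI'⟩, b, c, hc, h1, h2, rfl⟩
  rw [← map_pow, ClassGroup.mk0_eq_one_iff]
  exact ⟨b, by
    show I ^ n = _
    rw [← h2]⟩

/-- a constant unit in front -/
theorem const_unit {F : Type} [Field F] {n a : ℕ} (hn : n ≠ 0) {f : F[X][X]} (hf : f.Monic)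
    [IsDomain (AdjoinRoot f)] (ha : n ∣ a * f.natDegree + 1) {δ δ' z : AdjoinRoot (overK f)}
    (hδ : δ ≠ 0) (u : AdjoinRoot f) (c : F) (hu : u = algebraMap F (AdjoinRoot f) c)
    (h : δ = toL f u * δ' * z ^ n) (hN : ∃ y : RatFunc F, Algebra.norm (RatFunc F) δ = y ^ n)
    (hN' : ∃ y : RatFunc F, Algebra.norm (RatFunc F) δ' = y ^ n) :
    ∃ z' : AdjoinRoot (overK f), δ = δ' * z' ^ n := by
  have hmonic : (overK f).Monic := hf.map _
  let _ : Fact (Irreducible (overK f)) := ⟨H94.TC.irreducible_map (RatFunc F) f hf⟩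
  have hfree : Module.Free (RatFunc F) (AdjoinRoot (overK f)) := hmonic.free_adjoinRoot
  have hfinite : Module.Finite (RatFunc F) (AdjoinRoot (overK f)) := hmonic.finite_adjoinRoot
  have hfin : Module.finrank (RatFunc F) (AdjoinRoot (overK f)) = f.natDegree := by
    rw [← hf.natDegree_map (algebraMap F[X] (RatFunc F))]
    exact finrank_quotient_span_eq_natDegree' hmonic
  have hcopn : n.Coprime f.natDegree := by
    have h1 : Nat.gcd n f.natDegree ∣ a * f.natDegree + 1 := (Nat.gcd_dvd_left _ _).trans ha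
    have h2 : Nat.gcd n f.natDegree ∣ a * f.natDegree := (Nat.gcd_dvd_right _ _).mul_left _
    exact Nat.dvd_one.1 ((Nat.dvd_add_right h2).1 h1)
  have h3 : toL f u = algebraMap (RatFunc F) (AdjoinRoot (overK f))
      (algebraMap F[X] (RatFunc F) (C c)) := by
    rw [hu]
    have h4 : algebraMap F (AdjoinRoot f) c = AdjoinRoot.mk f (C (C c)) := rfl
    have h5 := H94.TC.toField_mk (RatFunc F) f (C (C c))
    rw [Polynomial.map_C] at h5
    rw [h4]
    exact h5
  set c' := algebraMap F[X] (RatFunc F) (C c) with hc'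
  obtain ⟨y, hy⟩ := hN
  obtain ⟨y', hy'⟩ := hN'
  rw [h3] at h
  have h6 := hy
  rw [h, map_mul, map_mul, map_pow, Algebra.norm_algebraMap, hfin, hy'] at h6
  have hc0 : c' ≠ 0 := by
    intro h0
    rw [h0, map_zero, zero_mul, zero_mul] at h
    exact hδ h
  have hz0 : z ≠ 0 := by
    rintro rfl
    rw [zero_pow hn, mul_zero] at h
    exact hδ h
  have hNz : Algebra.norm (RatFunc F) z ≠ 0 := by
    rw [Ne, Algebra.norm_eq_zero_iff]
    exact hz0
  have hy0 : y ≠ 0 := by
    rintro rfl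
    rw [zero_pow hn, Algebra.norm_eq_zero_iff] at hy
    exact hδ hy
  have hy'0 : y' ≠ 0 := by
    rintro rfl
    rw [zero_pow hn, mul_zero, zero_mul] at h6
    exact pow_ne_zero n hy0 h6.symm
  have h8 : c' ^ f.natDegree = (y / (y' * Algebra.norm (RatFunc F) z)) ^ n := by
    rw [div_pow, eq_div_iff (pow_ne_zero _ (mul_ne_zero hy'0 hNz)), ← h6, mul_pow]
    ring
  obtain ⟨k', hk'0, hk'⟩ := H94.TL.root_of_pow_eq (K := RatFunc F) hcopn c' _ hc0
    (div_ne_zero hy0 (mul_ne_zero hy'0 hNz)) h8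
  refine ⟨algebraMap (RatFunc F) (AdjoinRoot (overK f)) k' * z, ?_⟩
  rw [h, hk', map_pow, mul_pow]
  ring

theorem plane_result (F : Type) [Field F] (f : F[X][X]) (hf : f.Monic) [IsDedekindDomain (AdjoinRoot f)]
    (n a : ℕ) (hn : n ≠ 0) (ha : n ∣ a * f.natDegree + 1)
    (D : F[X]) (hD : D ≠ 0) (hns : NonsplitFactors D f) :
    (∀ δ, IsSelmer n a D f δ → ∃ C : ClassGroup (AdjoinRoot f), C ^ n = 1 ∧ HasClass f n δ C) ∧
    (∀ δ δ' C, IsSelmer n a D f δ → IsSelmer n a D f δ' → HasClass f n δ C → HasClass f n δ' C →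
      ∃ (u : (AdjoinRoot f)ˣ) (z : AdjoinRoot (overK f)), δ = toL f u * δ' * z ^ n) ∧
    ((∀ u : (AdjoinRoot f)ˣ, ∃ c : F, (u : AdjoinRoot f) = algebraMap F (AdjoinRoot f) c) →
      (∀ δ δ' C, IsSelmer n a D f δ → IsSelmer n a D f δ' → HasClass f n δ C → HasClass f n δ' C →
        ∃ z : AdjoinRoot (overK f), δ = δ' * z ^ n) ∧
      ((∀ C : ClassGroup (AdjoinRoot f), C ^ n = 1 → ∃ γ,
          IsValue n a (algebraMap F[X] (RatFunc F) D) (overK f) γ ∧ HasClass f n γ C) →
        ∀ δ, IsSelmer n a D f δ → IsValue n a (algebraMap F[X] (RatFunc F) D) (overK f) δ) ∧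
      ((∀ C : ClassGroup (AdjoinRoot f), C ^ n = 1 → C = 1) → ∀ δ,
        (IsSelmer n a D f δ ∨ IsValue n a (algebraMap F[X] (RatFunc F) D) (overK f) δ) →
          ∃ z : AdjoinRoot (overK f), δ = z ^ n)) := by
  have hA : ∀ δ δ' C, HasClass f n δ C → HasClass f n δ' C →
      ∃ (u : (AdjoinRoot f)ˣ) (z : AdjoinRoot (overK f)), δ = toL f u * δ' * z ^ n := by
    rintro δ δ' C ⟨I, b, c, hc, h1, h2, h3⟩ ⟨I', b', c', hc', h1', h2', h3'⟩
    exact same_class (RatFunc F) f hf δ δ' I I' b c b' c' hc h1 h1' h2 h2' (h3.trans h3'.symm)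
  refine ⟨fun δ h => hasClass_of_isSelmer hn hf ha hns h, fun δ δ' C _ _ h h' => hA δ δ' C h h',
    fun hu => ?_⟩
  have hB : ∀ δ δ' C, IsSelmer n a D f δ → IsSelmer n a D f δ' → HasClass f n δ C →
      HasClass f n δ' C → ∃ z : AdjoinRoot (overK f), δ = δ' * z ^ n := by
    intro δ δ' C hδ hδ' h h'
    obtain ⟨u, z, huz⟩ := hA δ δ' C h h'
    obtain ⟨c, hc⟩ := hu u
    exact const_unit hn hf ha hδ.ne_zero u c hc huz hδ.norm hδ'.norm
  refine ⟨hB, fun hval δ hδ => ?_, fun hcl δ hδ => ?_⟩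
  · obtain ⟨C, hC, hδC⟩ := hasClass_of_isSelmer hn hf ha hns hδ
    obtain ⟨γ, hγ, hγC⟩ := hval C hC
    obtain ⟨z, hz⟩ := hB δ γ C hδ (isSelmer_of_isValue hn hD hf ha hγ) hδC hγC
    have hz0 : z ≠ 0 := by
      rintro rfl
      rw [zero_pow hn, mul_zero] at hz
      exact hδ.ne_zero hz
    let _ : Fact (Irreducible (overK f)) := ⟨H94.TC.irreducible_map (RatFunc F) f hf⟩
    obtain ⟨r, m, P, Q, γ', hm, hγ'⟩ := hγ
    refine ⟨r, m, P, Q, γ' / z, hm, ?_⟩
    rw [← hγ', hz, div_pow, mul_assoc, mul_div_cancel₀ _ (pow_ne_zero n hz0)]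
  · have hδ' : IsSelmer n a D f δ := hδ.elim id (isSelmer_of_isValue hn hD hf ha)
    obtain ⟨C, hC, hδC⟩ := hasClass_of_isSelmer hn hf ha hns hδ'
    have h1 : HasClass f n (1 : AdjoinRoot (overK f)) C := by
      refine ⟨1, 1, 1, one_ne_zero, by rw [map_one, one_pow, one_mul], ?_, ?_⟩
      · rw [Ideal.span_singleton_one, OneMemClass.coe_one, one_pow, Ideal.one_eq_top]
      · rw [map_one, hcl C hC]
    obtain ⟨z, hz⟩ := hB δ 1 C hδ' (isSelmer_of_isValue hn hD hf ha (isValue_one n a _ _)) hδC h1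
    exact ⟨z, by rw [hz, one_mul]⟩

end Pool.Agent.H80.CC.Plane
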