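import Pool.Agent.H80.CC.SelIdeal

/-!
Valuation rings of `L` and ideals which are `n`-th powers.
-/

namespace Pool.Agent.H80.CC

open Polynomial WithZero IsDedekindDomain HeightOneSpectrum

section

variable {B : Type*} [CommRing B] [IsDedekindDomain B] {L : Type*} [Field L]

theorem frac_to_int [Algebra B L] [IsFractionRing B L] {n : ℕ} (hn0 : n ≠ 0) (δ : L) (hδ : δ ≠ 0)
    (I : FractionalIdeal (nonZeroDivisors B) L)
    (hI : FractionalIdeal.spanSingleton (nonZeroDivisors B) δ = I ^ n) :
    ∃ (J : Ideal B) (b c : B), J ≠ ⊥ ∧ c ≠ 0 ∧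
      δ * algebraMap B L c ^ n = algebraMap B L b ∧ Ideal.span {b} = J ^ n := by
  have hI0 := H94.TL.ne_zero_of_span_eq_pow hn0 hδ hI
  obtain ⟨c, J, hc0, hJ⟩ := FractionalIdeal.exists_eq_spanSingleton_mul I
  have hcL : algebraMap B L c ≠ 0 := by
    rw [Ne, FaithfulSMul.algebraMap_eq_zero_iff]; exact hc0
  have hJ1 : FractionalIdeal.spanSingleton (nonZeroDivisors B)
      (δ * (algebraMap B L c) ^ n) =
      ((J ^ n : Ideal B) : FractionalIdeal (nonZeroDivisors B) L) := by
    rw [← FractionalIdeal.spanSingleton_mul_spanSingleton, hI, hJ, mul_pow,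
      ← FractionalIdeal.spanSingleton_pow, mul_right_comm, ← mul_pow,
      FractionalIdeal.spanSingleton_mul_spanSingleton, inv_mul_cancel₀ hcL,
      FractionalIdeal.spanSingleton_one, one_pow, one_mul, FractionalIdeal.coeIdeal_pow]
  have hJ2 : (δ * (algebraMap B L c) ^ n) ∈
      ((J ^ n : Ideal B) : FractionalIdeal (nonZeroDivisors B) L) := by
    rw [← hJ1]
    exact FractionalIdeal.mem_spanSingleton_self _ _
  obtain ⟨b, hb, hb'⟩ := (FractionalIdeal.mem_coeIdeal _).1 hJ2
  refine ⟨J, b, c, ?_, hc0, hb'.symm, ?_⟩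
  · rintro rfl
    apply hI0
    rw [hJ, FractionalIdeal.coeIdeal_bot, mul_zero]
  · apply FractionalIdeal.coeIdeal_injective (R := B) (K := L)
    show ((Ideal.span {b} : Ideal B) : FractionalIdeal (nonZeroDivisors B) L) = _
    rw [FractionalIdeal.coeIdeal_span_singleton, hb', hJ1]

theorem exists_centre (j : B →+* L) (R : ValuationSubring L) (hR : ∀ s, j s ∈ R) :
    ∃ w : Ideal B, w.IsPrime ∧ ∀ s, s ∉ w → (j s)⁻¹ ∈ R ∧ j s ≠ 0 := by
  have hle : ∀ s, R.valuation (j s) ≤ 1 := fun s => (R.valuation_le_one_iff _).2 (hR s)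
  refine ⟨{ carrier := {s | R.valuation (j s) < 1}
            zero_mem' := ?_
            add_mem' := ?_
            smul_mem' := ?_ }, ?_, ?_⟩
  · intro a b ha hb
    show R.valuation (j (a + b)) < 1
    rw [map_add]
    exact (Valuation.map_add _ _ _).trans_lt (max_lt ha hb)
  · show R.valuation (j 0) < 1
    rw [map_zero, map_zero]
    exact zero_lt_one
  · intro a b hb
    show R.valuation (j (a * b)) < 1
    rw [map_mul, map_mul]
    exact lt_of_le_of_lt (mul_le_of_le_one_left' (hle a)) hb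
  · refine ⟨?_, ?_⟩
    · rw [Ideal.ne_top_iff_one]
      intro h1
      have h2 : R.valuation (j 1) < 1 := h1
      rw [map_one, map_one] at h2
      exact lt_irrefl _ h2
    · intro x y hxy
      have h1 : R.valuation (j (x * y)) < 1 := hxy
      rw [map_mul, map_mul] at h1
      by_contra h2
      rw [not_or] at h2
      have h3 : ¬ R.valuation (j x) < 1 := h2.1
      have h4 : ¬ R.valuation (j y) < 1 := h2.2
      have h5 : R.valuation (j x) = 1 := le_antisymm (hle x) (not_lt.1 h3)
      have h6 : R.valuation (j y) = 1 := le_antisymm (hle y) (not_lt.1 h4)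
      rw [h5, h6, one_mul] at h1
      exact lt_irrefl _ h1
  · intro s hs
    have h3 : ¬ R.valuation (j s) < 1 := hs
    have h5 : R.valuation (j s) = 1 := le_antisymm (hle s) (not_lt.1 h3)
    refine ⟨?_, ?_⟩
    · rw [← R.valuation_le_one_iff, map_inv₀, h5, inv_one]
    · intro h0
      rw [h0, map_zero] at h5
      exact zero_ne_one h5

theorem exists_local_gen (w : Ideal B) (hw : w.IsPrime) {n : ℕ} (I : Ideal B) (hI : I ≠ ⊥) (b : B)
    (hb : Ideal.span {b} = I ^ n) :
    ∃ z y s u : B, z ≠ 0 ∧ y ∉ w ∧ z ^ n = b * s ∧ b * y ^ n = z ^ n * u := by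
  classical
  -- choose `z` in `I` generating it at `w`
  have h1 : ¬ I ≤ w * I := by
    intro hle
    have h2 : w * I = I := le_antisymm Ideal.mul_le_right hle
    have h3 : w = 1 := by
      have h4 : w * I = 1 * I := by rw [h2, one_mul]
      exact mul_right_cancel₀ hI h4
    exact hw.ne_top (h3.trans Ideal.one_eq_top)
  obtain ⟨z, hzI, hz⟩ := Set.not_subset.1 h1
  have hzI' : z ∈ I := hzI
  obtain ⟨J, hJ⟩ : I ∣ Ideal.span {z} := by
    rw [Ideal.dvd_span_singleton]; exact hzI'
  have hJw : ¬ J ≤ w := by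
    intro hle
    apply hz
    have h2 : z ∈ I * J := by rw [← hJ]; exact Ideal.mem_span_singleton_self _
    rw [mul_comm w I]
    exact Ideal.mul_mono_right hle h2
  obtain ⟨y, hyJ, hy⟩ := Set.not_subset.1 hJw
  have hy' : y ∉ w := hy
  have hz0 : z ≠ 0 := by
    rintro rfl
    exact hz (Ideal.zero_mem _)
  have hzn : Ideal.span {z ^ n} = Ideal.span {b} * J ^ n := by
    rw [← Ideal.span_singleton_pow, hJ, mul_pow, hb]
  -- `z ^ n = b s`, `b y ^ n = z ^ n u`
  obtain ⟨s, hs⟩ : b ∣ z ^ n := by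
    rw [← Ideal.mem_span_singleton]
    have h2 : z ^ n ∈ Ideal.span {z ^ n} := Ideal.mem_span_singleton_self _
    rw [hzn] at h2
    exact Ideal.mul_le_left h2
  obtain ⟨u, hu⟩ : z ^ n ∣ b * y ^ n := by
    rw [← Ideal.mem_span_singleton, hzn]
    exact Ideal.mul_mem_mul (Ideal.mem_span_singleton_self _) (Ideal.pow_mem_pow hyJ n)
  exact ⟨z, y, s, u, hz0, hy', hs, hu⟩

omit [IsDedekindDomain B] in
theorem unit_of_gen (j : B →+* L) (hj : Function.Injective j) (R : ValuationSubring L)
    (hR : ∀ s, j s ∈ R) {n : ℕ} (b c : B) (hc : c ≠ 0) (δ : L)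
    (h : δ * j c ^ n = j b) (z y s u : B) (hz0 : z ≠ 0) (hy : (j y)⁻¹ ∈ R) (hy0 : j y ≠ 0)
    (hs : z ^ n = b * s) (hu : b * y ^ n = z ^ n * u) :
    ∃ z : L, z ≠ 0 ∧ δ * z ^ n ∈ R ∧ (δ * z ^ n)⁻¹ ∈ R := by
  have hzL : j z ≠ 0 := fun h0 => hz0 (hj (by rw [h0, map_zero]))
  have hcL : j c ≠ 0 := fun h0 => hc (hj (by rw [h0, map_zero]))
  have h3 := congrArg j hs
  rw [map_mul, map_pow] at h3
  have hb0 : j b ≠ 0 := by
    intro h0
    rw [h0, zero_mul] at h3
    exact pow_ne_zero n hzL h3
  have h4 := congrArg j hu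
  rw [map_mul, map_mul, map_pow, map_pow] at h4
  refine ⟨j c / j z, div_ne_zero hcL hzL, ?_, ?_⟩
  · have h2 : δ * (j c / j z) ^ n = j u * ((j y)⁻¹) ^ n := by
      rw [div_pow, mul_div_assoc', h, div_eq_iff (pow_ne_zero n hzL), inv_pow]
      rw [mul_right_comm, mul_comm (j u), ← h4,
        mul_inv_cancel_right₀ (pow_ne_zero n hy0)]
    rw [h2]
    exact mul_mem (hR u) (pow_mem hy n)
  · have h2 : (δ * (j c / j z) ^ n)⁻¹ = j s := by
      rw [div_pow, mul_div_assoc', h, inv_div, div_eq_iff hb0]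
      rw [h3, mul_comm]
    rw [h2]
    exact hR s

/-- an element whose divisor is an `n`-th power is, in each valuation ring above `B`, a unit times
an `n`-th power -/
theorem unit_at (j : B →+* L) (hj : Function.Injective j) (R : ValuationSubring L)
    (hR : ∀ s, j s ∈ R) {n : ℕ} (I : Ideal B) (hI : I ≠ ⊥) (b c : B) (hc : c ≠ 0) (δ : L)
    (h : δ * j c ^ n = j b) (hb : Ideal.span {b} = I ^ n) :
    ∃ z : L, z ≠ 0 ∧ δ * z ^ n ∈ R ∧ (δ * z ^ n)⁻¹ ∈ R := by
  obtain ⟨w, hw, hunit⟩ := exists_centre j R hR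
  obtain ⟨z, y, s, u, hz, hy, hs, hu⟩ := exists_local_gen w hw I hI b hb
  exact unit_of_gen j hj R hR b c hc δ h z y s u hz (hunit y hy).1 (hunit y hy).2 hs hu

end

section

variable {A K L : Type*} [CommRing A] [IsDomain A] [IsPrincipalIdealRing A] [Field K]
  [Algebra A K] [IsFractionRing A K] [Field L] [Algebra K L] [Algebra A L] [IsScalarTower A K L]
  [FiniteDimensional K L] [Algebra.IsSeparable K L]

theorem one_place {n : ℕ} (hn0 : n ≠ 0) (hn : n.Coprime (Module.finrank K L))
    (hA : ∀ v : HeightOneSpectrum A, ∀ w w' : HeightOneSpectrum (integralClosure A L),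
      w.asIdeal.LiesOver v.asIdeal → w'.asIdeal.LiesOver v.asIdeal → w = w')
    (δ : L) (hδ : δ ≠ 0) (hN : ∃ y : K, Algebra.norm K δ = y ^ n) :
    ∃ (J : Ideal (integralClosure A L)) (b c : integralClosure A L), J ≠ ⊥ ∧ c ≠ 0 ∧
      δ * (c : L) ^ n = b ∧ Ideal.span {b} = J ^ n := by
  have : IsDedekindDomain (integralClosure A L) := integralClosure.isDedekindDomain A K L
  have : IsFractionRing (integralClosure A L) L :=
    integralClosure.isFractionRing_of_finite_extension K L
  have : Module.Finite A (integralClosure A L) :=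
    IsIntegralClosure.finite A K L (integralClosure A L)
  have hinj : Function.Injective (algebraMap A L) := by
    rw [IsScalarTower.algebraMap_eq A K L]
    exact (algebraMap K L).injective.comp (IsFractionRing.injective A K)
  have : Module.IsTorsionFree A L := by
    rw [← faithfulSMul_iff_algebraMap_injective] at hinj
    infer_instance
  have : Module.IsTorsionFree A (integralClosure A L) := inferInstance
  have : Module.Free A (integralClosure A L) := inferInstance
  have hfin : Module.finrank K L = Module.finrank A (integralClosure A L) := by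
    rw [IsFractionRing.finrank_eq A K (integralClosure A L) L]
  obtain ⟨I, hI⟩ := H94.TL.glob_ideal (A := A) (K := K) (B := integralClosure A L)
    (L := L) hn0 (by rw [← hfin]; exact hn) _ hδ hN (fun v => by
      obtain ⟨ϖ, hϖ, hv'⟩ := H94.TL.exists_gen v
      refine H94.TL.inert_local (K := K) (L := L) hn0 (by rw [← hfin]; exact hn) v ϖ hϖ hv'
          (fun w w' hw hw' => ?_) _ hδ hN
      have key : ∀ w : HeightOneSpectrum (integralClosure A L),
          algebraMap A (integralClosure A L) ϖ ∈ w.asIdeal → w.asIdeal.LiesOver v.asIdeal := by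
        intro w hw
        refine ⟨?_⟩
        have h1 : v.asIdeal ≤ w.asIdeal.under A := by
          rw [hv', Ideal.span_singleton_le_iff_mem]
          exact hw
        have h2 : (w.asIdeal.under A).IsPrime := Ideal.IsPrime.under A w.asIdeal
        exact v.isMaximal.eq_of_le h2.ne_top h1
      exact hA v w w' (key w hw) (key w' hw'))
  obtain ⟨J, b, c, h1, h2, h3, h4⟩ := frac_to_int hn0 δ hδ I hI
  exact ⟨J, b, c, h1, h2, h3, h4⟩

end

end Pool.Agent.H80.CC
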