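import Pool.Agent.H80.CC.Scale

/-!
Values of the descent map and changes of variables.
-/

namespace Pool.Agent.H80.CC

open Polynomial

section

variable {k : Type*} [Field k]

/-- `δ` is up to an `n`-th power a value of the descent map -/
def Val (n a : ℕ) (c : k) (g : k[X]) (δ : AdjoinRoot g) : Prop :=
  ∃ (r : ℕ) (m : Fin r → ℕ) (P Q : Fin r → k[X]) (γ : AdjoinRoot g),
    (∀ i, m i ∣ n ∧ (P i).Monic ∧ IsCoprime (P i) g ∧ P i ∣ C c * Q i ^ m i - g) ∧
    δ * γ ^ n = ∏ i, (AdjoinRoot.mk g (C (-c ^ a)) ^ (P i).natDegree *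
      AdjoinRoot.mk g (P i)) ^ (n / m i)

theorem val_scale {n a N : ℕ} (f g : k[X]) (l m : k) (hl : l ≠ 0)
    (h : C (l ^ N) * g = f.comp (C l * X + C m)) (ha : n ∣ a * N + 1) (D D' e : k) (he : e ≠ 0)
    (hD : D = l ^ N * D' * e ^ n) (δ : AdjoinRoot f) (hδ : Val n a D f δ) :
    Val n a D' g (scaleEquiv f g l m N hl h δ) := by
  classical
  obtain ⟨r, M, P, Q, γ, hP, hγ⟩ := hδ
  obtain ⟨s, hs⟩ := ha
  have hlr : ∀ i, l ^ (P i).natDegree ≠ 0 := fun i => pow_ne_zero _ hl
  set P' : Fin r → k[X] := fun i => C (l ^ (P i).natDegree)⁻¹ * (P i).comp (C l * X + C m) with hP'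
  have hdeg : ∀ i, (P' i).natDegree = (P i).natDegree := by
    intro i
    rw [hP', natDegree_C_mul (inv_ne_zero (hlr i)), natDegree_comp_lin l m (P i) hl]
  have hPP' : ∀ i, (P i).comp (C l * X + C m) = C (l ^ (P i).natDegree) * P' i := by
    intro i
    rw [hP', ← mul_assoc, ← C_mul, mul_inv_cancel₀ (hlr i), C_1, one_mul]
  have hu : ∀ x : k, x ≠ 0 → IsUnit (C x : k[X]) := fun x hx => isUnit_C.2 (isUnit_iff_ne_zero.2 hx)
  set κ : Fin r → k := fun i => (l ^ (s * (P i).natDegree) * e ^ (a * (P i).natDegree)) ^ (n / M i)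
    with hκ
  have hκ0 : ∀ i, κ i ≠ 0 := fun i =>
    pow_ne_zero _ (mul_ne_zero (pow_ne_zero _ hl) (pow_ne_zero _ he))
  refine ⟨r, M, P', fun i => C (e ^ (n / M i)) * (Q i).comp (C l * X + C m),
    scaleEquiv f g l m N hl h γ * AdjoinRoot.mk g (C (∏ i, κ i)⁻¹), fun i => ⟨(hP i).1, ?_, ?_, ?_⟩,
    ?_⟩
  · -- monic
    rw [Monic, hP', leadingCoeff_mul, leadingCoeff_C, leadingCoeff_comp_lin l m (P i) hl,
      (hP i).2.1.leadingCoeff, one_mul, inv_mul_cancel₀ (hlr i)]
  · -- coprime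
    have h1 : IsCoprime ((P i).comp (C l * X + C m)) (f.comp (C l * X + C m)) :=
      (hP i).2.2.1.map (compRingHom (C l * X + C m))
    rw [← h, hPP' i] at h1
    rw [isCoprime_mul_unit_left_left (hu _ (hlr i)),
      isCoprime_mul_unit_left_right (hu _ (pow_ne_zero N hl))] at h1
    exact h1
  · -- divisibility
    have h1 : (P i).comp (C l * X + C m) ∣ (C D * Q i ^ M i - f).comp (C l * X + C m) := by
      obtain ⟨R, hR⟩ := (hP i).2.2.2
      rw [hR, mul_comp]
      exact dvd_mul_right _ _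
    rw [hPP' i, sub_comp, mul_comp, C_comp, pow_comp, ← h] at h1
    have h2 : P' i ∣ C D * ((Q i).comp (C l * X + C m)) ^ M i - C (l ^ N) * g :=
      (dvd_mul_left _ _).trans h1
    have h3 : C D * ((Q i).comp (C l * X + C m)) ^ M i - C (l ^ N) * g =
        C (l ^ N) * (C D' * (C (e ^ (n / M i)) * (Q i).comp (C l * X + C m)) ^ M i - g) := by
      rw [mul_pow, ← C_pow, ← pow_mul, Nat.div_mul_cancel (hP i).1, hD, C_mul, C_mul]
      ring
    rw [h3] at h2
    exact (IsUnit.dvd_mul_left (hu _ (pow_ne_zero N hl))).1 h2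
  · -- the value
    have h1 := congrArg (scaleEquiv f g l m N hl h) hγ
    rw [map_mul, map_pow, map_prod] at h1
    have h2 : ∀ i, scaleEquiv f g l m N hl h ((AdjoinRoot.mk f (C (-D ^ a)) ^ (P i).natDegree *
        AdjoinRoot.mk f (P i)) ^ (n / M i)) =
        (AdjoinRoot.mk g (C (-D' ^ a)) ^ (P' i).natDegree * AdjoinRoot.mk g (P' i)) ^ (n / M i) *
          AdjoinRoot.mk g (C (κ i)) ^ n := by
      intro i
      rw [map_pow, map_mul, map_pow, scaleEquiv_mk, scaleEquiv_mk, C_comp, hPP' i, hdeg i]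
      have h3 : AdjoinRoot.mk g (C (κ i)) ^ n =
          (AdjoinRoot.mk g (C (l ^ (s * (P i).natDegree) * e ^ (a * (P i).natDegree))) ^ n) ^
            (n / M i) := by
        rw [hκ, C_pow, map_pow, ← pow_mul, ← pow_mul, mul_comm (n / M i) n]
      rw [h3, ← mul_pow]
      congr 1
      have h4 : (l ^ (s * (P i).natDegree) * e ^ (a * (P i).natDegree)) ^ n =
          ((l ^ N * e ^ n) ^ a) ^ (P i).natDegree * l ^ (P i).natDegree := by
        have h5 : l ^ (s * (P i).natDegree * n) = l ^ (N * a * (P i).natDegree) *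
            l ^ (P i).natDegree := by
          rw [← pow_add]
          congr 1
          have h6 : s * (P i).natDegree * n = (n * s) * (P i).natDegree := by ring
          rw [h6, ← hs]
          ring
        rw [mul_pow, ← pow_mul, h5, mul_pow, mul_pow, ← pow_mul, ← pow_mul, ← pow_mul, ← pow_mul,
          ← pow_mul, mul_comm n (a * (P i).natDegree), ← mul_assoc N a]
        ring
      have h7 : ((l ^ N * D' * e ^ n) ^ a) ^ (P i).natDegree =
          (D' ^ a) ^ (P i).natDegree * ((l ^ N * e ^ n) ^ a) ^ (P i).natDegree := by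
        rw [← mul_pow, ← mul_pow]
        ring
      have h8 : (-D ^ a) ^ (P i).natDegree * l ^ (P i).natDegree = (-D' ^ a) ^ (P i).natDegree *
          (l ^ (s * (P i).natDegree) * e ^ (a * (P i).natDegree)) ^ n := by
        rw [h4, hD, neg_pow, neg_pow (D' ^ a), h7]
        ring
      have h9 : (C (-D ^ a) : k[X]) ^ (P i).natDegree * (C (l ^ (P i).natDegree) * P' i) =
          C (-D' ^ a) ^ (P i).natDegree * P' i *
            C (l ^ (s * (P i).natDegree) * e ^ (a * (P i).natDegree)) ^ n := by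
        rw [← C_pow, ← C_pow, ← C_pow, mul_right_comm, ← C_mul, ← h8, C_mul, mul_assoc]
      have h10 := congrArg (AdjoinRoot.mk g) h9
      simp only [map_mul, map_pow] at h10 ⊢
      exact h10
    simp only [h2] at h1
    rw [Finset.prod_mul_distrib, Finset.prod_pow] at h1
    have h5 : AdjoinRoot.mk g (C (∏ i, κ i)⁻¹) * ∏ i, AdjoinRoot.mk g (C (κ i)) = 1 := by
      rw [← map_prod, ← map_prod, ← map_mul, ← C_mul,
        inv_mul_cancel₀ (Finset.prod_ne_zero_iff.2 fun i _ => hκ0 i), C_1, map_one]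
    rw [mul_pow, ← mul_assoc, h1, mul_assoc, ← mul_pow,
      mul_comm (∏ i, AdjoinRoot.mk g (C (κ i))), h5, one_pow, mul_one]

/-- values are compatible with extensions of the field -/
theorem val_map {k' : Type*} [Field k'] (φ : k →+* k') {n a : ℕ} {c : k} {g : k[X]}
    {δ : AdjoinRoot g} (h : Val n a c g δ) :
    Val n a (φ c) (g.map φ) (AdjoinRoot.map φ g (g.map φ) dvd_rfl δ) := by
  obtain ⟨r, m, P, Q, γ, hm, h⟩ := h
  refine ⟨r, m, fun i => (P i).map φ, fun i => (Q i).map φ,
    AdjoinRoot.map φ g (g.map φ) dvd_rfl γ, fun i => ⟨(hm i).1, (hm i).2.1.map _,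
      (hm i).2.2.1.map (mapRingHom φ), ?_⟩, ?_⟩
  · have := Polynomial.map_dvd φ (hm i).2.2.2
    rwa [Polynomial.map_sub, Polynomial.map_mul, Polynomial.map_pow, Polynomial.map_C] at this
  · have hmk : ∀ R : k[X], AdjoinRoot.map φ g (g.map φ) dvd_rfl (AdjoinRoot.mk g R) =
        AdjoinRoot.mk (g.map φ) (R.map φ) := by
      intro R
      induction R using Polynomial.induction_on' with
      | add p q hp hq => rw [map_add, map_add, hp, hq, Polynomial.map_add, map_add]
      | monomial n a =>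
        rw [Polynomial.map_monomial, ← C_mul_X_pow_eq_monomial, ← C_mul_X_pow_eq_monomial]
        simp only [map_mul, map_pow, AdjoinRoot.mk_C, AdjoinRoot.mk_X]
        rw [AdjoinRoot.map_of, AdjoinRoot.map_root]
    have h1 := congrArg (AdjoinRoot.map φ g (g.map φ) dvd_rfl) h
    rw [map_mul, map_pow, map_prod] at h1
    rw [h1]
    refine Finset.prod_congr rfl fun i _ => ?_
    rw [map_pow, map_mul, map_pow, hmk, hmk, natDegree_map, Polynomial.map_C,
      map_neg, map_pow]

end

end Pool.Agent.H80.CC
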