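import Pool.Agent.H80.CC.Core
import Pool.Agent.H80.CC.ValSc

/-!
The places of good reduction.
-/

namespace Pool.Agent.H80.CC

open Polynomial WithZero IsDedekindDomain HeightOneSpectrum H94.TC H94.TL

section

variable {A K : Type*} [CommRing A] [IsDomain A] [IsDiscreteValuationRing A] [Field K]
  [Algebra A K] [IsFractionRing A K]

theorem eq_maximalIdeal (v : HeightOneSpectrum A) :
    v = IsDiscreteValuationRing.maximalIdeal A := by
  apply HeightOneSpectrum.ext
  exact IsLocalRing.eq_maximalIdeal v.isMaximal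

theorem isDomain_of_scale (f : K[X]) (hirr : Irreducible f) (N : ℕ) (l m : K) (hl : l ≠ 0)
    (g : A[X]) (hg : g.Monic)
    (h : C (l ^ N) * g.map (algebraMap A K) = f.comp (C l * X + C m)) :
    IsDomain (AdjoinRoot g) := by
  have h1 : Irreducible (g.map (algebraMap A K)) := irreducible_scale f _ l m N hl h hirr
  have h2 : Irreducible g := (hg.irreducible_iff_irreducible_map_fraction_map (K := K)).2 h1
  exact AdjoinRoot.isDomain_of_prime h2.prime

/-- the field is generated by the integral elements -/
theorem toField_integral (g : A[X]) (hg : g.Monic) (s : AdjoinRoot g) :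
    IsIntegral A (toField K g s) := by
  have : Module.Finite A (AdjoinRoot g) := hg.finite_adjoinRoot
  have h1 : IsIntegral A s := Algebra.IsIntegral.isIntegral s
  let j : AdjoinRoot g →ₐ[A] AdjoinRoot (g.map (algebraMap A K)) :=
    { toField K g with
      commutes' := by
        intro r
        show toField K g _ = _
        have h1 : algebraMap A (AdjoinRoot g) r = AdjoinRoot.mk g (C r) := rfl
        rw [h1, toField_mk, Polynomial.map_C]
        rfl }
  exact h1.map j

theorem integral_mem (g : A[X]) (hg : g.Monic) [IsDomain (AdjoinRoot g)]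
    [IsIntegrallyClosed (AdjoinRoot g)] (x : AdjoinRoot (g.map (algebraMap A K)))
    (hx : IsIntegral A x) : ∃ y, toField K g y = x := by
  let _ : Fact (Irreducible (g.map (algebraMap A K))) := ⟨irreducible_map K g hg⟩
  let _ := (toField K g).toAlgebra
  have : IsFractionRing (AdjoinRoot g) (AdjoinRoot (g.map (algebraMap A K))) :=
    isFractionRing_toField K g hg
  have : IsScalarTower A (AdjoinRoot g) (AdjoinRoot (g.map (algebraMap A K))) := by
    refine IsScalarTower.of_algebraMap_eq fun x => ?_
    show _ = toField K g _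
    have h1 : algebraMap A (AdjoinRoot g) x = AdjoinRoot.mk g (C x) := rfl
    rw [h1, toField_mk, Polynomial.map_C]
    rfl
  have h2 : IsIntegral (AdjoinRoot g) x := hx.tower_top
  exact IsIntegrallyClosed.isIntegral_iff.1 h2

/-- the maps to the completions -/
theorem scale_completion {k' : Type*} [Field k'] (φ : K →+* k') (f g : K[X]) (l m : K) (N : ℕ)
    (hl : l ≠ 0) (h : C (l ^ N) * g = f.comp (C l * X + C m))
    (hl' : φ l ≠ 0) (h' : C (φ l ^ N) * g.map φ = (f.map φ).comp (C (φ l) * X + C (φ m)))
    (x : AdjoinRoot f) :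
    scaleEquiv (f.map φ) (g.map φ) (φ l) (φ m) N hl' h' (AdjoinRoot.map φ f (f.map φ) dvd_rfl x) =
      AdjoinRoot.map φ g (g.map φ) dvd_rfl (scaleEquiv f g l m N hl h x) := by
  have hmk : ∀ (q R : K[X]), AdjoinRoot.map φ q (q.map φ) dvd_rfl (AdjoinRoot.mk q R) =
      AdjoinRoot.mk (q.map φ) (R.map φ) := by
    intro q R
    induction R using Polynomial.induction_on' with
    | add p q hp hq => rw [map_add, map_add, hp, hq, Polynomial.map_add, map_add]
    | monomial n a =>
      rw [Polynomial.map_monomial, ← C_mul_X_pow_eq_monomial, ← C_mul_X_pow_eq_monomial]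
      simp only [map_mul, map_pow, AdjoinRoot.mk_C, AdjoinRoot.mk_X]
      rw [AdjoinRoot.map_of, AdjoinRoot.map_root]
  obtain ⟨P, rfl⟩ := AdjoinRoot.mk_surjective x
  rw [hmk, scaleEquiv_mk, scaleEquiv_mk, hmk, Polynomial.map_comp, Polynomial.map_add,
    Polynomial.map_mul, Polynomial.map_C, Polynomial.map_C, Polynomial.map_X]

theorem good_place (f : K[X]) [hfact : Fact (Irreducible f)] (n a : ℕ) (hn0 : n ≠ 0)
    (ha : n ∣ a * f.natDegree + 1) (D l m e : K) (u : Aˣ) (g : A[X]) (hl : l ≠ 0) (hg : g.Monic)
    (h : C (l ^ f.natDegree) * g.map (algebraMap A K) = f.comp (C l * X + C m))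
    (hic : IsIntegrallyClosed (AdjoinRoot g)) (he : e ≠ 0)
    (hD : D = l ^ f.natDegree * algebraMap A K u * e ^ n)
    (δ : AdjoinRoot f) (hδ : δ ≠ 0) (hN : ∃ y : K, Algebra.norm K δ = y ^ n)
    (b b' : AdjoinRoot f) (hb : IsIntegral A b) (hb' : IsIntegral A b') (hbb : b * b' = 1)
    (hval : Val n a (algebraMap K ((IsDiscreteValuationRing.maximalIdeal A).adicCompletion K) D)
      (f.map (algebraMap K ((IsDiscreteValuationRing.maximalIdeal A).adicCompletion K)))
      (AdjoinRoot.map (algebraMap K ((IsDiscreteValuationRing.maximalIdeal A).adicCompletion K)) f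
        _ dvd_rfl (δ * b)))
    (R : ValuationSubring (AdjoinRoot f)) (hR : ∀ x : AdjoinRoot f, IsIntegral A x → x ∈ R) :
    ∃ z : AdjoinRoot f, z ≠ 0 ∧ δ * z ^ n ∈ R ∧ (δ * z ^ n)⁻¹ ∈ R := by
  have hdom : IsDomain (AdjoinRoot g) :=
    isDomain_of_scale f hfact.out f.natDegree l m hl g hg h
  have hded : IsDedekindDomain (AdjoinRoot g) := isDedekind_adjoinRoot g hg
  have hdeg : g.natDegree = f.natDegree := by
    have h1 := congrArg natDegree h
    rw [natDegree_C_mul (pow_ne_zero _ hl), hg.natDegree_map, natDegree_comp_lin l m f hl] at h1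
    exact h1
  set E := scaleEquiv f (g.map (algebraMap A K)) l m f.natDegree hl h with hE
  have key : ∃ (I : Ideal (AdjoinRoot g)) (b c : AdjoinRoot g), I ≠ ⊥ ∧ c ≠ 0 ∧
      E δ * toField K g c ^ n = toField K g b ∧ Ideal.span {b} = I ^ n := by
    refine sel_ideal K g hg a hn0 (by rw [hdeg]; exact ha) (u : A) ?_ (E δ) ?_ ?_ ?_
    · intro P hP hPu
      exact absurd (isUnit_of_dvd_unit hPu u.isUnit) hP.not_isUnit
    · rw [Ne, EmbeddingLike.map_eq_zero_iff]
      exact hδ
    · obtain ⟨y, hy⟩ := hN
      exact ⟨y, by rw [Algebra.norm_eq_of_algEquiv]; exact hy⟩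
    · intro v _
      obtain rfl := eq_maximalIdeal v
      have hEb : IsIntegral A (E b) := hb.map (E.restrictScalars A)
      have hEb' : IsIntegral A (E b') := hb'.map (E.restrictScalars A)
      obtain ⟨b0, hb0⟩ := integral_mem g hg (E b) hEb
      obtain ⟨b1, hb1⟩ := integral_mem g hg (E b') hEb'
      have h01 : b0 * b1 = 1 := by
        apply toField_injective K g hg
        rw [map_mul, hb0, hb1, ← map_mul, hbb, map_one, map_one]
      refine ⟨b0, ?_, ?_⟩
      · intro w hw _ hbw
        have h1 : b0 * b1 ∈ w := w.mul_mem_right b1 hbw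
        rw [h01] at h1
        exact hw.ne_top ((Ideal.eq_top_iff_one _).2 h1)
      · rw [hb0, ← map_mul]
        set φ := algebraMap K ((IsDiscreteValuationRing.maximalIdeal A).adicCompletion K) with hφ
        have hl' : φ l ≠ 0 := by rw [Ne, map_eq_zero]; exact hl
        have he' : φ e ≠ 0 := by rw [Ne, map_eq_zero]; exact he
        have h' : C (φ l ^ f.natDegree) * (g.map (algebraMap A K)).map φ =
            (f.map φ).comp (C (φ l) * X + C (φ m)) := by
          have h1 := congrArg (Polynomial.map φ) h
          rwa [Polynomial.map_mul, Polynomial.map_C, map_pow, Polynomial.map_comp,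
            Polynomial.map_add, Polynomial.map_mul, Polynomial.map_C, Polynomial.map_C,
            Polynomial.map_X] at h1
        have hD' : φ D = φ l ^ f.natDegree * φ (algebraMap A K u) * φ e ^ n := by
          rw [hD, map_mul, map_mul, map_pow, map_pow]
        have h2 := val_scale (f.map φ) ((g.map (algebraMap A K)).map φ) (φ l) (φ m) hl' h' ha
          (φ D) _ (φ e) he' hD' _ hval
        rw [scale_completion φ f (g.map (algebraMap A K)) l m f.natDegree hl h hl' h'] at h2
        exact h2
  obtain ⟨I, b2, c, hI, hc, h1, h2⟩ := key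
  -- back to `k[x]/(f)`
  let j : AdjoinRoot g →+* AdjoinRoot f := (E.symm : _ →+* AdjoinRoot f).comp (toField K g)
  have hj : Function.Injective j := E.symm.injective.comp (toField_injective K g hg)
  have hjR : ∀ s, j s ∈ R := by
    intro s
    apply hR
    exact (toField_integral (K := K) g hg s).map (E.symm.restrictScalars A)
  refine unit_at j hj R hjR I hI b2 c hc δ ?_ h2
  apply E.injective
  rw [map_mul, map_pow]
  have h3 : ∀ s, E (j s) = toField K g s := fun s => E.apply_symm_apply _
  rw [h3, h3]
  exact h1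

end

end Pool.Agent.H80.CC
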