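import Mathlib

/-!
Lengths of quotients of a commutative ring and intersection numbers on a regular surface:
the local lemma for the `(1 - ζ)`-descent on `c z ^ ℓ = f(x)`.
-/

namespace Pool.Agent.H80.CC

open Ideal WithZero

section

variable {R : Type*} [CommRing R]

/-- The length of `R ⧸ K`. -/
noncomputable def len (K : Ideal R) : ℕ∞ := Module.length R (R ⧸ K)

theorem len_mono {K K' : Ideal R} (h : K ≤ K') : len K' ≤ len K :=
  Module.length_le_of_surjective (Submodule.factor h) (Submodule.factor_surjective h)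

theorem len_eq (K J : Ideal R) (b : R) (hJ : ∀ r, r ∈ J ↔ r * b ∈ K) :
    len K = len J + len (K ⊔ span {b}) := by
  let g0 : R →ₗ[R] (R ⧸ K) := LinearMap.toSpanSingleton R (R ⧸ K) (Submodule.Quotient.mk b)
  have hg0 : ∀ r, g0 r = Submodule.Quotient.mk (r * b) := fun r => by
    rw [LinearMap.toSpanSingleton_apply, ← Submodule.Quotient.mk_smul, smul_eq_mul]
  have hker : LinearMap.ker g0 = J := by
    ext r
    rw [LinearMap.mem_ker, hg0, Submodule.Quotient.mk_eq_zero, hJ]
  let g : (R ⧸ J) →ₗ[R] (R ⧸ K) := Submodule.liftQ J g0 (le_of_eq hker.symm)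
  have hg : Function.Injective g := by
    rw [← LinearMap.ker_eq_bot]
    exact Submodule.ker_liftQ_eq_bot' _ _ hker.symm
  refine Module.length_eq_add_of_exact g
    (Submodule.factor (le_sup_left : K ≤ K ⊔ span {b})) hg (Submodule.factor_surjective _) ?_
  intro y
  obtain ⟨y, rfl⟩ := Submodule.Quotient.mk_surjective _ y
  constructor
  · intro h
    have h1 : y ∈ K ⊔ span {b} := by
      rw [← Submodule.Quotient.mk_eq_zero]
      exact h
    obtain ⟨k, hk, c, hc, rfl⟩ := Submodule.mem_sup.1 h1
    obtain ⟨r, rfl⟩ := mem_span_singleton'.1 hc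
    refine ⟨Submodule.Quotient.mk r, ?_⟩
    show g0 r = _
    rw [hg0, Submodule.Quotient.mk_add, (Submodule.Quotient.mk_eq_zero K).2 hk, zero_add]
  · rintro ⟨r, hr⟩
    obtain ⟨r, rfl⟩ := Submodule.Quotient.mk_surjective _ r
    have h1 : g0 r = Submodule.Quotient.mk y := hr
    rw [hg0] at h1
    rw [← h1]
    show Submodule.Quotient.mk (r * b) = 0
    rw [Submodule.Quotient.mk_eq_zero]
    exact Submodule.mem_sup_right (mul_mem_left _ _ (mem_span_singleton_self b))

theorem len_mul (I : Ideal R) (b b' : R) (hb : ∀ s, s * b ∈ I → s ∈ I) :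
    len (I ⊔ span {b * b'}) = len (I ⊔ span {b'}) + len (I ⊔ span {b}) := by
  rw [len_eq (I ⊔ span {b * b'}) (I ⊔ span {b'}) b]
  · congr 2
    apply le_antisymm
    · refine sup_le (sup_le le_sup_left ?_) le_sup_right
      rw [span_singleton_le_iff_mem]
      exact Submodule.mem_sup_right (mul_mem_right _ _ (mem_span_singleton_self b))
    · exact sup_le (le_sup_left.trans le_sup_left) le_sup_right
  · intro r
    constructor
    · intro hr
      obtain ⟨i, hi, c, hc, rfl⟩ := Submodule.mem_sup.1 hr
      obtain ⟨c, rfl⟩ := mem_span_singleton'.1 hc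
      have : (i + c * b') * b = i * b + c * (b * b') := by ring
      rw [this]
      exact Submodule.add_mem_sup (mul_mem_right _ _ hi)
        (mul_mem_left _ _ (mem_span_singleton_self _))
    · intro hr
      obtain ⟨i, hi, c, hc, h⟩ := Submodule.mem_sup.1 hr
      obtain ⟨c, rfl⟩ := mem_span_singleton'.1 hc
      have h1 : (r - c * b') * b ∈ I := by
        have : (r - c * b') * b = i := by linear_combination -h
        rw [this]; exact hi
      have h2 := hb _ h1
      have : r = (r - c * b') + c * b' := by ring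
      rw [this]
      exact Submodule.add_mem_sup h2 (mul_mem_left _ _ (mem_span_singleton_self _))

theorem len_top : len (⊤ : Ideal R) = 0 := by
  rw [len, Module.length_eq_zero_iff]
  exact Ideal.Quotient.subsingleton_iff.2 rfl

theorem len_pow_mul (I : Ideal R) (b y : R) (hb : ∀ s, s * b ∈ I → s ∈ I) (n : ℕ) :
    len (I ⊔ span {b ^ n * y}) = n * len (I ⊔ span {b}) + len (I ⊔ span {y}) := by
  induction n with
  | zero => simp
  | succ n ih =>
    have : b ^ (n + 1) * y = b * (b ^ n * y) := by ring
    rw [this, len_mul I b _ hb, ih]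
    push_cast
    ring

theorem len_pow (I : Ideal R) (b : R) (hb : ∀ s, s * b ∈ I → s ∈ I) (n : ℕ) :
    len (I ⊔ span {b ^ n}) = n * len (I ⊔ span {b}) := by
  have := len_pow_mul I b 1 hb n
  rw [mul_one, span_singleton_one, sup_top_eq, len_top, add_zero] at this
  exact this

theorem len_eq_one {K : Ideal R} (h : K.IsMaximal) : len K = 1 := by
  rw [len, Module.length_eq_one_iff]
  exact isSimpleModule_iff_isCoatom.2 h.out

theorem len_pow_ne_top (I : Ideal R) (p : R) (h : len (I ⊔ span {p}) ≠ ⊤) (n : ℕ) :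
    len (I ⊔ span {p ^ n}) ≠ ⊤ := by
  induction n with
  | zero => rw [pow_zero, span_singleton_one, sup_top_eq, len_top]; simp
  | succ n ih =>
    let J : Ideal R :=
      { carrier := {r | r * p ∈ I ⊔ span {p ^ (n + 1)}}
        zero_mem' := by simp
        add_mem' := fun {a b} ha hb => by
          show (a + b) * p ∈ I ⊔ span {p ^ (n + 1)}
          rw [add_mul]; exact add_mem ha hb
        smul_mem' := fun c a ha => by
          show (c * a) * p ∈ I ⊔ span {p ^ (n + 1)}
          rw [mul_assoc]; exact mul_mem_left _ _ ha }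
    rw [len_eq (I ⊔ span {p ^ (n + 1)}) J p (fun r => Iff.rfl)]
    have h1 : len J ≤ len (I ⊔ span {p ^ n}) := by
      apply len_mono
      intro r hr
      obtain ⟨i, hi, c, hc, rfl⟩ := Submodule.mem_sup.1 hr
      obtain ⟨c, rfl⟩ := mem_span_singleton'.1 hc
      show (i + c * p ^ n) * p ∈ I ⊔ span {p ^ (n + 1)}
      have : (i + c * p ^ n) * p = i * p + c * p ^ (n + 1) := by ring
      rw [this]
      exact Submodule.add_mem_sup (mul_mem_right _ _ hi)
        (mul_mem_left _ _ (mem_span_singleton_self _))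
    have h2 : len (I ⊔ span {p ^ (n + 1)} ⊔ span {p}) ≤ len (I ⊔ span {p}) := by
      apply len_mono
      exact sup_le (le_sup_left.trans le_sup_left) le_sup_right
    rw [Ne, ENat.add_eq_top, not_or]
    exact ⟨ne_top_of_le_ne_top ih h1, ne_top_of_le_ne_top h h2⟩

/-- The quotient by `F` is a discrete valuation ring: the length of `R ⧸ (F, y)` is the
valuation of `y`. -/
theorem len_val {M : Type*} [Field M] (w : Valuation M ℤᵐ⁰) (φ : R →+* M) (F h : R)
    (hF : φ F = 0) (hh : w (φ h) = exp (-1 : ℤ)) (hle : ∀ s, w (φ s) ≤ 1)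
    (hunit : ∀ s, w (φ s) = 1 → IsUnit s)
    (hmem : ∀ s, w (φ s) < 1 → s ∈ span {F} ⊔ span {h}) :
    ∀ (n : ℕ) (y : R), w (φ y) = exp (-(n : ℤ)) → len (span {F} ⊔ span {y}) = n := by
  have hlt : exp (-1 : ℤ) < 1 := by
    rw [← exp_zero, exp_lt_exp]; norm_num
  have hmem' : ∀ s, s ∈ span {F} ⊔ span {h} → w (φ s) < 1 := by
    intro s hs
    obtain ⟨i, hi, c, hc, rfl⟩ := Submodule.mem_sup.1 hs
    obtain ⟨i, rfl⟩ := mem_span_singleton'.1 hi
    obtain ⟨c, rfl⟩ := mem_span_singleton'.1 hc
    rw [map_add, map_mul, hF, mul_zero, zero_add, map_mul, map_mul, hh]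
    exact lt_of_le_of_lt (mul_le_of_le_one_left' (hle c)) hlt
  have hmax : (span {F} ⊔ span {h}).IsMaximal := by
    rw [Ideal.isMaximal_iff]
    refine ⟨fun h1 => ?_, fun J s _ hs hJ => ?_⟩
    · have := hmem' _ h1
      rw [map_one, map_one] at this
      exact lt_irrefl _ this
    · have h2 : w (φ s) = 1 := by
        refine le_antisymm (hle s) (not_lt.1 fun h3 => hs (hmem s h3))
      have h3 := J.eq_top_of_isUnit_mem hJ (hunit s h2)
      rw [h3]; trivial
  intro n
  induction n with
  | zero =>
    intro y hy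
    have h1 : w (φ y) = 1 := by rw [hy]; simp
    have h2 : span {F} ⊔ span {y} = ⊤ :=
      Ideal.eq_top_of_isUnit_mem _ (Submodule.mem_sup_right (mem_span_singleton_self y))
        (hunit y h1)
    rw [h2, len_top]; rfl
  | succ n ih =>
    intro y hy
    have h1 : w (φ y) < 1 := by
      rw [hy, ← exp_zero, exp_lt_exp]; push_cast; omega
    obtain ⟨i, hi, c, hc, hic⟩ := Submodule.mem_sup.1 (hmem y h1)
    obtain ⟨i, rfl⟩ := mem_span_singleton'.1 hi
    obtain ⟨b, rfl⟩ := mem_span_singleton'.1 hc
    have hb : w (φ b) = exp (-(n : ℤ)) := by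
      rw [← hic, map_add, map_mul, hF, mul_zero, zero_add, map_mul, map_mul, hh] at hy
      have h2 : exp (-((n + 1 : ℕ) : ℤ)) = exp (-(n : ℤ)) * exp (-1 : ℤ) := by
        rw [← exp_add]; congr 1; push_cast; ring
      rw [h2] at hy
      exact mul_right_cancel₀ (exp_ne_zero) hy
    have hb0 : w (φ b) ≠ 0 := by rw [hb]; exact exp_ne_zero
    have hK : span {F} ⊔ span {y} = span {F} ⊔ span {b * h} := by
      apply le_antisymm
      · refine sup_le le_sup_left ?_
        rw [span_singleton_le_iff_mem, ← hic]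
        exact Submodule.add_mem_sup (mul_mem_left _ _ (mem_span_singleton_self _))
          (mem_span_singleton_self _)
      · refine sup_le le_sup_left ?_
        rw [span_singleton_le_iff_mem]
        have : b * h = (-i) * F + y := by rw [← hic]; ring
        rw [this]
        exact Submodule.add_mem_sup (mul_mem_left _ _ (mem_span_singleton_self _))
          (mem_span_singleton_self _)
    rw [hK, len_eq (span {F} ⊔ span {b * h}) (span {F} ⊔ span {h}) b]
    · rw [len_eq_one hmax]
      have h3 : span {F} ⊔ span {b * h} ⊔ span {b} = span {F} ⊔ span {b} := by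
        apply le_antisymm
        · refine sup_le (sup_le le_sup_left ?_) le_sup_right
          rw [span_singleton_le_iff_mem]
          exact Submodule.mem_sup_right (mul_mem_right _ _ (mem_span_singleton_self b))
        · exact sup_le (le_sup_left.trans le_sup_left) le_sup_right
      rw [h3, ih b hb]
      push_cast
      ring
    · intro r
      constructor
      · intro hr
        obtain ⟨j, hj, c, hc, rfl⟩ := Submodule.mem_sup.1 hr
        obtain ⟨c, rfl⟩ := mem_span_singleton'.1 hc
        have : (j + c * h) * b = j * b + c * (b * h) := by ring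
        rw [this]
        exact Submodule.add_mem_sup (mul_mem_right _ _ hj)
          (mul_mem_left _ _ (mem_span_singleton_self _))
      · intro hr
        apply hmem
        obtain ⟨j, hj, c, hc, hjc⟩ := Submodule.mem_sup.1 hr
        obtain ⟨j, rfl⟩ := mem_span_singleton'.1 hj
        obtain ⟨c, rfl⟩ := mem_span_singleton'.1 hc
        have h4 := congrArg (fun x => w (φ x)) hjc
        simp only [map_add, map_mul, hF, mul_zero, zero_add, hh] at h4
        have h5 : w (φ r) * w (φ b) < 1 * w (φ b) := by
          rw [← h4, one_mul]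
          calc w (φ c) * (w (φ b) * exp (-1 : ℤ)) ≤ w (φ b) * exp (-1 : ℤ) :=
                mul_le_of_le_one_left' (hle c)
            _ < w (φ b) * 1 := by
                exact mul_lt_mul_of_pos_left hlt (zero_lt_iff.2 hb0)
            _ = w (φ b) := mul_one _
        exact lt_of_mul_lt_mul_right' h5

/-- The local lemma over the local ring. -/
theorem dvd_local {M : Type*} [Field M] (w : Valuation M ℤᵐ⁰) (φ : R →+* M) (F h : R)
    (hF : φ F = 0) (hh : w (φ h) = exp (-1 : ℤ)) (hle : ∀ s, w (φ s) ≤ 1)
    (hunit : ∀ s, w (φ s) = 1 → IsUnit s)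
    (hmem : ∀ s, w (φ s) < 1 → s ∈ span {F} ⊔ span {h})
    (ϖ p : R) (hmax : len (span {ϖ} ⊔ span {p}) ≠ ⊤)
    (l N m k n : ℕ) (hl : l ≠ 0) (P B g q t S a b : R) (hg : IsUnit g) (hq : IsUnit q)
    (hrel : P * S = B ^ l - ϖ ^ (l * N) * (g * F))
    (hreg : ∀ s, s * ϖ ∈ span {P} → s ∈ span {P})
    (hcop : a * P + b * F = ϖ ^ k) (hP : P = p ^ m * q + ϖ * t)
    (hn : w (φ P) = exp (-(n : ℤ))) : l ∣ n := by
  have h1 : len (span {P} ⊔ span {F}) = n := by
    rw [sup_comm]
    exact len_val w φ F h hF hh hle hunit hmem n P hn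
  -- finiteness of the length of `R ⧸ (P, ϖ)`
  have h2 : len (span {P} ⊔ span {ϖ}) ≠ ⊤ := by
    have h3 : span {P} ⊔ span {ϖ} = span {ϖ} ⊔ span {p ^ m} := by
      apply le_antisymm
      · refine sup_le ?_ le_sup_left
        rw [span_singleton_le_iff_mem, hP, add_comm]
        exact Submodule.add_mem_sup (mul_mem_right _ _ (mem_span_singleton_self _))
          (mul_mem_right _ _ (mem_span_singleton_self _))
      · refine sup_le le_sup_right ?_
        rw [span_singleton_le_iff_mem]
        obtain ⟨q, rfl⟩ := hq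
        have : p ^ m = (q⁻¹ : Rˣ) * P + (-(q⁻¹ : Rˣ) * t) * ϖ := by
          rw [hP]
          have : ((q⁻¹ : Rˣ) : R) * q = 1 := Units.inv_mul q
          linear_combination (-p ^ m) * this
        rw [this]
        exact Submodule.add_mem_sup (mul_mem_left _ _ (mem_span_singleton_self _))
          (mul_mem_left _ _ (mem_span_singleton_self _))
    rw [h3]
    exact len_pow_ne_top _ _ hmax m
  have hregk : ∀ (j : ℕ) (s : R), s * ϖ ^ j ∈ span {P} → s ∈ span {P} := by
    intro j
    induction j with
    | zero => intro s hs; simpa using hs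
    | succ j ih =>
      intro s hs
      apply ih
      apply hreg
      rw [mul_assoc, ← pow_succ]; exact hs
  have hregF : ∀ s, s * F ∈ span {P} → s ∈ span {P} := by
    intro s hs
    apply hregk k
    rw [← hcop]
    have : s * (a * P + b * F) = (s * a) * P + b * (s * F) := by ring
    rw [this]
    exact add_mem (mul_mem_left _ _ (mem_span_singleton_self _)) (mul_mem_left _ _ hs)
  have hregB : ∀ s, s * B ∈ span {P} → s ∈ span {P} := by
    intro s hs
    apply hregF
    apply hregk (l * N)
    have h3 : s * B ^ l ∈ span {P} := by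
      obtain ⟨l', rfl⟩ := Nat.exists_eq_succ_of_ne_zero hl
      rw [pow_succ', ← mul_assoc]
      exact mul_mem_right _ _ hs
    obtain ⟨g, rfl⟩ := hg
    have h4 : s * F * ϖ ^ (l * N) = (g⁻¹ : Rˣ) * (s * B ^ l) - ((g⁻¹ : Rˣ) * s * S) * P := by
      have : ((g⁻¹ : Rˣ) : R) * g = 1 := Units.inv_mul g
      linear_combination (-s * F * ϖ ^ (l * N)) * this + ((g⁻¹ : Rˣ) : R) * s * hrel
    rw [h4]
    exact sub_mem (mul_mem_left _ _ h3) (mul_mem_left _ _ (mem_span_singleton_self _))
  have h3 : len (span {P} ⊔ span {B ^ l}) = l * len (span {P} ⊔ span {B}) := len_pow _ _ hregB l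
  have h4 : span {P} ⊔ span {B ^ l} = span {P} ⊔ span {ϖ ^ (l * N) * (g * F)} := by
    apply le_antisymm
    · refine sup_le le_sup_left ?_
      rw [span_singleton_le_iff_mem]
      have : B ^ l = S * P + ϖ ^ (l * N) * (g * F) := by linear_combination -hrel
      rw [this]
      exact Submodule.add_mem_sup (mul_mem_left _ _ (mem_span_singleton_self _))
        (mem_span_singleton_self _)
    · refine sup_le le_sup_left ?_
      rw [span_singleton_le_iff_mem]
      have : ϖ ^ (l * N) * (g * F) = (-S) * P + B ^ l := by linear_combination hrel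
      rw [this]
      exact Submodule.add_mem_sup (mul_mem_left _ _ (mem_span_singleton_self _))
        (mem_span_singleton_self _)
  have h5 : len (span {P} ⊔ span {ϖ ^ (l * N) * (g * F)}) =
      (l * N : ℕ) * len (span {P} ⊔ span {ϖ}) + len (span {P} ⊔ span {g * F}) :=
    len_pow_mul _ _ _ hreg _
  have h6 : span {g * F} = span {F} := by
    rw [span_singleton_mul_left_unit hg]
  rw [h4, h5, h6, h1] at h3
  obtain ⟨e, he⟩ := ENat.ne_top_iff_exists.1 h2
  have h7 : len (span {P} ⊔ span {B}) ≠ ⊤ := by
    intro h8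
    rw [h8, ← he] at h3
    rw [ENat.mul_top (by exact_mod_cast hl)] at h3
    have : ((l * N : ℕ) : ℕ∞) * (e : ℕ∞) + (n : ℕ∞) = ((l * N * e + n : ℕ) : ℕ∞) := by
      push_cast; ring
    rw [this] at h3
    exact ENat.natCast_ne_top _ h3
  obtain ⟨x, hx⟩ := ENat.ne_top_iff_exists.1 h7
  rw [← he, ← hx] at h3
  have h8 : l * N * e + n = l * x := by exact_mod_cast h3
  have h9 : l ∣ l * N * e := by rw [mul_assoc]; exact dvd_mul_right _ _
  have h10 : l ∣ l * N * e + n := by rw [h8]; exact dvd_mul_right _ _
  exact (Nat.dvd_add_right h9).1 h10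

end

end Pool.Agent.H80.CC
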