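import Pool.Agent.H80.CC.SplitG
import Pool.Agent.H80.CC.GoodPl

/-!
The lifting place.
-/

namespace Pool.Agent.H80.CC.G

open Polynomial WithZero IsDedekindDomain HeightOneSpectrum H94.TC H94.TL

section

variable {A K : Type*} [CommRing A] [IsDomain A] [IsDiscreteValuationRing A] [Field K]
  [Algebra A K] [IsFractionRing A K]

theorem isRes_residue (π : A) (hπ : Irreducible π) : IsRes (IsLocalRing.residue A) π := by
  refine ⟨IsLocalRing.residue_surjective, fun a => ?_⟩
  rw [IsLocalRing.residue_eq_zero_iff, hπ.maximalIdeal_eq, Ideal.mem_span_singleton]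

/-- `A[x]/(g)` is integrally closed if `g` is squarefree modulo the maximal ideal -/
theorem isIntegrallyClosed_of_squarefree (g : A[X]) (hg : g.Monic)
    (hirr : Irreducible (g.map (algebraMap A K)))
    (hsq : Squarefree (g.map (IsLocalRing.residue A))) : IsIntegrallyClosed (AdjoinRoot g) := by
  have hirr' : Irreducible g := (hg.irreducible_iff_irreducible_map_fraction_map (K := K)).2 hirr
  have hdom : IsDomain (AdjoinRoot g) := AdjoinRoot.isDomain_of_prime hirr'.prime
  let _ : Fact (Irreducible (g.map (algebraMap A K))) := ⟨hirr⟩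
  let _ := (toField K g).toAlgebra
  have : IsFractionRing (AdjoinRoot g) (AdjoinRoot (g.map (algebraMap A K))) :=
    isFractionRing_toField K g hg
  obtain ⟨π, hπ⟩ := IsDiscreteValuationRing.exists_irreducible A
  have hφ := isRes_residue π hπ
  have hinj := toField_injective K g hg
  have hπ0 : toField K g (AdjoinRoot.mk g (C π)) ≠ 0 := by
    intro h0
    rw [toField_mk, Polynomial.map_C] at h0
    have h1 : (AdjoinRoot.of (g.map (algebraMap A K))) (algebraMap A K π) = 0 := h0
    rw [map_eq_zero] at h1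
    exact hπ.ne_zero ((FaithfulSMul.algebraMap_eq_zero_iff A K).1 h1)
  -- one step
  have step : ∀ x : AdjoinRoot (g.map (algebraMap A K)), IsIntegral (AdjoinRoot g) x →
      (∃ y, toField K g (AdjoinRoot.mk g (C π)) * x = toField K g y) →
      ∃ y, toField K g y = x := by
    rintro x hx ⟨y, hy⟩
    obtain ⟨p, hp, hpx⟩ := hx
    have h1 : AdjoinRoot.mk g (C π) ∣ y ^ p.natDegree :=
      dvd_pow_natDegree_of_eval₂_eq_zero (f := toField K g) hinj hp _ _ x hpx hy
    have hN : p.natDegree ≠ 0 := by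
      intro h0
      have h2 := hp.natDegree_eq_zero.1 h0
      rw [h2, eval₂_one] at hpx
      exact one_ne_zero hpx
    obtain ⟨P, rfl⟩ := AdjoinRoot.mk_surjective y
    obtain ⟨S, hS⟩ := h1
    obtain ⟨S, rfl⟩ := AdjoinRoot.mk_surjective S
    rw [← map_pow, ← map_mul, AdjoinRoot.mk_eq_mk] at hS
    have h3 := Polynomial.map_dvd (IsLocalRing.residue A) hS
    rw [Polynomial.map_sub, Polynomial.map_mul, Polynomial.map_C, hφ.map_pi, C_0, zero_mul,
      sub_zero, Polynomial.map_pow, hsq.dvd_pow_iff_dvd hN] at h3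
    obtain ⟨q', hq'⟩ := h3
    obtain ⟨q, rfl⟩ := hφ.map_surj q'
    obtain ⟨S', hS'⟩ := hφ.C_dvd (P - g * q) (by
      rw [Polynomial.map_sub, Polynomial.map_mul, hq', sub_self])
    refine ⟨AdjoinRoot.mk g S', ?_⟩
    apply mul_left_cancel₀ hπ0
    rw [hy, ← map_mul, ← map_mul, ← hS', map_sub, map_mul (AdjoinRoot.mk g), AdjoinRoot.mk_self,
      zero_mul, sub_zero]
  have steps : ∀ (m : ℕ) (x : AdjoinRoot (g.map (algebraMap A K))), IsIntegral (AdjoinRoot g) x →
      (∃ y, toField K g (AdjoinRoot.mk g (C π)) ^ m * x = toField K g y) →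
      ∃ y, toField K g y = x := by
    intro m
    induction m with
    | zero =>
      rintro x _ ⟨y, hy⟩
      exact ⟨y, by rw [← hy, pow_zero, one_mul]⟩
    | succ m ih =>
      rintro x hx ⟨y, hy⟩
      apply step x hx
      have h1 : IsIntegral (AdjoinRoot g) (toField K g (AdjoinRoot.mk g (C π)) * x) :=
        (isIntegral_algebraMap (R := AdjoinRoot g)
          (A := AdjoinRoot (g.map (algebraMap A K))) (x := AdjoinRoot.mk g (C π))).mul hx
      obtain ⟨y', hy'⟩ := ih _ h1 ⟨y, by rw [← mul_assoc, ← pow_succ, hy]⟩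
      exact ⟨y', hy'.symm⟩
  rw [isIntegrallyClosed_iff (AdjoinRoot (g.map (algebraMap A K)))]
  intro x hx
  obtain ⟨Δ, rfl⟩ := AdjoinRoot.mk_surjective x
  obtain ⟨b, hbm, hb⟩ := IsLocalization.integerNormalization_spec (nonZeroDivisors A) Δ
  have hb0 : b ≠ 0 := nonZeroDivisors.ne_zero hbm
  obtain ⟨m, u, hu⟩ := IsDiscreteValuationRing.eq_unit_mul_pow_irreducible hb0 hπ
  refine steps m _ hx ⟨AdjoinRoot.mk g (C ((u⁻¹ : Aˣ) : A) *
    IsLocalization.integerNormalization (nonZeroDivisors A) Δ), ?_⟩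
  rw [← map_pow, ← map_pow, ← C_pow, toField_mk, toField_mk, Polynomial.map_C, Polynomial.map_mul,
    Polynomial.map_C, hb, ← map_mul]
  congr 1
  have h2 : b • Δ = C (algebraMap A K b) * Δ := by
    rw [← algebraMap_smul K, smul_eq_C_mul]
  rw [h2, hu, ← mul_assoc, ← C_mul, ← map_mul, ← mul_assoc, Units.inv_mul, one_mul]

/-- the value at the divisor `P(x) = 0` -/
noncomputable def valE (a : ℕ) (D : A) (g P : A[X]) : AdjoinRoot g :=
  AdjoinRoot.mk g (C (-D ^ a)) ^ P.natDegree * AdjoinRoot.mk g P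

theorem lift_place {k : Type*} [Field k] {φ : A →+* k} {π : A} (g : A[X]) (hg : g.Monic) {n : ℕ}
    (a : ℕ) (hn0 : n ≠ 0)
    (ha : n ∣ a * g.natDegree + 1) [IsDedekindDomain (AdjoinRoot g)] {e : ℕ}
    (D : A) {r : ℕ} (P Q : Fin r → A[X]) (H : A[X]) (hπ : Irreducible π)
    (hsp : Splits φ π g n e D P Q H) (δ : AdjoinRoot (g.map (algebraMap A K)))
    (hδ : ∀ s : Fin r → ℕ, δ * ∏ i, toField K g (valE a D g (P i)) ^ s i ≠ 0)
    (hN : ∀ s : Fin r → ℕ, ∃ y : K,
      Algebra.norm K (δ * ∏ i, toField K g (valE a D g (P i)) ^ s i) = y ^ n) :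
    ∃ (s : Fin r → ℕ) (I : Ideal (AdjoinRoot g)) (b c : AdjoinRoot g), I ≠ ⊥ ∧ c ≠ 0 ∧
      δ * (∏ i, toField K g (valE a D g (P i)) ^ s i) * toField K g c ^ n = toField K g b ∧
      Ideal.span {b} = I ^ n := by
  classical
  let _ : Fact (Irreducible (g.map (algebraMap A K))) := ⟨irreducible_map K g hg⟩
  let _ := (toField K g).toAlgebra
  have : IsFractionRing (AdjoinRoot g) (AdjoinRoot (g.map (algebraMap A K))) :=
    isFractionRing_toField K g hg
  have := torsionFree_adjoinRoot g hg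
  have : Module.Finite A (AdjoinRoot g) := hg.finite_adjoinRoot
  have : Module.Free A (AdjoinRoot g) := hg.free_adjoinRoot
  have hfin : Module.finrank A (AdjoinRoot g) = g.natDegree :=
    finrank_quotient_span_eq_natDegree' hg
  have : IsScalarTower A (AdjoinRoot g) (AdjoinRoot (g.map (algebraMap A K))) := by
    refine IsScalarTower.of_algebraMap_eq fun x => ?_
    show _ = toField K g _
    have h1 : algebraMap A (AdjoinRoot g) x = AdjoinRoot.mk g (C x) := rfl
    rw [h1, toField_mk, Polynomial.map_C]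
    rfl
  have hcopn : n.Coprime (Module.finrank A (AdjoinRoot g)) := by
    rw [hfin]
    have h1 : Nat.gcd n g.natDegree ∣ a * g.natDegree + 1 := (Nat.gcd_dvd_left _ _).trans ha
    have h2 : Nat.gcd n g.natDegree ∣ a * g.natDegree := (Nat.gcd_dvd_right _ _).mul_left _
    exact Nat.dvd_one.1 ((Nat.dvd_add_right h2).1 h1)
  have hπ0 : AdjoinRoot.mk g (C π) ≠ 0 := by
    have h1 : AdjoinRoot.mk g (C π) = algebraMap A (AdjoinRoot g) π := rfl
    rw [h1, Ne, FaithfulSMul.algebraMap_eq_zero_iff]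
    exact hπ.ne_zero
  have hδ1 : δ ≠ 0 := by
    have h1 := hδ 0
    simp only [Pi.zero_apply, pow_zero, Finset.prod_const_one, mul_one] at h1
    exact h1
  obtain ⟨s, j0, htw⟩ := hsp.twist (AdjoinRoot (g.map (algebraMap A K))) hn0 hπ0 a δ hδ1
  refine ⟨s, ?_⟩
  have htw' : ∀ w : HeightOneSpectrum (AdjoinRoot g),
      AdjoinRoot.mk g (C π) ∈ w.asIdeal → w.intValuation (AdjoinRoot.mk g (C π)) = exp (-1 : ℤ) ∧
      ∃ t : ℤᵐ⁰, w.valuation (AdjoinRoot (g.map (algebraMap A K)))
        (δ * ∏ i, toField K g (valE a D g (P i)) ^ s i) * exp (-1 : ℤ) ^ j0 = t ^ n := htw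
  obtain ⟨I, hI⟩ := glob_ideal (A := A) (K := K) (B := AdjoinRoot g)
    (L := AdjoinRoot (g.map (algebraMap A K))) hn0 hcopn _ (hδ s) (hN s) (fun v => by
      have hvπ : v.asIdeal = Ideal.span {π} := by
        rw [eq_maximalIdeal v]
        exact hπ.maximalIdeal_eq
      refine ⟨j0, fun w hw => ?_⟩
      have hπw : AdjoinRoot.mk g (C π) ∈ w.asIdeal := by
        have h2 : π ∈ w.asIdeal.under A := by
          rw [← hw.over, hvπ]
          exact Ideal.mem_span_singleton_self _
        exact h2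
      obtain ⟨h1, t, ht⟩ := htw' w hπw
      have h3 := intValuation_liesOver (B := AdjoinRoot g) v w π
      rw [v.intValuation_singleton hπ.ne_zero hvπ] at h3
      have h4 : w.intValuation (algebraMap A (AdjoinRoot g) π) = exp (-1 : ℤ) := h1
      rw [h4] at h3
      exact ⟨t, by rw [h3]; exact ht⟩)
  obtain ⟨J, b, c, h1, h2, h3, h4⟩ := frac_to_int hn0 _ (hδ s) I hI
  exact ⟨J, b, c, h1, h2, h3, h4⟩

end

end Pool.Agent.H80.CC.G
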