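import Pool.Agent.H80.CC.Len

/-!
The local lemma over a domain, by localisation at the centre of a valuation.
-/

namespace Pool.Agent.H80.CC

open Ideal WithZero

section

variable {S : Type*} [CommRing S] [IsDomain S] {M : Type*} [Field M]

/-- The centre of a valuation. -/
def centre (w : Valuation M ℤᵐ⁰) (φ : S →+* M) (hle : ∀ s, w (φ s) ≤ 1) : Ideal S where
  carrier := {s | w (φ s) < 1}
  zero_mem' := by
    show w (φ 0) < 1
    rw [map_zero, map_zero]
    exact zero_lt_one
  add_mem' := fun {a b} ha hb => by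
    show w (φ (a + b)) < 1
    rw [map_add]
    exact lt_of_le_of_lt (w.map_add _ _) (max_lt ha hb)
  smul_mem' := fun c a ha => by
    show w (φ (c * a)) < 1
    rw [map_mul, map_mul]
    exact lt_of_le_of_lt (mul_le_of_le_one_left' (hle c)) ha

omit [IsDomain S] in
theorem mem_centre (w : Valuation M ℤᵐ⁰) (φ : S →+* M) (hle : ∀ s, w (φ s) ≤ 1) (s : S) :
    s ∈ centre w φ hle ↔ w (φ s) < 1 := Iff.rfl

instance centre_isPrime (w : Valuation M ℤᵐ⁰) (φ : S →+* M) (hle : ∀ s, w (φ s) ≤ 1) :
    (centre w φ hle).IsPrime := by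
  refine ⟨fun h => ?_, fun {a b} hab => ?_⟩
  · have h1 : (1 : S) ∈ centre w φ hle := by rw [h]; trivial
    rw [mem_centre, map_one, map_one] at h1
    exact lt_irrefl _ h1
  · by_contra hcon
    rw [not_or, mem_centre, mem_centre, not_lt, not_lt] at hcon
    rw [mem_centre, map_mul, map_mul] at hab
    have h1 : (1 : ℤᵐ⁰) ≤ w (φ a) * w (φ b) := one_le_mul hcon.1 hcon.2
    exact absurd hab (not_lt.2 h1)

theorem dvd_of_rel (w : Valuation M ℤᵐ⁰) (φ : S →+* M) (hle : ∀ s, w (φ s) ≤ 1)
    (ϖ F h p : S) (hF : φ F = 0) (hh : w (φ h) = exp (-1 : ℤ))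
    (hmem : ∀ s, w (φ s) < 1 → ∃ u a b, w (φ u) = 1 ∧ u * s = a * F + b * h)
    (hϖ : Prime ϖ) (hϖ1 : w (φ ϖ) < 1) (hp1 : w (φ p) < 1)
    (hp : ∀ s, w (φ s) < 1 → ∃ a b, s = a * p + b * ϖ)
    (l N k n : ℕ) (hl : l ≠ 0) (P B g T a b : S) (hg : w (φ g) = 1)
    (hrel : P * T = B ^ l - ϖ ^ (l * N) * (g * F)) (hP : ¬ ϖ ∣ P)
    (hcop : a * P + b * F = ϖ ^ k)
    (hfac : ∃ (m : ℕ) (q t : S), w (φ q) = 1 ∧ P = p ^ m * q + ϖ * t)
    (hn : w (φ P) = exp (-(n : ℤ))) : l ∣ n := by
  classical
  set m := centre w φ hle with hm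
  have hcompl : ∀ y : S, y ∈ m.primeCompl ↔ w (φ y) = 1 := by
    intro y
    show ¬ (w (φ y) < 1) ↔ _
    rw [not_lt]
    exact ⟨fun h1 => le_antisymm (hle y) h1, fun h1 => h1.ge⟩
  have hu : ∀ y : m.primeCompl, IsUnit (φ y) := by
    intro y
    have h1 := (hcompl y).1 y.2
    rw [isUnit_iff_ne_zero]
    intro h0
    rw [h0, map_zero] at h1
    exact zero_ne_one h1
  let R := Localization.AtPrime m
  let φ' : R →+* M := IsLocalization.lift (M := m.primeCompl) hu
  have hφ' : ∀ s, φ' (algebraMap S R s) = φ s := fun s => IsLocalization.lift_eq hu s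
  have hunitS : ∀ s : S, w (φ s) = 1 → IsUnit (algebraMap S R s) := fun s hs =>
    IsLocalization.map_units R (⟨s, (hcompl s).2 hs⟩ : m.primeCompl)
  have hinj : Function.Injective (algebraMap S R) :=
    IsLocalization.injective R m.primeCompl_le_nonZeroDivisors
  -- every element is a fraction
  have hfrac : ∀ s : R, ∃ x y : S, w (φ y) = 1 ∧ s * algebraMap S R y = algebraMap S R x := by
    intro s
    obtain ⟨⟨x, y⟩, hxy⟩ := IsLocalization.surj m.primeCompl s
    exact ⟨x, y, (hcompl y).1 y.2, hxy⟩
  have hval : ∀ (s : R) (x y : S), w (φ y) = 1 → s * algebraMap S R y = algebraMap S R x →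
      w (φ' s) = w (φ x) := by
    intro s x y hy hxy
    have h1 := congrArg (fun z => w (φ' z)) hxy
    simp only [map_mul, hφ', hy, mul_one] at h1
    exact h1
  have hle' : ∀ s, w (φ' s) ≤ 1 := by
    intro s
    obtain ⟨x, y, hy, hxy⟩ := hfrac s
    rw [hval s x y hy hxy]
    exact hle x
  have hunit' : ∀ s, w (φ' s) = 1 → IsUnit s := by
    intro s hs
    obtain ⟨x, y, hy, hxy⟩ := hfrac s
    rw [hval s x y hy hxy] at hs
    have h1 : IsUnit (s * algebraMap S R y) := by rw [hxy]; exact hunitS x hs
    exact isUnit_of_mul_isUnit_left h1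
  have hmem' : ∀ s, w (φ' s) < 1 → s ∈ span {algebraMap S R F} ⊔ span {algebraMap S R h} := by
    intro s hs
    obtain ⟨x, y, hy, hxy⟩ := hfrac s
    rw [hval s x y hy hxy] at hs
    obtain ⟨u, c, d, hu1, hucd⟩ := hmem x hs
    have h1 : (algebraMap S R u * algebraMap S R y) * s ∈
        span {algebraMap S R F} ⊔ span {algebraMap S R h} := by
      have h2 : (algebraMap S R u * algebraMap S R y) * s =
          algebraMap S R c * algebraMap S R F + algebraMap S R d * algebraMap S R h := by
        rw [← map_mul, ← map_mul, ← map_mul, ← map_add, ← hucd, map_mul, map_mul, ← hxy]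
        ring
      rw [h2]
      exact Submodule.add_mem_sup (mul_mem_left _ _ (mem_span_singleton_self _))
        (mul_mem_left _ _ (mem_span_singleton_self _))
    exact (Ideal.unit_mul_mem_iff_mem _ ((hunitS u hu1).mul (hunitS y hy))).1 h1
  have hmax : len (span {algebraMap S R ϖ} ⊔ span {algebraMap S R p}) ≠ ⊤ := by
    have h1 : (span {algebraMap S R ϖ} ⊔ span {algebraMap S R p}).IsMaximal := by
      rw [Ideal.isMaximal_iff]
      refine ⟨fun h1 => ?_, fun J s _ hs hJ => ?_⟩
      · obtain ⟨i, hi, c, hc, hic⟩ := Submodule.mem_sup.1 h1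
        obtain ⟨i, rfl⟩ := mem_span_singleton'.1 hi
        obtain ⟨c, rfl⟩ := mem_span_singleton'.1 hc
        have h2 : w (φ' 1) < 1 := by
          rw [← hic, map_add]
          refine lt_of_le_of_lt (w.map_add _ _) (max_lt ?_ ?_)
          · rw [map_mul, map_mul, hφ']
            exact lt_of_le_of_lt (mul_le_of_le_one_left' (hle' i)) hϖ1
          · rw [map_mul, map_mul, hφ']
            exact lt_of_le_of_lt (mul_le_of_le_one_left' (hle' c)) hp1
        rw [map_one, map_one] at h2
        exact lt_irrefl _ h2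
      · have h2 : w (φ' s) = 1 := by
          refine le_antisymm (hle' s) (not_lt.1 fun h3 => hs ?_)
          obtain ⟨x, y, hy, hxy⟩ := hfrac s
          rw [hval s x y hy hxy] at h3
          obtain ⟨c, d, hcd⟩ := hp x h3
          have h4 : algebraMap S R y * s ∈ span {algebraMap S R ϖ} ⊔ span {algebraMap S R p} := by
            have h5 : algebraMap S R y * s =
                algebraMap S R d * algebraMap S R ϖ + algebraMap S R c * algebraMap S R p := by
              rw [mul_comm, hxy, hcd, map_add, map_mul, map_mul, add_comm]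
            rw [h5]
            exact Submodule.add_mem_sup (mul_mem_left _ _ (mem_span_singleton_self _))
              (mul_mem_left _ _ (mem_span_singleton_self _))
          exact (Ideal.unit_mul_mem_iff_mem _ (hunitS y hy)).1 h4
        have h3 := J.eq_top_of_isUnit_mem hJ (hunit' s h2)
        rw [h3]; trivial
    rw [len_eq_one h1]
    exact ENat.one_ne_top
  have hreg : ∀ s, s * algebraMap S R ϖ ∈ span {algebraMap S R P} →
      s ∈ span {algebraMap S R P} := by
    intro s hs
    obtain ⟨r, hr⟩ := mem_span_singleton'.1 hs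
    obtain ⟨x, y, hy, hxy⟩ := hfrac s
    obtain ⟨x', y', hy', hxy'⟩ := hfrac r
    have h1 : x * ϖ * y' = x' * P * y := by
      apply hinj
      simp only [map_mul]
      rw [← hxy, ← hxy']
      linear_combination (-algebraMap S R y * algebraMap S R y') * hr
    have h2 : ϖ ∣ x' * P * y := ⟨x * y', by rw [← h1]; ring⟩
    have h3 : ϖ ∣ x' := by
      rcases hϖ.dvd_or_dvd h2 with h3 | h3
      · rcases hϖ.dvd_or_dvd h3 with h4 | h4
        · exact h4
        · exact absurd h4 hP
      · exfalso
        obtain ⟨z, rfl⟩ := h3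
        rw [map_mul, map_mul] at hy
        have h4 : w (φ ϖ) * w (φ z) < 1 :=
          lt_of_le_of_lt (mul_le_of_le_one_right' (hle z)) hϖ1
        rw [hy] at h4
        exact lt_irrefl _ h4
    obtain ⟨x'', rfl⟩ := h3
    have h4 : x * y' = x'' * P * y := by
      apply mul_left_cancel₀ hϖ.ne_zero
      linear_combination h1
    have h5 : (algebraMap S R y * algebraMap S R y') * s ∈ span {algebraMap S R P} := by
      have h6 : (algebraMap S R y * algebraMap S R y') * s =
          (algebraMap S R x'' * algebraMap S R y) * algebraMap S R P := by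
        have h7 := congrArg (algebraMap S R) h4
        simp only [map_mul] at h7
        rw [← hxy] at h7
        linear_combination h7
      rw [h6]
      exact mul_mem_left _ _ (mem_span_singleton_self _)
    exact (Ideal.unit_mul_mem_iff_mem _ ((hunitS y hy).mul (hunitS y' hy'))).1 h5
  obtain ⟨e, q, t, hq, hPq⟩ := hfac
  refine dvd_local w φ' (algebraMap S R F) (algebraMap S R h) ?_ ?_ hle' hunit' hmem'
    (algebraMap S R ϖ) (algebraMap S R p) hmax l N e k n hl (algebraMap S R P) (algebraMap S R B)
    (algebraMap S R g) (algebraMap S R q) (algebraMap S R t) (algebraMap S R T)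
    (algebraMap S R a) (algebraMap S R b) (hunitS g hg) (hunitS q hq) ?_ hreg ?_ ?_ ?_
  · rw [hφ', hF]
  · rw [hφ', hh]
  · have := congrArg (algebraMap S R) hrel
    simpa only [map_mul, map_sub, map_pow] using this
  · have := congrArg (algebraMap S R) hcop
    simpa only [map_mul, map_add, map_pow] using this
  · have := congrArg (algebraMap S R) hPq
    simpa only [map_mul, map_add, map_pow] using this
  · rw [hφ', hn]

end

end Pool.Agent.H80.CC
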