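import Pool.Agent.H80.CC.LocAt
import Pool.Agent.H94.TC.Local

/-!
The local lemma over `K_v` for `c z ^ l = f(x)`, `c` a unit at `v`, `l` any positive integer.
-/

namespace Pool.Agent.H80.CC

open Polynomial WithZero IsDedekindDomain HeightOneSpectrum

section

variable {O M : Type*} [CommRing O] [Field M]

theorem exists_resid (w : Valuation M ℤᵐ⁰) (φ : O[X] →+* M) {k : Type*} [Field k] (ρ : O →+* k)
    (hsurj : Function.Surjective ρ) (ϖ : O) (hker : ∀ x, ρ x = 0 ↔ ϖ ∣ x)
    (hle : ∀ P, w (φ P) ≤ 1) (hϖ1 : w (φ (C ϖ)) < 1) :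
    ∃ p : O[X], w (φ p) < 1 ∧ (∀ s, w (φ s) < 1 → ∃ a b, s = a * p + b * C ϖ) ∧
      ∀ P, ¬ C ϖ ∣ P → ∃ (m : ℕ) (q t : O[X]), w (φ q) = 1 ∧ P = p ^ m * q + C ϖ * t := by
  classical
  have hred : ∀ R : O[X], C ϖ ∣ R ↔ R.map ρ = 0 := H94.TC.C_dvd_iff_map_eq_zero ρ ϖ hker
  have hsurj' : Function.Surjective (Polynomial.map ρ) := Polynomial.map_surjective ρ hsurj
  have hmem : ∀ R S : O[X], R.map ρ = S.map ρ → w (φ R) < 1 → w (φ S) < 1 := by
    intro R S h hR
    have h1 : C ϖ ∣ S - R := by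
      rw [hred, Polynomial.map_sub, h, sub_self]
    obtain ⟨T, hT⟩ := h1
    have h2 : S = R + C ϖ * T := by rw [← hT]; ring
    rw [h2, map_add]
    refine lt_of_le_of_lt (w.map_add _ _) (max_lt hR ?_)
    rw [map_mul, map_mul]
    exact lt_of_le_of_lt (mul_le_of_le_one_right' (hle T)) hϖ1
  let I : Ideal k[X] :=
    { carrier := {r | ∀ R : O[X], R.map ρ = r → w (φ R) < 1}
      zero_mem' := by
        intro R hR
        rw [← hred] at hR
        obtain ⟨T, rfl⟩ := hR
        rw [map_mul, map_mul]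
        exact lt_of_le_of_lt (mul_le_of_le_one_right' (hle T)) hϖ1
      add_mem' := by
        intro a b ha hb R hR
        obtain ⟨A, rfl⟩ := hsurj' a
        have h1 : (R - A).map ρ = b := by
          rw [Polynomial.map_sub, hR]; ring
        have h2 : R = A + (R - A) := by ring
        rw [h2, map_add]
        exact lt_of_le_of_lt (w.map_add _ _) (max_lt (ha A rfl) (hb _ h1))
      smul_mem' := by
        intro c a ha R hR
        obtain ⟨S, rfl⟩ := hsurj' c
        obtain ⟨A, rfl⟩ := hsurj' a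
        refine hmem (S * A) R (by rw [hR, Polynomial.map_mul, smul_eq_mul]) ?_
        rw [map_mul, map_mul]
        exact lt_of_le_of_lt (mul_le_of_le_one_left' (hle S)) (ha A rfl) }
  have hI : ∀ R : O[X], R.map ρ ∈ I ↔ w (φ R) < 1 := by
    intro R
    constructor
    · intro h
      exact h R rfl
    · intro h S hS
      exact hmem R S hS.symm h
  have hIne : (1 : k[X]) ∉ I := by
    intro h
    have := h 1 (by simp)
    simp at this
  obtain ⟨G, hG⟩ : ∃ G : k[X], I = Ideal.span {G} := (IsPrincipalIdealRing.principal I).principal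
  have hGu : ¬ IsUnit G := by
    intro h
    apply hIne
    rw [hG, Ideal.span_singleton_eq_top.2 h]
    trivial
  obtain ⟨p, rfl⟩ := hsurj' G
  refine ⟨p, ?_, ?_, ?_⟩
  · rw [← hI, hG]; exact Ideal.mem_span_singleton_self _
  · intro s hs
    rw [← hI, hG, Ideal.mem_span_singleton] at hs
    obtain ⟨a', ha'⟩ := hs
    obtain ⟨a, rfl⟩ := hsurj' a'
    have h1 : C ϖ ∣ s - a * p := by
      rw [hred, Polynomial.map_sub, Polynomial.map_mul, ha']; ring
    obtain ⟨b, hb⟩ := h1
    exact ⟨a, b, by linear_combination hb⟩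
  · intro P hP
    rw [hred] at hP
    obtain ⟨q', hq1, hq2⟩ :=
      (FiniteMultiplicity.of_not_isUnit hGu hP).exists_eq_pow_mul_and_not_dvd
    obtain ⟨q, rfl⟩ := hsurj' q'
    generalize multiplicity (p.map ρ) (P.map ρ) = m at hq1
    have h1 : C ϖ ∣ P - p ^ m * q := by
      rw [hred, Polynomial.map_sub, Polynomial.map_mul, Polynomial.map_pow, hq1, sub_self]
    obtain ⟨t, ht⟩ := h1
    refine ⟨m, q, t, ?_, by linear_combination ht⟩
    refine le_antisymm (hle q) (not_lt.1 fun h => hq2 ?_)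
    rw [← hI, hG, Ideal.mem_span_singleton] at h
    exact h

end

section

variable {B : Type*} [CommRing B] [IsDedekindDomain B]

theorem exists_unif_mul (w : HeightOneSpectrum B) (π : B)
    (hπ : w.intValuation π = exp (-1 : ℤ)) (b : B) (hb : b ∈ w.asIdeal) :
    ∃ u c : B, u ∉ w.asIdeal ∧ u * b = c * π := by
  have h1 : w.asIdeal ∣ Ideal.span {π} := by
    have h2 : w.intValuation π ≤ exp (-((1 : ℕ) : ℤ)) := by rw [hπ]; simp
    have h3 := (w.intValuation_le_pow_iff_dvd π 1).1 h2
    rwa [pow_one] at h3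
  obtain ⟨J, hJ⟩ := h1
  have h2 : ¬ J ≤ w.asIdeal := by
    intro h
    have h3 : w.asIdeal ∣ J := Ideal.dvd_iff_le.2 h
    have h4 : w.asIdeal ^ 2 ∣ Ideal.span {π} := by
      rw [hJ, sq]; exact mul_dvd_mul_left _ h3
    have h5 := (w.intValuation_le_pow_iff_dvd π 2).2 h4
    rw [hπ, exp_le_exp] at h5
    norm_num at h5
  obtain ⟨u, huJ, hu⟩ := Set.not_subset.1 h2
  have h3 : u * b ∈ Ideal.span {π} := by
    rw [hJ, mul_comm w.asIdeal J]
    exact Ideal.mul_mem_mul huJ hb
  obtain ⟨c, hc⟩ := Ideal.mem_span_singleton'.1 h3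
  exact ⟨u, c, hu, hc.symm⟩

end

section

variable {A K L : Type*} [CommRing A] [IsDedekindDomain A] [Field K] [Algebra A K]
  [IsFractionRing A K] {f : A[X]} [IsDedekindDomain (AdjoinRoot f)]
  [Module.IsTorsionFree A (AdjoinRoot f)]
  [Field L] [Algebra K L] [Algebra A L] [IsScalarTower A K L]
  [Algebra (AdjoinRoot f) L] [IsFractionRing (AdjoinRoot f) L] [IsScalarTower A (AdjoinRoot f) L]
  (v : HeightOneSpectrum A) (w : HeightOneSpectrum (AdjoinRoot f))
  [w.asIdeal.LiesOver v.asIdeal]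
  (ϖ : A)

open H94.TC

/-- The local lemma, integral version. -/
theorem local_int_pow (hϖ : ϖ ≠ 0) (hv : v.asIdeal = Ideal.span {ϖ})
    (l : ℕ) (hl : l ≠ 0) (N k : ℕ) (c : v.adicCompletionIntegers K) (hc : IsUnit c)
    (P Q R a b : (v.adicCompletionIntegers K)[X])
    (hP0 : phiInt K L v w P ≠ 0)
    (hP : ¬ C (algebraMap A (v.adicCompletionIntegers K) ϖ) ∣ P)
    (h : P * R = Q ^ l - (C (algebraMap A (v.adicCompletionIntegers K) ϖ)) ^ (l * N) *
      (C c * f.map (algebraMap A (v.adicCompletionIntegers K))))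
    (hcop : a * P + b * f.map (algebraMap A (v.adicCompletionIntegers K)) =
      (C (algebraMap A (v.adicCompletionIntegers K) ϖ)) ^ k) :
    ∃ s : ℤᵐ⁰, (Valued.v (phiInt K L v w P) : ℤᵐ⁰) = s ^ l := by
  classical
  have he : v.asIdeal.ramificationIdx' w.asIdeal ≠ 0 :=
    Ideal.IsDedekindDomain.ramificationIdx'_ne_zero_of_liesOver w.asIdeal v.ne_bot
  have hpv : (Valued.v (phiInt K L v w (C (algebraMap A (v.adicCompletionIntegers K) ϖ))) :
      ℤᵐ⁰) < 1 := by
    rw [valued_phiInt_C v w ϖ hϖ hv]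
    refine pow_lt_one₀ (zero_le) ?_ he
    rw [← exp_zero, exp_lt_exp]; norm_num
  set φ := phiInt K L v w with hφ
  set p0 := algebraMap A (v.adicCompletionIntegers K) ϖ with hp0
  set F := f.map (algebraMap A (v.adicCompletionIntegers K)) with hFdef
  have hle := valued_phiInt_le_one (K := K) (L := L) v w
  have hF : φ F = 0 := by
    rw [hφ, hFdef, phiInt_map, AdjoinRoot.mk_self, map_zero, map_zero]
  obtain ⟨p, hp1, hp2, hp3⟩ := exists_resid Valued.v φ
      (IsLocalRing.residue (v.adicCompletionIntegers K)) IsLocalRing.residue_surjective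
      p0 (residue_eq_zero_iff (K := K) v ϖ hϖ hv) hle hpv
  -- a uniformiser
  obtain ⟨π, hπ⟩ := w.intValuation_exists_uniformizer
  obtain ⟨h0, rfl⟩ := AdjoinRoot.mk_surjective π
  set hh := h0.map (algebraMap A (v.adicCompletionIntegers K)) with hhdef
  have hval : ∀ s : A[X], (Valued.v (φ (s.map (algebraMap A (v.adicCompletionIntegers K)))) :
      ℤᵐ⁰) = w.intValuation (AdjoinRoot.mk f s) := by
    intro s
    rw [hφ, phiInt_map, valued_algebraMap]
    exact w.valuation_of_algebraMap (K := L) _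
  have hvalh : (Valued.v (φ hh) : ℤᵐ⁰) = exp (-1 : ℤ) := by rw [hhdef, hval, hπ]
  have hone : ∀ u : A[X], AdjoinRoot.mk f u ∉ w.asIdeal →
      (Valued.v (φ (u.map (algebraMap A (v.adicCompletionIntegers K)))) : ℤᵐ⁰) = 1 := by
    intro u hu
    rw [hval]
    exact (intValuation_eq_one_iff).2 hu
  -- elements of `A[x]`
  have hglob : ∀ s : A[X], AdjoinRoot.mk f s ∈ w.asIdeal →
      ∃ u a' b' : (v.adicCompletionIntegers K)[X], (Valued.v (φ u) : ℤᵐ⁰) = 1 ∧
        u * s.map (algebraMap A (v.adicCompletionIntegers K)) = a' * F + b' * hh := by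
    intro s hs
    obtain ⟨u', c', hu', hc'⟩ := exists_unif_mul w _ hπ _ hs
    obtain ⟨u, rfl⟩ := AdjoinRoot.mk_surjective u'
    obtain ⟨c, rfl⟩ := AdjoinRoot.mk_surjective c'
    rw [← map_mul, ← map_mul, AdjoinRoot.mk_eq_mk] at hc'
    obtain ⟨e, hfe⟩ := hc'
    refine ⟨u.map (algebraMap A (v.adicCompletionIntegers K)),
      e.map (algebraMap A (v.adicCompletionIntegers K)),
      c.map (algebraMap A (v.adicCompletionIntegers K)), hone u hu', ?_⟩
    rw [hFdef, hhdef, ← Polynomial.map_mul, ← Polynomial.map_mul, ← Polynomial.map_mul,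
      ← Polynomial.map_add]
    congr 1
    linear_combination hfe
  have hϖw : AdjoinRoot.mk f (C ϖ) ∈ w.asIdeal := by
    have h1 : ϖ ∈ v.asIdeal := by rw [hv]; exact Ideal.mem_span_singleton_self _
    rw [Ideal.LiesOver.over (p := v.asIdeal) (P := w.asIdeal)] at h1
    exact h1
  have hmem : ∀ s, (Valued.v (φ s) : ℤᵐ⁰) < 1 → ∃ u a b, (Valued.v (φ u) : ℤᵐ⁰) = 1 ∧
      u * s = a * F + b * hh := by
    intro s hs
    obtain ⟨s0, s1, hs1⟩ := exists_poly_approx (K := K) v ϖ hϖ hv 1 s
    rw [pow_one, ← hp0] at hs1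
    have h1 : (Valued.v (φ (C p0 * s1)) : ℤᵐ⁰) < 1 := by
      rw [map_mul, map_mul]
      exact lt_of_le_of_lt (mul_le_of_le_one_right' (hle s1)) hpv
    have h2 : (Valued.v (φ (s0.map (algebraMap A (v.adicCompletionIntegers K)))) : ℤᵐ⁰) < 1 := by
      have h3 : s0.map (algebraMap A (v.adicCompletionIntegers K)) = s - C p0 * s1 := by
        rw [← hs1]; ring
      rw [h3, map_sub]
      exact lt_of_le_of_lt (Valuation.map_sub _ _ _) (max_lt hs h1)
    have h3 : AdjoinRoot.mk f s0 ∈ w.asIdeal := by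
      rw [hval, intValuation_lt_one_iff_mem] at h2
      exact h2
    obtain ⟨u1, a1, b1, hu1, h4⟩ := hglob s0 h3
    obtain ⟨u2, a2, b2, hu2, h5⟩ := hglob (C ϖ) hϖw
    rw [Polynomial.map_C, ← hp0] at h5
    refine ⟨u1 * u2, u2 * a1 + u1 * s1 * a2, u2 * b1 + u1 * s1 * b2, ?_, ?_⟩
    · rw [map_mul, map_mul, hu1, hu2, one_mul]
    · have h6 : s = s0.map (algebraMap A (v.adicCompletionIntegers K)) + C p0 * s1 := by
        rw [← hs1]; ring
      rw [h6]
      linear_combination u2 * h4 + u1 * s1 * h5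
  -- the valuation of `P`
  have hP1 := hle P
  have hPv : (Valued.v (φ P) : ℤᵐ⁰) ≠ 0 := (Valuation.ne_zero_iff _).2 hP0
  obtain ⟨n, hn⟩ : ∃ n : ℕ, (Valued.v (φ P) : ℤᵐ⁰) = exp (-(n : ℤ)) := by
    refine ⟨(-log (Valued.v (φ P) : ℤᵐ⁰)).toNat, ?_⟩
    have h1 : log (Valued.v (φ P) : ℤᵐ⁰) ≤ 0 := by
      rw [← exp_log hPv, ← exp_zero, exp_le_exp] at hP1
      exact hP1
    rw [Int.toNat_of_nonneg (by omega), neg_neg, exp_log hPv]
  have hcv : (Valued.v (φ (C c)) : ℤᵐ⁰) = 1 := by
    obtain ⟨d, hd⟩ := hc.exists_right_inv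
    have h1 : (Valued.v (φ (C c)) : ℤᵐ⁰) * Valued.v (φ (C d)) = 1 := by
      rw [← map_mul, ← map_mul, ← C_mul, hd, C_1, map_one, map_one]
    refine le_antisymm (hle (C c)) ?_
    rw [← h1]
    exact mul_le_of_le_one_right' (hle (C d))
  have hdvd : l ∣ n := dvd_of_rel Valued.v φ hle (C p0) F hh p hF hvalh hmem
    (prime_C_varpi (K := K) v ϖ hϖ hv) hpv hp1 hp2 l N k n hl P Q (C c) R a b hcv h hP hcop
    (hp3 P hP) hn
  obtain ⟨m, rfl⟩ := hdvd
  refine ⟨exp (-(m : ℤ)), ?_⟩
  rw [hn, ← exp_nsmul]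
  congr 1
  push_cast
  simp

/-- The local lemma: the class of `w(P(θ))` modulo `l` depends only on `e_w`. -/
theorem local_main_pow (hϖ : ϖ ≠ 0) (hv : v.asIdeal = Ideal.span {ϖ})
    (l : ℕ) (hl : l ≠ 0)
    (c0 : v.adicCompletionIntegers K) (hc0 : IsUnit c0)
    (P : (v.adicCompletion K)[X]) (hP : P.Monic)
    (hcop : IsCoprime P ((f.map (algebraMap A K)).map (algebraMap K (v.adicCompletion K)))) :
    ∃ j : ℕ, ∀ (L : Type*) [Field L] [Algebra K L] [Algebra A L] [IsScalarTower A K L]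
      [Algebra (AdjoinRoot f) L] [IsFractionRing (AdjoinRoot f) L]
      [IsScalarTower A (AdjoinRoot f) L] (w : HeightOneSpectrum (AdjoinRoot f))
      [w.asIdeal.LiesOver v.asIdeal] (Q : (v.adicCompletion K)[X]),
      P ∣ Q ^ l - C (c0 : v.adicCompletion K) *
        (f.map (algebraMap A K)).map (algebraMap K (v.adicCompletion K)) →
      phi K L v w P ≠ 0 →
      ∃ s : ℤᵐ⁰, (Valued.v (phi K L v w P) : ℤᵐ⁰) *
        ((exp (-1 : ℤ)) ^ (v.asIdeal.ramificationIdx' w.asIdeal)) ^ j = s ^ l := by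
  classical
  obtain ⟨n0, hn0⟩ := exists_clear (K := K) v ϖ hϖ hv P
  have hex : ∃ j : ℕ, ∃ P' : (v.adicCompletionIntegers K)[X],
      P'.map (algebraMap (v.adicCompletionIntegers K) (v.adicCompletion K)) =
      C ((algebraMap A (v.adicCompletionIntegers K) ϖ : v.adicCompletionIntegers K) :
        v.adicCompletion K) ^ j * P := ⟨n0, hn0 n0 le_rfl⟩
  refine ⟨Nat.find hex, ?_⟩
  intro L _ _ _ _ _ _ _ w _ Q hPQ hphi
  obtain ⟨P', hP'⟩ := Nat.find_spec hex
  set j := Nat.find hex with hj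
  have hinj : Function.Injective (Polynomial.map
      (algebraMap (v.adicCompletionIntegers K) (v.adicCompletion K))) :=
    Polynomial.map_injective _ (FaithfulSMul.algebraMap_injective _ _)
  have hp0 : ((algebraMap A (v.adicCompletionIntegers K) ϖ : v.adicCompletionIntegers K) :
        v.adicCompletion K) ≠ 0 := by
    intro h0
    have h2 := val_varpi (K := K) v ϖ hϖ hv
    rw [h0, map_zero] at h2
    exact exp_ne_zero h2.symm
  have hCp : (C (algebraMap A (v.adicCompletionIntegers K) ϖ)).map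
      (algebraMap (v.adicCompletionIntegers K) (v.adicCompletion K)) =
      C ((algebraMap A (v.adicCompletionIntegers K) ϖ : v.adicCompletionIntegers K) :
        v.adicCompletion K) := by
    rw [Polynomial.map_C]; rfl
  -- `P'` is not divisible by `ϖ`
  have hnd : ¬ C (algebraMap A (v.adicCompletionIntegers K) ϖ) ∣ P' := by
    rintro ⟨P1, hP1⟩
    have hP1' : C ((algebraMap A (v.adicCompletionIntegers K) ϖ : v.adicCompletionIntegers K) :
        v.adicCompletion K) * P1.map (algebraMap (v.adicCompletionIntegers K) (v.adicCompletion K))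
        = C ((algebraMap A (v.adicCompletionIntegers K) ϖ : v.adicCompletionIntegers K) :
        v.adicCompletion K) ^ j * P := by
      rw [← hP', hP1, Polynomial.map_mul, hCp]
    rcases Nat.eq_zero_or_pos j with hj0 | hj0
    · -- `P` monic
      rw [hj0, pow_zero, one_mul] at hP1'
      have h1 := congrArg (fun p => p.coeff P.natDegree) hP1'
      simp only [coeff_C_mul, coeff_natDegree, hP.leadingCoeff, coeff_map] at h1
      have h2 : (algebraMap A (v.adicCompletionIntegers K) ϖ) * P1.coeff P.natDegree = 1 := by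
        apply Subtype.ext
        push_cast
        exact h1
      have h3 : IsUnit (algebraMap A (v.adicCompletionIntegers K) ϖ) :=
        IsUnit.of_mul_eq_one _ h2
      rw [adicCompletionIntegers.isUnit_iff_valued_eq_one, val_varpi (K := K) v ϖ hϖ hv] at h3
      have h4 : exp (-1 : ℤ) = exp 0 := by rw [h3, exp_zero]
      rw [exp_inj] at h4
      omega
    · have h1 : ∃ P'' : (v.adicCompletionIntegers K)[X],
        P''.map (algebraMap (v.adicCompletionIntegers K) (v.adicCompletion K)) =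
        C ((algebraMap A (v.adicCompletionIntegers K) ϖ : v.adicCompletionIntegers K) :
          v.adicCompletion K) ^ (j - 1) * P := by
        refine ⟨P1, ?_⟩
        have h5 : (C ((algebraMap A (v.adicCompletionIntegers K) ϖ : v.adicCompletionIntegers K) :
          v.adicCompletion K) : (v.adicCompletion K)[X]) ≠ 0 := by rwa [Ne, C_eq_zero]
        apply mul_left_cancel₀ h5
        rw [hP1', ← mul_assoc, ← pow_succ']
        congr 2; omega
      have h2 := Nat.find_min' hex h1
      omega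
  obtain ⟨R, hR⟩ := hPQ
  obtain ⟨a, b, hab⟩ := hcop
  obtain ⟨n1, hn1⟩ := exists_clear (K := K) v ϖ hϖ hv Q
  obtain ⟨n2, hn2⟩ := exists_clear (K := K) v ϖ hϖ hv R
  obtain ⟨n3, hn3⟩ := exists_clear (K := K) v ϖ hϖ hv a
  obtain ⟨n4, hn4⟩ := exists_clear (K := K) v ϖ hϖ hv b
  set N := n1 + n2 + j with hN
  set k := n3 + n4 + j with hk
  have hlN : N ≤ l * N := Nat.le_mul_of_pos_left _ (Nat.pos_of_ne_zero hl)
  obtain ⟨Q', hQ'⟩ := hn1 N (by omega)
  obtain ⟨R', hR'⟩ := hn2 (l * N - j) (by omega)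
  obtain ⟨a', ha'⟩ := hn3 (k - j) (by omega)
  obtain ⟨b', hb'⟩ := hn4 k (by omega)
  have hfmap : f.map ((algebraMap (v.adicCompletionIntegers K) (v.adicCompletion K)).comp
      (algebraMap A (v.adicCompletionIntegers K))) =
      (f.map (algebraMap A K)).map (algebraMap K (v.adicCompletion K)) := by
    rw [Polynomial.map_map]
    rfl
  have hmain : P' * R' = Q' ^ l - (C (algebraMap A (v.adicCompletionIntegers K) ϖ)) ^ (l * N) *
      (C c0 * f.map (algebraMap A (v.adicCompletionIntegers K))) := by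
    apply hinj
    simp only [Polynomial.map_sub, Polynomial.map_mul, Polynomial.map_pow]
    rw [hP', hR', hQ', hCp, Polynomial.map_map, hfmap, Polynomial.map_C]
    have h0 : algebraMap (v.adicCompletionIntegers K) (v.adicCompletion K) c0 =
      (c0 : v.adicCompletion K) := rfl
    rw [h0]
    set c := C ((algebraMap A (v.adicCompletionIntegers K) ϖ : v.adicCompletionIntegers K) :
        v.adicCompletion K)
    set F := (f.map (algebraMap A K)).map (algebraMap K (v.adicCompletion K))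
    have h2 : c ^ j * P * (c ^ (l * N - j) * R) = c ^ (l * N) * (P * R) := by
      have : c ^ (l * N) = c ^ j * c ^ (l * N - j) := by
        rw [← pow_add]; congr 1; omega
      rw [this]; ring
    rw [h2, ← hR, mul_pow, ← pow_mul, mul_comm N l]
    ring
  have hcop' : a' * P' + b' * f.map (algebraMap A (v.adicCompletionIntegers K)) =
      (C (algebraMap A (v.adicCompletionIntegers K) ϖ)) ^ k := by
    apply hinj
    simp only [Polynomial.map_add, Polynomial.map_mul, Polynomial.map_pow]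
    rw [hP', ha', hb', hCp, Polynomial.map_map, hfmap]
    set c := C ((algebraMap A (v.adicCompletionIntegers K) ϖ : v.adicCompletionIntegers K) :
        v.adicCompletion K)
    set F := (f.map (algebraMap A K)).map (algebraMap K (v.adicCompletion K))
    have h2 : c ^ (k - j) * a * (c ^ j * P) = c ^ k * (a * P) := by
      have : c ^ k = c ^ (k - j) * c ^ j := by
        rw [← pow_add]; congr 1; omega
      rw [this]; ring
    rw [h2]
    linear_combination c ^ k * hab
  have hphi' : phiInt K L v w P' = phi K L v w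
      (C ((algebraMap A (v.adicCompletionIntegers K) ϖ : v.adicCompletionIntegers K) :
        v.adicCompletion K)) ^ j * phi K L v w P := by
    rw [phiInt, RingHom.coe_comp, Function.comp, coe_mapRingHom, hP', map_mul, map_pow]
  have hphiC : (Valued.v (phi K L v w
      (C ((algebraMap A (v.adicCompletionIntegers K) ϖ : v.adicCompletionIntegers K) :
        v.adicCompletion K))) : ℤᵐ⁰) =
      (exp (-1 : ℤ)) ^ (v.asIdeal.ramificationIdx' w.asIdeal) := by
    rw [phi, coe_eval₂RingHom, eval₂_C, valued_compMap]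
    congr 1
    exact val_varpi (K := K) v ϖ hϖ hv
  have hne : phiInt K L v w P' ≠ 0 := by
    rw [hphi']
    refine mul_ne_zero (pow_ne_zero _ ?_) hphi
    intro h0
    rw [h0, map_zero] at hphiC
    exact (pow_ne_zero _ exp_ne_zero) hphiC.symm
  obtain ⟨s, hs⟩ := local_int_pow v w ϖ hϖ hv l hl N k c0 hc0 P' Q' R' a' b' hne hnd hmain
    hcop'
  refine ⟨s, ?_⟩
  rw [← hs, hphi', map_mul, map_pow, hphiC, mul_comm]

end

end Pool.Agent.H80.CC
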