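import Pool.Agent.H80.CC.LocV
import Pool.Agent.H94.TL.Glob
import Pool.Agent.H94.TC.Frac

/-!
The values of the descent map of `D z ^ n = f(x)` at a prime `v` not dividing `D`.
-/

namespace Pool.Agent.H80.CC

open Polynomial WithZero IsDedekindDomain HeightOneSpectrum H94.TC

section

variable {A K : Type*} [CommRing A] [IsDomain A] [IsPrincipalIdealRing A] [Field K] [Algebra A K]
  [IsFractionRing A K]

variable {L : Type*} {f : A[X]} [IsDedekindDomain (AdjoinRoot f)]
  [Module.IsTorsionFree A (AdjoinRoot f)]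
  [Field L] [Algebra K L] [Algebra A L] [IsScalarTower A K L]
  [Algebra (AdjoinRoot f) L] [IsFractionRing (AdjoinRoot f) L] [IsScalarTower A (AdjoinRoot f) L]

theorem local_val {n : ℕ} (a : ℕ) (hn0 : n ≠ 0) (v : HeightOneSpectrum A) (D : A)
    (hD : D ∉ v.asIdeal) (Δ : K[X]) (b : A[X])
    (hb : ∀ w : HeightOneSpectrum (AdjoinRoot f), w.asIdeal.LiesOver v.asIdeal →
      AdjoinRoot.mk f b ∉ w.asIdeal)
    (r : ℕ) (m : Fin r → ℕ) (P Q : Fin r → (v.adicCompletion K)[X])
    (G : (v.adicCompletion K)[X])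
    (hm : ∀ i, m i ∣ n) (hP : ∀ i, (P i).Monic)
    (hcop : ∀ i, IsCoprime (P i)
      ((f.map (algebraMap A K)).map (algebraMap K (v.adicCompletion K))))
    (hPQ : ∀ i, P i ∣ C (algebraMap K (v.adicCompletion K) (algebraMap A K D)) * Q i ^ m i -
      (f.map (algebraMap A K)).map (algebraMap K (v.adicCompletion K)))
    (hG : (f.map (algebraMap A K)).map (algebraMap K (v.adicCompletion K)) ∣
      (Δ * b.map (algebraMap A K)).map (algebraMap K (v.adicCompletion K)) * G ^ n -
        ∏ i, ((C (-(algebraMap K (v.adicCompletion K) (algebraMap A K D)) ^ a)) ^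
          (P i).natDegree * P i) ^ (n / m i)) :
    ∃ j : ℕ, ∀ (w : HeightOneSpectrum (AdjoinRoot f)), w.asIdeal.LiesOver v.asIdeal → ∃ s : ℤᵐ⁰,
      w.valuation L (aeval (algebraMap (AdjoinRoot f) L (AdjoinRoot.root f)) Δ) *
        ((exp (-1 : ℤ)) ^ (v.asIdeal.ramificationIdx' w.asIdeal)) ^ j = s ^ n := by
  classical
  obtain ⟨ϖ, hϖ, hv⟩ := H94.TL.exists_gen v
  -- the unit `D`
  set D0 : v.adicCompletionIntegers K := algebraMap A (v.adicCompletionIntegers K) D with hD0
  have hDvK : algebraMap K (v.adicCompletion K) (algebraMap A K D) = (D0 : v.adicCompletion K) :=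
    rfl
  rw [hDvK] at hG
  simp only [hDvK] at hPQ
  have hval : (Valued.v (D0 : v.adicCompletion K) : ℤᵐ⁰) = 1 := by
    rw [hD0, val_alg]
    exact (intValuation_eq_one_iff).2 hD
  have hDunit : IsUnit D0 := by
    rw [adicCompletionIntegers.isUnit_iff_valued_eq_one]; exact hval
  set Dv : v.adicCompletion K := (D0 : v.adicCompletion K) with hDv
  set fv := (f.map (algebraMap A K)).map (algebraMap K (v.adicCompletion K)) with hfv
  have hm0 : ∀ i, m i ≠ 0 := fun i h0 => hn0 (by have := hm i; rw [h0] at this; exact zero_dvd_iff.1 this)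
  have hex := fun i => local_main_pow (f := f) v ϖ hϖ hv (m i) (hm0 i) (D0 ^ (m i - 1))
    (hDunit.pow _) (P i) (hP i) (hcop i)
  choose J hJ using hex
  refine ⟨∑ i, J i * (n / m i), fun w hw => ?_⟩
  have hfv0 : phi K L v w fv = 0 := by
    rw [hfv, phi_map, aeval_map_algebraMap, aeval_algebraMap_apply, AdjoinRoot.aeval_eq,
      AdjoinRoot.mk_self, map_zero, map_zero]
  have hvalC : (Valued.v (phi K L v w (C (-Dv ^ a))) : ℤᵐ⁰) = 1 := by
    rw [C_neg, C_pow, map_neg, map_pow, Valuation.map_neg, map_pow, phi, coe_eval₂RingHom, eval₂_C,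
      valued_compMap, hval, one_pow, one_pow]
  have hphi : ∀ i, phi K L v w (P i) ≠ 0 := by
    intro i h0
    obtain ⟨a, b, hab⟩ := hcop i
    have := congrArg (phi K L v w) hab
    rw [map_add, map_mul, map_mul, h0, hfv0, mul_zero, mul_zero, add_zero, map_one] at this
    exact zero_ne_one this
  have hdvd : ∀ i, P i ∣ (C Dv * Q i) ^ (m i) -
      C ((D0 ^ (m i - 1) : v.adicCompletionIntegers K) : v.adicCompletion K) * fv := by
    intro i
    have h0 : ((D0 ^ (m i - 1) : v.adicCompletionIntegers K) : v.adicCompletion K) =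
      Dv ^ (m i - 1) := rfl
    have h1 : (C Dv * Q i) ^ (m i) -
      C ((D0 ^ (m i - 1) : v.adicCompletionIntegers K) : v.adicCompletion K) * fv =
        (C Dv) ^ (m i - 1) * (C Dv * Q i ^ (m i) - fv) := by
      have h2 : (C Dv : (v.adicCompletion K)[X]) ^ (m i) = C Dv ^ (m i - 1) * C Dv := by
        rw [← pow_succ]; congr 1; have := hm0 i; omega
      rw [h0, C_pow, mul_pow, h2]
      ring
    rw [h1]
    exact (hPQ i).mul_left _
  have h1 := fun i => hJ i L w (C Dv * Q i) (hdvd i) (hphi i)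
  choose s hs using h1
  -- the value at `w`
  obtain ⟨R, hR⟩ := hG
  have h2 := congrArg (phi K L v w) hR
  rw [map_sub, map_mul, map_mul, hfv0, zero_mul, sub_eq_zero, phi_map] at h2
  have h3 := congrArg (fun x => (Valued.v x : ℤᵐ⁰)) h2
  simp only [map_mul, map_pow, map_prod] at h3
  have hbval : (Valued.v (algebraMap L (w.adicCompletion L)
      (aeval (algebraMap (AdjoinRoot f) L (AdjoinRoot.root f)) (b.map (algebraMap A K)))) : ℤᵐ⁰) =
      1 := by
    rw [aeval_map_algebraMap, aeval_algebraMap_apply, AdjoinRoot.aeval_eq, valued_algebraMap,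
      valuation_of_algebraMap]
    exact intValuation_eq_one_iff.2 (hb w hw)
  rw [hbval, mul_one, valued_algebraMap] at h3
  simp only [hvalC, one_pow, one_mul] at h3
  have hG0 : (Valued.v (phi K L v w G) : ℤᵐ⁰) ≠ 0 := by
    intro h0
    rw [h0, zero_pow hn0, mul_zero] at h3
    have h4 := Finset.prod_ne_zero_iff.2 (fun i (_ : i ∈ Finset.univ) =>
      pow_ne_zero (n / m i) ((Valuation.ne_zero_iff (Valued.v) (K := w.adicCompletion L)).2 (hphi i)))
    exact h4 h3.symm
  refine ⟨(∏ i, s i) / Valued.v (phi K L v w G), ?_⟩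
  have h5 : ∀ i, (s i) ^ n = (Valued.v (phi K L v w (P i)) : ℤᵐ⁰) ^ (n / m i) *
      ((exp (-1 : ℤ)) ^ (v.asIdeal.ramificationIdx' w.asIdeal)) ^ (J i * (n / m i)) := by
    intro i
    conv_lhs => rw [← Nat.mul_div_cancel' (hm i), pow_mul, ← hs i, mul_pow, ← pow_mul]
  rw [div_pow, eq_div_iff (pow_ne_zero _ hG0), ← Finset.prod_pow]
  simp only [h5]
  rw [Finset.prod_mul_distrib, ← h3, Finset.prod_pow_eq_pow_sum]
  exact mul_right_comm _ _ _

end

end Pool.Agent.H80.CC
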