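import Mathlib

/-!
The change of variables `x ↦ l x + m`.
-/

namespace Pool.Agent.H80.CC

open Polynomial

section

variable {k : Type*} [Field k]

theorem comp_lin_lin (P : k[X]) (l m : k) (hl : l ≠ 0) :
    (P.comp (C l * X + C m)).comp (C l⁻¹ * X + C (-(l⁻¹ * m))) = P := by
  rw [comp_assoc]
  have h1 : (C l * X + C m : k[X]).comp (C l⁻¹ * X + C (-(l⁻¹ * m))) = X := by
    simp only [add_comp, mul_comp, C_comp, X_comp, mul_add]
    rw [← mul_assoc, ← C_mul, ← C_mul, mul_inv_cancel₀ hl, C_1, one_mul, add_assoc, ← C_add]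
    have h2 : l * -(l⁻¹ * m) + m = 0 := by field_simp; ring
    rw [h2, C_0, add_zero]
  rw [h1, comp_X]

theorem comp_lin_lin' (P : k[X]) (l m : k) (hl : l ≠ 0) :
    (P.comp (C l⁻¹ * X + C (-(l⁻¹ * m)))).comp (C l * X + C m) = P := by
  have h1 := comp_lin_lin P l⁻¹ (-(l⁻¹ * m)) (inv_ne_zero hl)
  rw [inv_inv] at h1
  have h2 : -(l * -(l⁻¹ * m)) = m := by field_simp
  rwa [h2] at h1

variable (f g : k[X]) (l m : k) (N : ℕ)

/-- the map `k[x]/(f) → k[x]/(g)`, `x ↦ l x + m` -/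
noncomputable def scaleHom (h : C (l ^ N) * g = f.comp (C l * X + C m)) :
    AdjoinRoot f →ₐ[k] AdjoinRoot g :=
  AdjoinRoot.liftAlgHom f (Algebra.ofId k (AdjoinRoot g)) (AdjoinRoot.mk g (C l * X + C m)) (by
    have h1 : ∀ P : k[X], eval₂ ((Algebra.ofId k (AdjoinRoot g) : k →+* AdjoinRoot g))
        (AdjoinRoot.mk g (C l * X + C m)) P = AdjoinRoot.mk g (P.comp (C l * X + C m)) := by
      intro P
      rw [comp, hom_eval₂]
      rfl
    have h2 := h1 f
    rw [← h, map_mul, AdjoinRoot.mk_self, mul_zero] at h2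
    exact h2)

theorem scaleHom_mk (h : C (l ^ N) * g = f.comp (C l * X + C m)) (P : k[X]) :
    scaleHom f g l m N h (AdjoinRoot.mk f P) = AdjoinRoot.mk g (P.comp (C l * X + C m)) := by
  have h1 : scaleHom f g l m N h (AdjoinRoot.mk f P) =
      eval₂ ((Algebra.ofId k (AdjoinRoot g) : k →+* AdjoinRoot g))
        (AdjoinRoot.mk g (C l * X + C m)) P := rfl
  rw [h1, comp, hom_eval₂]
  rfl

theorem scale_symm (hl : l ≠ 0) (h : C (l ^ N) * g = f.comp (C l * X + C m)) :
    C (l⁻¹ ^ N) * f = g.comp (C l⁻¹ * X + C (-(l⁻¹ * m))) := by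
  have h1 := congrArg (fun P => P.comp (C l⁻¹ * X + C (-(l⁻¹ * m)))) h
  rw [comp_lin_lin f l m hl, mul_comp, C_comp] at h1
  rw [← h1, ← mul_assoc, ← C_mul, inv_pow, inv_mul_cancel₀ (pow_ne_zero N hl), C_1, one_mul]

/-- the isomorphism `k[x]/(f) ≅ k[x]/(g)`, `x ↦ l x + m` -/
noncomputable def scaleEquiv (hl : l ≠ 0) (h : C (l ^ N) * g = f.comp (C l * X + C m)) :
    AdjoinRoot f ≃ₐ[k] AdjoinRoot g :=
  AlgEquiv.ofAlgHom (scaleHom f g l m N h)
    (scaleHom g f l⁻¹ (-(l⁻¹ * m)) N (scale_symm f g l m N hl h))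
    (by
      refine AlgHom.ext fun x => ?_
      obtain ⟨P, rfl⟩ := AdjoinRoot.mk_surjective x
      rw [AlgHom.comp_apply, scaleHom_mk, scaleHom_mk, comp_lin_lin' P l m hl]
      rfl)
    (by
      refine AlgHom.ext fun x => ?_
      obtain ⟨P, rfl⟩ := AdjoinRoot.mk_surjective x
      rw [AlgHom.comp_apply, scaleHom_mk, scaleHom_mk, comp_lin_lin P l m hl]
      rfl)

theorem scaleEquiv_mk (hl : l ≠ 0) (h : C (l ^ N) * g = f.comp (C l * X + C m)) (P : k[X]) :
    scaleEquiv f g l m N hl h (AdjoinRoot.mk f P) =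
      AdjoinRoot.mk g (P.comp (C l * X + C m)) :=
  scaleHom_mk f g l m N h P

theorem natDegree_comp_lin (P : k[X]) (hl : l ≠ 0) :
    (P.comp (C l * X + C m)).natDegree = P.natDegree := by
  rw [natDegree_comp, natDegree_linear hl, mul_one]

theorem leadingCoeff_comp_lin (P : k[X]) (hl : l ≠ 0) :
    (P.comp (C l * X + C m)).leadingCoeff = P.leadingCoeff * l ^ P.natDegree := by
  rw [leadingCoeff_comp (by rw [natDegree_linear hl]; exact one_ne_zero), leadingCoeff_linear hl]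

theorem irreducible_scale (hl : l ≠ 0) (h : C (l ^ N) * g = f.comp (C l * X + C m))
    (hf : Irreducible f) : Irreducible g := by
  let _ : Invertible l := invertibleOfNonzero hl
  have h1 : Irreducible (algEquivCMulXAddC l m f) := by
    rw [MulEquiv.irreducible_iff]
    exact hf
  have h2 : algEquivCMulXAddC l m f = f.comp (C l * X + C m) := by
    rw [algEquivCMulXAddC_apply, comp, aeval_def]
    rfl
  rw [h2, ← h] at h1
  exact (irreducible_isUnit_mul (isUnit_C.2 (isUnit_iff_ne_zero.2 (pow_ne_zero N hl)))).1 h1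

end

end Pool.Agent.H80.CC
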