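import Pool.Agent.H80.CC.LocVal
import Pool.Agent.H94.TL.Glob2
import Pool.Agent.H94.TL.InertN
import Pool.Agent.H94.TL.NormD

/-!
The divisor of an element which satisfies the local conditions is an `n`-th power.
-/

namespace Pool.Agent.H80.CC

open Polynomial WithZero IsDedekindDomain HeightOneSpectrum H94.TC H94.TL

section

variable {A : Type*} (K : Type*) [CommRing A] [IsDomain A] [IsPrincipalIdealRing A] [Field K]
  [Algebra A K] [IsFractionRing A K]

/-- the map `L → L ⊗ K_v` -/
noncomputable def toAdic (f : A[X]) (v : HeightOneSpectrum A) :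
    AdjoinRoot (f.map (algebraMap A K)) →+*
      AdjoinRoot ((f.map (algebraMap A K)).map (algebraMap K (v.adicCompletion K))) :=
  AdjoinRoot.map (algebraMap K (v.adicCompletion K)) (f.map (algebraMap A K))
    ((f.map (algebraMap A K)).map (algebraMap K (v.adicCompletion K))) dvd_rfl

theorem toAdic_mk (f : A[X]) (v : HeightOneSpectrum A) (P : K[X]) :
    toAdic K f v (AdjoinRoot.mk _ P) =
      AdjoinRoot.mk _ (P.map (algebraMap K (v.adicCompletion K))) := by
  induction P using Polynomial.induction_on' with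
  | add p q hp hq => rw [map_add, map_add, hp, hq, Polynomial.map_add, map_add]
  | monomial n a =>
    rw [Polynomial.map_monomial, ← C_mul_X_pow_eq_monomial, ← C_mul_X_pow_eq_monomial]
    simp only [map_mul, map_pow, AdjoinRoot.mk_C, AdjoinRoot.mk_X]
    rw [toAdic, AdjoinRoot.map_of, AdjoinRoot.map_root]

theorem sel_ideal (f : A[X]) (hf : f.Monic) {n : ℕ} (a : ℕ) (hn0 : n ≠ 0)
    (ha : n ∣ a * f.natDegree + 1) [IsDedekindDomain (AdjoinRoot f)]
    (D : A) (hD : ∀ P : A, Prime P → P ∣ D → ∀ w w' : Ideal (AdjoinRoot f), w.IsPrime → w'.IsPrime →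
      algebraMap A (AdjoinRoot f) P ∈ w → algebraMap A (AdjoinRoot f) P ∈ w' → w = w')
    (δ : AdjoinRoot (f.map (algebraMap A K))) (hδ : δ ≠ 0)
    (hN : ∃ y : K, Algebra.norm K δ = y ^ n)
    (hloc : ∀ v : HeightOneSpectrum A, D ∉ v.asIdeal → ∃ b : AdjoinRoot f,
      (∀ w : Ideal (AdjoinRoot f), w.IsPrime →
        (∀ s ∈ v.asIdeal, algebraMap A (AdjoinRoot f) s ∈ w) → b ∉ w) ∧
      ∃ (r : ℕ) (m : Fin r → ℕ) (P Q : Fin r → (v.adicCompletion K)[X])
        (γ : AdjoinRoot ((f.map (algebraMap A K)).map (algebraMap K (v.adicCompletion K)))),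
        (∀ i, m i ∣ n ∧ (P i).Monic ∧ IsCoprime (P i)
            ((f.map (algebraMap A K)).map (algebraMap K (v.adicCompletion K))) ∧
          P i ∣ C (algebraMap K (v.adicCompletion K) (algebraMap A K D)) * Q i ^ m i -
            (f.map (algebraMap A K)).map (algebraMap K (v.adicCompletion K))) ∧
        toAdic K f v (δ * toField K f b) * γ ^ n =
          ∏ i, (AdjoinRoot.mk ((f.map (algebraMap A K)).map (algebraMap K (v.adicCompletion K)))
            (C (-(algebraMap K (v.adicCompletion K) (algebraMap A K D)) ^ a)) ^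
              (P i).natDegree *
            AdjoinRoot.mk ((f.map (algebraMap A K)).map (algebraMap K (v.adicCompletion K)))
              (P i)) ^ (n / m i)) :
    ∃ (I : Ideal (AdjoinRoot f)) (b c : AdjoinRoot f), I ≠ ⊥ ∧ c ≠ 0 ∧
      δ * toField K f c ^ n = toField K f b ∧ Ideal.span {b} = I ^ n := by
  classical
  let _ : Fact (Irreducible (f.map (algebraMap A K))) := ⟨irreducible_map K f hf⟩
  let _ := (toField K f).toAlgebra
  have : IsFractionRing (AdjoinRoot f) (AdjoinRoot (f.map (algebraMap A K))) :=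
    isFractionRing_toField K f hf
  have := torsionFree_adjoinRoot f hf
  have : Module.Finite A (AdjoinRoot f) := hf.finite_adjoinRoot
  have : Module.Free A (AdjoinRoot f) := hf.free_adjoinRoot
  have hfin : Module.finrank A (AdjoinRoot f) = f.natDegree :=
    finrank_quotient_span_eq_natDegree' hf
  have : IsScalarTower A (AdjoinRoot f) (AdjoinRoot (f.map (algebraMap A K))) := by
    refine IsScalarTower.of_algebraMap_eq fun x => ?_
    show _ = toField K f _
    have h1 : algebraMap A (AdjoinRoot f) x = AdjoinRoot.mk f (C x) := rfl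
    rw [h1, toField_mk, Polynomial.map_C]
    rfl
  have hroot : algebraMap (AdjoinRoot f) (AdjoinRoot (f.map (algebraMap A K)))
      (AdjoinRoot.root f) = AdjoinRoot.root (f.map (algebraMap A K)) := by
    show toField K f _ = _
    rw [toField, AdjoinRoot.map_root]
  have hcopn : n.Coprime (Module.finrank A (AdjoinRoot f)) := by
    rw [hfin]
    have h1 : Nat.gcd n f.natDegree ∣ a * f.natDegree + 1 := (Nat.gcd_dvd_left _ _).trans ha
    have h2 : Nat.gcd n f.natDegree ∣ a * f.natDegree := (Nat.gcd_dvd_right _ _).mul_left _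
    exact Nat.dvd_one.1 ((Nat.dvd_add_right h2).1 h1)
  obtain ⟨Δ, rfl⟩ := AdjoinRoot.mk_surjective δ
  have haev : aeval (algebraMap (AdjoinRoot f) (AdjoinRoot (f.map (algebraMap A K)))
      (AdjoinRoot.root f)) Δ = AdjoinRoot.mk (f.map (algebraMap A K)) Δ := by
    rw [hroot, AdjoinRoot.aeval_eq]
  obtain ⟨I, hI⟩ := glob_ideal (A := A) (K := K) (B := AdjoinRoot f)
    (L := AdjoinRoot (f.map (algebraMap A K))) hn0 hcopn _ hδ hN (fun v => by
      by_cases hv : D ∈ v.asIdeal
      · obtain ⟨ϖ, hϖ, hv'⟩ := H94.TL.exists_gen v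
        refine inert_local (K := K) (L := AdjoinRoot (f.map (algebraMap A K))) hn0 hcopn v ϖ hϖ hv'
          (fun w w' hw hw' => ?_) _ hδ hN
        refine HeightOneSpectrum.ext (hD ϖ ?_ ?_ _ _ w.isPrime w'.isPrime hw hw')
        · rw [← Ideal.span_singleton_prime hϖ, ← hv']; exact v.isPrime
        · rwa [hv', Ideal.mem_span_singleton] at hv
      · obtain ⟨b, hb, r, m, P, Q, γ, hmP, hγ⟩ := hloc v hv
        obtain ⟨b, rfl⟩ := AdjoinRoot.mk_surjective b
        obtain ⟨G, rfl⟩ := AdjoinRoot.mk_surjective γ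
        have h1 := local_val (K := K) (L := AdjoinRoot (f.map (algebraMap A K))) a hn0 v D hv Δ b
          (fun w hw => hb w.asIdeal w.isPrime (fun s hs => by
            have h2 : s ∈ w.asIdeal.under A := by
              rw [← hw.over]
              exact hs
            exact h2)) r m P Q G (fun i => (hmP i).1) (fun i => (hmP i).2.1)
          (fun i => (hmP i).2.2.1) (fun i => (hmP i).2.2.2) (by
            rw [← AdjoinRoot.mk_eq_mk]
            rw [map_mul, map_pow, map_prod]
            simp only [map_mul, map_pow]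
            rw [toField_mk, ← map_mul, toAdic_mk] at hγ
            rw [← hγ])
        rwa [haev] at h1)
  -- clear the denominator
  have hI0 := ne_zero_of_span_eq_pow hn0 hδ hI
  obtain ⟨c, J, hc0, hJ⟩ := FractionalIdeal.exists_eq_spanSingleton_mul I
  have hcL : algebraMap (AdjoinRoot f) (AdjoinRoot (f.map (algebraMap A K))) c ≠ 0 := by
    rw [Ne, FaithfulSMul.algebraMap_eq_zero_iff]; exact hc0
  have hJ1 : FractionalIdeal.spanSingleton (nonZeroDivisors (AdjoinRoot f))
      (AdjoinRoot.mk (f.map (algebraMap A K)) Δ *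
        (algebraMap (AdjoinRoot f) (AdjoinRoot (f.map (algebraMap A K))) c) ^ n) =
      ((J ^ n : Ideal (AdjoinRoot f)) : FractionalIdeal (nonZeroDivisors (AdjoinRoot f))
        (AdjoinRoot (f.map (algebraMap A K)))) := by
    rw [← FractionalIdeal.spanSingleton_mul_spanSingleton, hI, hJ, mul_pow,
      ← FractionalIdeal.spanSingleton_pow, mul_right_comm, ← mul_pow,
      FractionalIdeal.spanSingleton_mul_spanSingleton, inv_mul_cancel₀ hcL,
      FractionalIdeal.spanSingleton_one, one_pow, one_mul, FractionalIdeal.coeIdeal_pow]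
  have hJ2 : (AdjoinRoot.mk (f.map (algebraMap A K)) Δ *
        (algebraMap (AdjoinRoot f) (AdjoinRoot (f.map (algebraMap A K))) c) ^ n) ∈
      ((J ^ n : Ideal (AdjoinRoot f)) : FractionalIdeal (nonZeroDivisors (AdjoinRoot f))
        (AdjoinRoot (f.map (algebraMap A K)))) := by
    rw [← hJ1]
    exact FractionalIdeal.mem_spanSingleton_self _ _
  obtain ⟨b, hb, hb'⟩ := (FractionalIdeal.mem_coeIdeal _).1 hJ2
  refine ⟨J, b, c, ?_, hc0, hb'.symm, ?_⟩
  · rintro rfl
    apply hI0
    rw [hJ, FractionalIdeal.coeIdeal_bot, mul_zero]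
  · apply FractionalIdeal.coeIdeal_injective (R := AdjoinRoot f)
      (K := AdjoinRoot (f.map (algebraMap A K)))
    show ((Ideal.span {b} : Ideal (AdjoinRoot f)) : FractionalIdeal
      (nonZeroDivisors (AdjoinRoot f)) (AdjoinRoot (f.map (algebraMap A K)))) = _
    rw [FractionalIdeal.coeIdeal_span_singleton, hb', hJ1]

/-- two elements of the same class -/
theorem same_class (f : A[X]) (hf : f.Monic) {n : ℕ}
    [IsDedekindDomain (AdjoinRoot f)] (δ δ' : AdjoinRoot (f.map (algebraMap A K)))
    (I I' : nonZeroDivisors (Ideal (AdjoinRoot f))) (b c b' c' : AdjoinRoot f)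
    (hc : c ≠ 0) (h : δ * toField K f c ^ n = toField K f b)
    (h' : δ' * toField K f c' ^ n = toField K f b')
    (hI : Ideal.span {b} = (I : Ideal (AdjoinRoot f)) ^ n)
    (hI' : Ideal.span {b'} = (I' : Ideal (AdjoinRoot f)) ^ n)
    (hcl : ClassGroup.mk0 I = ClassGroup.mk0 I') :
    ∃ (u : (AdjoinRoot f)ˣ) (z : AdjoinRoot (f.map (algebraMap A K))),
      δ = toField K f u * δ' * z ^ n := by
  let _ : Fact (Irreducible (f.map (algebraMap A K))) := ⟨irreducible_map K f hf⟩
  obtain ⟨x, y, hx, hy, hxy⟩ := ClassGroup.mk0_eq_mk0_iff.1 hcl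
  have h1 : Ideal.span {x ^ n * b} = Ideal.span {y ^ n * b'} := by
    rw [← Ideal.span_singleton_mul_span_singleton, ← Ideal.span_singleton_mul_span_singleton,
      ← Ideal.span_singleton_pow, ← Ideal.span_singleton_pow, hI, hI', ← mul_pow, ← mul_pow, hxy]
  obtain ⟨u, hu⟩ := Ideal.span_singleton_eq_span_singleton.1 h1
  have hinj := toField_injective K f hf
  have hne : ∀ s : AdjoinRoot f, s ≠ 0 → toField K f s ≠ 0 := fun s hs h0 =>
    hs (hinj (by rw [h0, map_zero]))
  refine ⟨u⁻¹, toField K f (y * c') / toField K f (x * c), ?_⟩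
  have h2 := congrArg (toField K f) hu
  rw [map_mul, map_mul, map_mul, map_pow, map_pow, ← h, ← h'] at h2
  have h3 : toField K f (u⁻¹ : (AdjoinRoot f)ˣ) * toField K f u = 1 := by
    rw [← map_mul, Units.inv_mul, map_one]
  have hcx : toField K f (x * c) ^ n ≠ 0 := pow_ne_zero _ (hne _ (mul_ne_zero hx hc))
  rw [div_pow, mul_div_assoc', eq_div_iff hcx, map_mul, map_mul, mul_pow, mul_pow]
  linear_combination (toField K f (u⁻¹ : (AdjoinRoot f)ˣ)) * h2 -
    δ * toField K f x ^ n * toField K f c ^ n * h3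

end

end Pool.Agent.H80.CC
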