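import Pool.Agent.H80.CC.SplitG

/-!
The Selmer group of `D z ^ n = f(x)` if all irreducible factors of `f` but one modulo a prime factor
of `D` lift, and the other prime factors of `D` are nonsplit.
-/

namespace Pool.Agent.H80.CC

open Polynomial WithZero IsDedekindDomain HeightOneSpectrum H94.TC H94.TL

section

variable {F : Type*} [Field F] (K : Type*) [Field K] [Algebra F[X] K] [IsFractionRing F[X] K]
  {k : Type*} [Field k] {φ : F[X] →+* k}

/-- the value at the divisor `P(x) = 0` -/
noncomputable def valE (a : ℕ) (D : F[X]) (f P : F[X][X]) : AdjoinRoot f :=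
  AdjoinRoot.mk f (C (-D ^ a)) ^ P.natDegree * AdjoinRoot.mk f P

/-- the divisor is an `n`-th power, given information at the primes dividing `D` -/
theorem sel_split (f : F[X][X]) (hf : f.Monic) {n : ℕ} (a : ℕ) (hn0 : n ≠ 0)
    (ha : n ∣ a * f.natDegree + 1) [IsDedekindDomain (AdjoinRoot f)]
    (D π : F[X]) (hπ : Irreducible π) {e r : ℕ} (P Q : Fin r → F[X][X]) (H : F[X][X])
    (hsp : G.Splits φ π f n e D P Q H)
    (hD : ∀ p : F[X], Prime p → p ∣ D → ¬ Associated p π → ∀ w w' : Ideal (AdjoinRoot f),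
      w.IsPrime → w'.IsPrime → algebraMap F[X] (AdjoinRoot f) p ∈ w →
      algebraMap F[X] (AdjoinRoot f) p ∈ w' → w = w')
    (δ : AdjoinRoot (f.map (algebraMap F[X] K)))
    (hδ : ∀ s : Fin r → ℕ, δ * ∏ i, toField K f (valE a D f (P i)) ^ s i ≠ 0)
    (hN : ∀ s : Fin r → ℕ, ∃ y : K,
      Algebra.norm K (δ * ∏ i, toField K f (valE a D f (P i)) ^ s i) = y ^ n)
    (hloc : ∀ s : Fin r → ℕ, ∀ v : HeightOneSpectrum F[X], D ∉ v.asIdeal → ∃ b : AdjoinRoot f,
      (∀ w : Ideal (AdjoinRoot f), w.IsPrime →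
        (∀ s ∈ v.asIdeal, algebraMap F[X] (AdjoinRoot f) s ∈ w) → b ∉ w) ∧
      ∃ (r : ℕ) (m : Fin r → ℕ) (P' Q : Fin r → (v.adicCompletion K)[X])
        (γ : AdjoinRoot ((f.map (algebraMap F[X] K)).map (algebraMap K (v.adicCompletion K)))),
        (∀ i, m i ∣ n ∧ (P' i).Monic ∧ IsCoprime (P' i)
            ((f.map (algebraMap F[X] K)).map (algebraMap K (v.adicCompletion K))) ∧
          P' i ∣ C (algebraMap K (v.adicCompletion K) (algebraMap F[X] K D)) * Q i ^ m i -
            (f.map (algebraMap F[X] K)).map (algebraMap K (v.adicCompletion K))) ∧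
        toAdic K f v (δ * (∏ i, toField K f (valE a D f (P i)) ^ s i) * toField K f b) * γ ^ n =
          ∏ i, (AdjoinRoot.mk ((f.map (algebraMap F[X] K)).map
              (algebraMap K (v.adicCompletion K)))
            (C (-(algebraMap K (v.adicCompletion K) (algebraMap F[X] K D)) ^ a)) ^
              (P' i).natDegree *
            AdjoinRoot.mk ((f.map (algebraMap F[X] K)).map (algebraMap K (v.adicCompletion K)))
              (P' i)) ^ (n / m i)) :
    ∃ (s : Fin r → ℕ) (I : Ideal (AdjoinRoot f)) (b c : AdjoinRoot f), I ≠ ⊥ ∧ c ≠ 0 ∧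
      δ * (∏ i, toField K f (valE a D f (P i)) ^ s i) * toField K f c ^ n = toField K f b ∧
      Ideal.span {b} = I ^ n := by
  classical
  let _ : Fact (Irreducible (f.map (algebraMap F[X] K))) := ⟨irreducible_map K f hf⟩
  let _ := (toField K f).toAlgebra
  have : IsFractionRing (AdjoinRoot f) (AdjoinRoot (f.map (algebraMap F[X] K))) :=
    isFractionRing_toField K f hf
  have := torsionFree_adjoinRoot f hf
  have : Module.Finite F[X] (AdjoinRoot f) := hf.finite_adjoinRoot
  have : Module.Free F[X] (AdjoinRoot f) := hf.free_adjoinRoot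
  have hfin : Module.finrank F[X] (AdjoinRoot f) = f.natDegree :=
    finrank_quotient_span_eq_natDegree' hf
  have : IsScalarTower F[X] (AdjoinRoot f) (AdjoinRoot (f.map (algebraMap F[X] K))) := by
    refine IsScalarTower.of_algebraMap_eq fun x => ?_
    show _ = toField K f _
    have h1 : algebraMap F[X] (AdjoinRoot f) x = AdjoinRoot.mk f (C x) := rfl
    rw [h1, toField_mk, Polynomial.map_C]
    rfl
  have hroot : algebraMap (AdjoinRoot f) (AdjoinRoot (f.map (algebraMap F[X] K)))
      (AdjoinRoot.root f) = AdjoinRoot.root (f.map (algebraMap F[X] K)) := by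
    show toField K f _ = _
    rw [toField, AdjoinRoot.map_root]
  have hcopn : n.Coprime (Module.finrank F[X] (AdjoinRoot f)) := by
    rw [hfin]
    have h1 : Nat.gcd n f.natDegree ∣ a * f.natDegree + 1 := (Nat.gcd_dvd_left _ _).trans ha
    have h2 : Nat.gcd n f.natDegree ∣ a * f.natDegree := (Nat.gcd_dvd_right _ _).mul_left _
    exact Nat.dvd_one.1 ((Nat.dvd_add_right h2).1 h1)
  have hπ0 : AdjoinRoot.mk f (C π) ≠ 0 := by
    have h1 : AdjoinRoot.mk f (C π) = algebraMap F[X] (AdjoinRoot f) π := rfl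
    rw [h1, Ne, FaithfulSMul.algebraMap_eq_zero_iff]
    exact hπ.ne_zero
  have hδ1 : δ ≠ 0 := by
    have h1 := hδ 0
    simp only [Pi.zero_apply, pow_zero, Finset.prod_const_one, mul_one] at h1
    exact h1
  obtain ⟨s, j0, htw⟩ := hsp.twist (AdjoinRoot (f.map (algebraMap F[X] K))) hn0 hπ0 a δ hδ1
  refine ⟨s, ?_⟩
  have hδs := hδ s
  have hNs := hN s
  have hlocs := hloc s
  have htw' : ∀ w : HeightOneSpectrum (AdjoinRoot f),
      AdjoinRoot.mk f (C π) ∈ w.asIdeal → w.intValuation (AdjoinRoot.mk f (C π)) = exp (-1 : ℤ) ∧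
      ∃ t : ℤᵐ⁰, w.valuation (AdjoinRoot (f.map (algebraMap F[X] K)))
        (δ * ∏ i, toField K f (valE a D f (P i)) ^ s i) * exp (-1 : ℤ) ^ j0 = t ^ n := htw
  clear htw hδ hN hloc
  set δ' := δ * ∏ i, toField K f (valE a D f (P i)) ^ s i with hδ'
  clear_value δ'
  obtain ⟨Δ, rfl⟩ := AdjoinRoot.mk_surjective δ'
  have haev : aeval (algebraMap (AdjoinRoot f) (AdjoinRoot (f.map (algebraMap F[X] K)))
      (AdjoinRoot.root f)) Δ = AdjoinRoot.mk (f.map (algebraMap F[X] K)) Δ := by
    rw [hroot, AdjoinRoot.aeval_eq]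
  obtain ⟨I, hI⟩ := glob_ideal (A := F[X]) (K := K) (B := AdjoinRoot f)
    (L := AdjoinRoot (f.map (algebraMap F[X] K))) hn0 hcopn _ hδs hNs (fun v => by
      by_cases hv : D ∈ v.asIdeal
      · obtain ⟨ϖ, hϖ, hv'⟩ := H94.TL.exists_gen v
        have hϖp : Prime ϖ := by
          rw [← Ideal.span_singleton_prime hϖ, ← hv']; exact v.isPrime
        by_cases hass : Associated ϖ π
        · -- the split prime
          have hvπ : v.asIdeal = Ideal.span {π} := by
            rw [hv']; exact Ideal.span_singleton_eq_span_singleton.2 hass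
          refine ⟨j0, fun w hw => ?_⟩
          have hπw : AdjoinRoot.mk f (C π) ∈ w.asIdeal := by
            have h2 : π ∈ w.asIdeal.under F[X] := by
              rw [← hw.over, hvπ]
              exact Ideal.mem_span_singleton_self _
            exact h2
          obtain ⟨h1, t, ht⟩ := htw' w hπw
          have h3 := intValuation_liesOver (B := AdjoinRoot f) v w π
          rw [v.intValuation_singleton hπ.ne_zero hvπ] at h3
          have h4 : w.intValuation (algebraMap F[X] (AdjoinRoot f) π) = exp (-1 : ℤ) := h1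
          rw [h4] at h3
          exact ⟨t, by rw [h3]; exact ht⟩
        · refine inert_local (K := K) (L := AdjoinRoot (f.map (algebraMap F[X] K))) hn0 hcopn v ϖ
            hϖ hv' (fun w w' hw hw' => ?_) _ hδs hNs
          refine HeightOneSpectrum.ext (hD ϖ hϖp ?_ hass _ _ w.isPrime w'.isPrime hw hw')
          rwa [hv', Ideal.mem_span_singleton] at hv
      · obtain ⟨b, hb, r, m, P', Q, γ, hmP, hγ⟩ := hlocs v hv
        obtain ⟨b, rfl⟩ := AdjoinRoot.mk_surjective b
        obtain ⟨G, rfl⟩ := AdjoinRoot.mk_surjective γ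
        have h1 := local_val (K := K) (L := AdjoinRoot (f.map (algebraMap F[X] K))) a hn0 v D hv Δ b
          (fun w hw => hb w.asIdeal w.isPrime (fun s hs => by
            have h2 : s ∈ w.asIdeal.under F[X] := by
              rw [← hw.over]
              exact hs
            exact h2)) r m P' Q G (fun i => (hmP i).1) (fun i => (hmP i).2.1)
          (fun i => (hmP i).2.2.1) (fun i => (hmP i).2.2.2) (by
            rw [← AdjoinRoot.mk_eq_mk]
            rw [map_mul, map_pow, map_prod]
            simp only [map_mul, map_pow]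
            rw [toField_mk, ← map_mul, toAdic_mk] at hγ
            rw [← hγ])
        rwa [haev] at h1)
  -- clear the denominator
  have hI0 := ne_zero_of_span_eq_pow hn0 hδs hI
  obtain ⟨c, J, hc0, hJ⟩ := FractionalIdeal.exists_eq_spanSingleton_mul I
  have hcL : algebraMap (AdjoinRoot f) (AdjoinRoot (f.map (algebraMap F[X] K))) c ≠ 0 := by
    rw [Ne, FaithfulSMul.algebraMap_eq_zero_iff]; exact hc0
  have hJ1 : FractionalIdeal.spanSingleton (nonZeroDivisors (AdjoinRoot f))
      (AdjoinRoot.mk (f.map (algebraMap F[X] K)) Δ *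
        (algebraMap (AdjoinRoot f) (AdjoinRoot (f.map (algebraMap F[X] K))) c) ^ n) =
      ((J ^ n : Ideal (AdjoinRoot f)) : FractionalIdeal (nonZeroDivisors (AdjoinRoot f))
        (AdjoinRoot (f.map (algebraMap F[X] K)))) := by
    rw [← FractionalIdeal.spanSingleton_mul_spanSingleton, hI, hJ, mul_pow,
      ← FractionalIdeal.spanSingleton_pow, mul_right_comm, ← mul_pow,
      FractionalIdeal.spanSingleton_mul_spanSingleton, inv_mul_cancel₀ hcL,
      FractionalIdeal.spanSingleton_one, one_pow, one_mul, FractionalIdeal.coeIdeal_pow]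
  have hJ2 : (AdjoinRoot.mk (f.map (algebraMap F[X] K)) Δ *
        (algebraMap (AdjoinRoot f) (AdjoinRoot (f.map (algebraMap F[X] K))) c) ^ n) ∈
      ((J ^ n : Ideal (AdjoinRoot f)) : FractionalIdeal (nonZeroDivisors (AdjoinRoot f))
        (AdjoinRoot (f.map (algebraMap F[X] K)))) := by
    rw [← hJ1]
    exact FractionalIdeal.mem_spanSingleton_self _ _
  obtain ⟨b, hb, hb'⟩ := (FractionalIdeal.mem_coeIdeal _).1 hJ2
  refine ⟨J, b, c, ?_, hc0, hb'.symm, ?_⟩
  · rintro rfl
    apply hI0
    rw [hJ, FractionalIdeal.coeIdeal_bot, mul_zero]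
  · apply FractionalIdeal.coeIdeal_injective (R := AdjoinRoot f)
      (K := AdjoinRoot (f.map (algebraMap F[X] K)))
    show ((Ideal.span {b} : Ideal (AdjoinRoot f)) : FractionalIdeal
      (nonZeroDivisors (AdjoinRoot f)) (AdjoinRoot (f.map (algebraMap F[X] K)))) = _
    rw [FractionalIdeal.coeIdeal_span_singleton, hb', hJ1]

end

end Pool.Agent.H80.CC
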