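import Pool.Agent.H80.CC.Core

/-!
A prime `π` of a ring `A` dividing `D` exactly `e` times, `e` prime to `n`, modulo which `f` is squarefree, and all
irreducible factors of `f` modulo `π` but one lift to divisors on `D z ^ n = f(x)`. The residue
field is given by a surjection `A → k` with kernel `(π)`.
-/

namespace Pool.Agent.H80.CC.G

open Polynomial WithZero IsDedekindDomain HeightOneSpectrum

theorem prod_exp {ι : Type*} (S : Finset ι) (c : ι → ℤ) :
    ∏ i ∈ S, (exp (c i) : ℤᵐ⁰) = exp (∑ i ∈ S, c i) := by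
  classical
  induction S using Finset.induction_on with
  | empty => simp
  | insert i S hi ih => rw [Finset.prod_insert hi, Finset.sum_insert hi, ih, exp_add]

section

variable {A k : Type*} [CommRing A] [Field k] (φ : A →+* k) (π : A) (f : A[X])

/-- `φ` is a surjection with kernel `(π)` -/
structure IsRes : Prop where
  surj : Function.Surjective φ
  ker : ∀ a, φ a = 0 ↔ π ∣ a

variable {φ π}

theorem IsRes.C_dvd (h : IsRes φ π) (R : A[X]) (hR : R.map φ = 0) : C π ∣ R := by
  rw [C_dvd_iff_dvd_coeff]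
  intro i
  have h2 := congrArg (fun p => p.coeff i) hR
  simp only [coeff_map, coeff_zero] at h2
  exact (h.ker _).1 h2

theorem IsRes.map_surj (h : IsRes φ π) : Function.Surjective (Polynomial.map φ) :=
  Polynomial.map_surjective _ h.surj

theorem IsRes.map_pi (h : IsRes φ π) : φ π = 0 := (h.ker π).2 dvd_rfl

/-- membership in a prime above `π` containing `g` -/
theorem mem_prime_iff (hφ : IsRes φ π) (g : A[X]) (hg : Irreducible (g.map φ))
    (w : Ideal (AdjoinRoot f)) (hw : w ≠ ⊤) (hπw : AdjoinRoot.mk f (C π) ∈ w)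
    (hgw : AdjoinRoot.mk f g ∈ w) (P : A[X]) :
    AdjoinRoot.mk f P ∈ w ↔ g.map φ ∣ P.map φ := by
  have hsurj := hφ.map_surj
  have hker := hφ.C_dvd
  constructor
  · intro hP
    by_contra hnd
    have hcop : IsCoprime (g.map φ) (P.map φ) := (hg.coprime_iff_not_dvd).2 hnd
    obtain ⟨u', v', huv⟩ := hcop
    obtain ⟨u, rfl⟩ := hsurj u'
    obtain ⟨v, rfl⟩ := hsurj v'
    obtain ⟨S, hS⟩ := hker (u * g + v * P - 1) (by
      rw [Polynomial.map_sub, Polynomial.map_add, Polynomial.map_mul, Polynomial.map_mul, huv,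
        Polynomial.map_one, sub_self])
    apply hw
    rw [Ideal.eq_top_iff_one]
    have h1 : (1 : AdjoinRoot f) = AdjoinRoot.mk f u * AdjoinRoot.mk f g +
        AdjoinRoot.mk f v * AdjoinRoot.mk f P - AdjoinRoot.mk f (C π) * AdjoinRoot.mk f S := by
      rw [← map_mul, ← map_mul, ← map_mul, ← map_add, ← map_sub, ← map_one (AdjoinRoot.mk f)]
      congr 1
      linear_combination -hS
    rw [h1]
    exact w.sub_mem (w.add_mem (w.mul_mem_left _ hgw) (w.mul_mem_left _ hP))
      (w.mul_mem_right _ hπw)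
  · rintro ⟨q', hq'⟩
    obtain ⟨q, rfl⟩ := hsurj q'
    obtain ⟨S, hS⟩ := hker (P - g * q) (by
      rw [Polynomial.map_sub, Polynomial.map_mul, hq', sub_self])
    have h1 : AdjoinRoot.mk f P = AdjoinRoot.mk f g * AdjoinRoot.mk f q +
        AdjoinRoot.mk f (C π) * AdjoinRoot.mk f S := by
      rw [← map_mul, ← map_mul, ← map_add]
      congr 1
      linear_combination hS
    rw [h1]
    exact w.add_mem (w.mul_mem_right _ hgw) (w.mul_mem_right _ hπw)

section factors

variable {ι : Type*} [Fintype ι] (G : ι → A[X])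

theorem factor_not_dvd (hprod : ∏ i, (G i).map φ = f.map φ)
    (hirr : ∀ i, Irreducible ((G i).map φ)) (hsq : Squarefree (f.map φ)) (i j : ι) (hij : i ≠ j) :
    ¬ (G j).map φ ∣ (G i).map φ := by
  classical
  intro h
  apply (hirr j).not_isUnit
  apply hsq
  rw [← hprod, ← Finset.mul_prod_erase Finset.univ _ (Finset.mem_univ j)]
  refine mul_dvd_mul_left _ (h.trans (Finset.dvd_prod_of_mem _ ?_))
  exact Finset.mem_erase.2 ⟨hij, Finset.mem_univ i⟩

theorem prime_unique (hφ : IsRes φ π) (g : A[X]) (hg : Irreducible (g.map φ))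
    (w w' : HeightOneSpectrum (AdjoinRoot f))
    (hw : AdjoinRoot.mk f (C π) ∈ w.asIdeal) (hw' : AdjoinRoot.mk f (C π) ∈ w'.asIdeal)
    (hgw : AdjoinRoot.mk f g ∈ w.asIdeal) (hgw' : AdjoinRoot.mk f g ∈ w'.asIdeal) : w = w' := by
  apply HeightOneSpectrum.ext
  ext x
  obtain ⟨P, rfl⟩ := AdjoinRoot.mk_surjective x
  rw [mem_prime_iff f hφ g hg w.asIdeal w.isPrime.ne_top hw hgw,
    mem_prime_iff f hφ g hg w'.asIdeal w'.isPrime.ne_top hw' hgw']

/-- there is a prime above `π` for each factor -/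
theorem exists_prime (hφ : IsRes φ π) (g : A[X]) (hg : Irreducible (g.map φ))
    (hdvd : g.map φ ∣ f.map φ) (hπ0 : AdjoinRoot.mk f (C π) ≠ 0) :
    ∃ w : HeightOneSpectrum (AdjoinRoot f), AdjoinRoot.mk f (C π) ∈ w.asIdeal ∧
      AdjoinRoot.mk f g ∈ w.asIdeal := by
  have hfact' : Fact (Irreducible (g.map φ)) := ⟨hg⟩
  let ψ : AdjoinRoot f →+* AdjoinRoot (g.map φ) := AdjoinRoot.map φ f (g.map φ) hdvd
  have hψ : ∀ P : A[X], ψ (AdjoinRoot.mk f P) = AdjoinRoot.mk (g.map φ) (P.map φ) := by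
    intro P
    induction P using Polynomial.induction_on' with
    | add p q hp hq => rw [map_add, map_add, hp, hq, Polynomial.map_add, map_add]
    | monomial n a =>
      rw [Polynomial.map_monomial, ← C_mul_X_pow_eq_monomial, ← C_mul_X_pow_eq_monomial]
      simp only [map_mul, map_pow, AdjoinRoot.mk_C, AdjoinRoot.mk_X, ψ]
      rw [AdjoinRoot.map_of, AdjoinRoot.map_root]
  have h1 : AdjoinRoot.mk f (C π) ∈ RingHom.ker ψ := by
    rw [RingHom.mem_ker, hψ, Polynomial.map_C, hφ.map_pi, C_0, map_zero]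
  refine ⟨⟨RingHom.ker ψ, RingHom.ker_isPrime ψ, ?_⟩, h1, ?_⟩
  · intro h0
    rw [h0, Ideal.mem_bot] at h1
    exact hπ0 h1
  · show _ ∈ RingHom.ker ψ
    rw [RingHom.mem_ker, hψ, AdjoinRoot.mk_self]

variable [IsDedekindDomain (AdjoinRoot f)]

/-- the valuations at a prime above `π` -/
theorem split_prime (hφ : IsRes φ π) (hprod : ∏ i, (G i).map φ = f.map φ)
    (hirr : ∀ i, Irreducible ((G i).map φ)) (hsq : Squarefree (f.map φ))
    (hπ0 : AdjoinRoot.mk f (C π) ≠ 0)
    (w : HeightOneSpectrum (AdjoinRoot f)) (hπw : AdjoinRoot.mk f (C π) ∈ w.asIdeal) :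
    ∃ j, AdjoinRoot.mk f (G j) ∈ w.asIdeal ∧
      (∀ i, i ≠ j → w.intValuation (AdjoinRoot.mk f (G i)) = 1) ∧
      w.intValuation (AdjoinRoot.mk f (C π)) = exp (-1 : ℤ) := by
  classical
  obtain ⟨S', hS'⟩ := hφ.C_dvd (f - ∏ i, G i) (by
    rw [Polynomial.map_sub, Polynomial.map_prod, hprod, sub_self])
  have hprod' : ∏ i, AdjoinRoot.mk f (G i) = -(AdjoinRoot.mk f (C π) * AdjoinRoot.mk f S') := by
    rw [← map_prod, ← map_mul, ← hS', map_sub, AdjoinRoot.mk_self, zero_sub, neg_neg]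
  have hmem : ∏ i, AdjoinRoot.mk f (G i) ∈ w.asIdeal := by
    rw [hprod']
    exact w.asIdeal.neg_mem (w.asIdeal.mul_mem_right _ hπw)
  obtain ⟨j, -, hj⟩ := (w.isPrime.prod_mem_iff).1 hmem
  have hiff := mem_prime_iff f hφ (G j) (hirr j) w.asIdeal w.isPrime.ne_top hπw hj
  have hval1 : ∀ i, i ≠ j → w.intValuation (AdjoinRoot.mk f (G i)) = 1 := by
    intro i hij
    rw [intValuation_eq_one_iff, hiff]
    exact factor_not_dvd f G hprod hirr hsq i j hij
  refine ⟨j, hj, hval1, ?_⟩
  have hsplit : w.intValuation (AdjoinRoot.mk f (G j)) =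
      w.intValuation (AdjoinRoot.mk f (C π)) * w.intValuation (AdjoinRoot.mk f S') := by
    have h1 := congrArg w.intValuation hprod'
    rw [← Finset.mul_prod_erase Finset.univ _ (Finset.mem_univ j), map_mul, map_prod,
      Finset.prod_eq_one (fun i hi => hval1 i (Finset.ne_of_mem_erase hi)), mul_one,
      Valuation.map_neg, map_mul] at h1
    exact h1
  obtain ⟨u, hu⟩ := w.intValuation_exists_uniformizer
  obtain ⟨P, rfl⟩ := AdjoinRoot.mk_surjective u
  have huw : AdjoinRoot.mk f P ∈ w.asIdeal := by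
    rw [← intValuation_lt_one_iff_mem, hu, ← exp_zero, exp_lt_exp]
    norm_num
  have h1 := (hiff P).1 huw
  obtain ⟨q', hq'⟩ := h1
  obtain ⟨q, rfl⟩ := hφ.map_surj q'
  obtain ⟨S, hS⟩ := hφ.C_dvd (P - G j * q) (by
    rw [Polynomial.map_sub, Polynomial.map_mul, hq', sub_self])
  have h4 : AdjoinRoot.mk f P = AdjoinRoot.mk f (G j) * AdjoinRoot.mk f q +
      AdjoinRoot.mk f (C π) * AdjoinRoot.mk f S := by
    rw [← map_mul, ← map_mul, ← map_add]
    congr 1
    linear_combination hS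
  have h5 : w.intValuation (AdjoinRoot.mk f P) ≤ w.intValuation (AdjoinRoot.mk f (C π)) := by
    rw [h4]
    refine (Valuation.map_add _ _ _).trans (max_le ?_ ?_)
    · rw [map_mul, hsplit, mul_assoc]
      exact mul_le_of_le_one_right' (mul_le_one' (w.intValuation_le_one _)
        (w.intValuation_le_one _))
    · rw [map_mul]
      exact mul_le_of_le_one_right' (w.intValuation_le_one _)
  rw [hu] at h5
  refine le_antisymm ?_ h5
  have h6 : w.intValuation (AdjoinRoot.mk f (C π)) < 1 := intValuation_lt_one_iff_mem w _ |>.2 hπw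
  have h7 : w.intValuation (AdjoinRoot.mk f (C π)) ≠ 0 := intValuation_ne_zero w _ hπ0
  rw [← exp_log h7] at h6 ⊢
  rw [← exp_zero, exp_lt_exp] at h6
  rw [exp_le_exp]
  omega

/-- the valuation of a lifted factor -/
theorem lift_val (hφ : IsRes φ π) (hprod : ∏ i, (G i).map φ = f.map φ)
    (hirr : ∀ i, Irreducible ((G i).map φ)) (hsq : Squarefree (f.map φ)) {n : ℕ} (hn : n ≠ 0)
    (D : A) (hD : π ∣ D) (Q : A[X]) (i j : ι) (hij : i ≠ j) (hQ : G j ∣ C D * Q ^ n - f)
    (w : HeightOneSpectrum (AdjoinRoot f)) (hπw : AdjoinRoot.mk f (C π) ∈ w.asIdeal)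
    (hj : AdjoinRoot.mk f (G j) ∈ w.asIdeal) :
    w.intValuation (AdjoinRoot.mk f (G j)) = w.intValuation (AdjoinRoot.mk f (C D)) *
      w.intValuation (AdjoinRoot.mk f Q) ^ n ∧ w.intValuation (AdjoinRoot.mk f Q) ≠ 0 := by
  classical
  obtain ⟨R, hR⟩ := hQ
  have hiff := mem_prime_iff f hφ (G j) (hirr j) w.asIdeal w.isPrime.ne_top hπw hj
  have hDm : (C D : A[X]).map φ = 0 := by
    rw [Polynomial.map_C, (hφ.ker D).2 hD, C_0]
  have h1 := congrArg (Polynomial.map φ) hR
  rw [Polynomial.map_sub, Polynomial.map_mul, hDm, zero_mul, zero_sub, Polynomial.map_mul] at h1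
  have hRw : w.intValuation (AdjoinRoot.mk f R) = 1 := by
    rw [intValuation_eq_one_iff, hiff]
    intro h2
    apply (hirr j).not_isUnit
    apply hsq
    have h3 := mul_dvd_mul_left ((G j).map φ) h2
    rw [← h1, dvd_neg] at h3
    exact h3
  have hGj0 : AdjoinRoot.mk f (G j) ≠ 0 := by
    intro h0
    rw [AdjoinRoot.mk_eq_zero] at h0
    have h2 := Polynomial.map_dvd φ h0
    have h3 : (G i).map φ ∣ (G j).map φ := by
      refine dvd_trans ?_ h2
      rw [← hprod]
      exact Finset.dvd_prod_of_mem _ (Finset.mem_univ i)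
    exact factor_not_dvd f G hprod hirr hsq j i hij.symm h3
  have h4 := congrArg (AdjoinRoot.mk f) hR
  rw [map_sub, AdjoinRoot.mk_self, sub_zero, map_mul, map_pow, map_mul] at h4
  have h5 := congrArg w.intValuation h4
  rw [map_mul, map_pow, map_mul, hRw, mul_one] at h5
  refine ⟨h5.symm, ?_⟩
  intro h0
  rw [h0, zero_pow hn, mul_zero] at h5
  exact intValuation_ne_zero w _ hGj0 h5.symm

/-- the valuation of `D` -/
theorem D_val (hφ : IsRes φ π) (g : A[X]) (hg : Irreducible (g.map φ)) (D u : A) (e : ℕ)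
    (hD : D = u * π ^ e) (hu : ¬ π ∣ u)
    (w : HeightOneSpectrum (AdjoinRoot f)) (hπw : AdjoinRoot.mk f (C π) ∈ w.asIdeal)
    (hgw : AdjoinRoot.mk f g ∈ w.asIdeal)
    (hval : w.intValuation (AdjoinRoot.mk f (C π)) = exp (-1 : ℤ)) :
    w.intValuation (AdjoinRoot.mk f (C D)) = exp (-(e : ℤ)) := by
  have hD0 : w.intValuation (AdjoinRoot.mk f (C u)) = 1 := by
    apply intValuation_eq_one_iff.2
    rw [mem_prime_iff f hφ g hg w.asIdeal w.isPrime.ne_top hπw hgw, Polynomial.map_C]
    intro h1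
    have h2 : IsUnit (C (φ u) : k[X]) := by
      rw [isUnit_C, isUnit_iff_ne_zero]
      intro h0
      exact hu ((hφ.ker _).1 h0)
    exact hg.not_isUnit (isUnit_of_dvd_unit h1 h2)
  rw [hD, C_mul, C_pow, map_mul, map_mul, map_pow, map_pow, hD0, one_mul, hval, ← exp_nsmul]
  congr 1
  simp

end factors

/-- `π` divides `D` exactly `e` times, `e` prime to `n`, `f` is squarefree modulo `π`, and its
irreducible factors modulo `π` are the `P i`, where `P i` divides `D (Q i) ^ n - f`, and `H`. -/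
structure Splits (φ : A →+* k) (π : A) (f : A[X]) (n e : ℕ) (D : A) {r : ℕ} (P Q : Fin r → A[X])
    (H : A[X]) : Prop where
  res : IsRes φ π
  ne_zero : e ≠ 0
  coprime : e.Coprime n
  exact : ∃ u, ¬ π ∣ u ∧ D = u * π ^ e
  squarefree : Squarefree (f.map φ)
  factors : ∀ i, Irreducible ((P i).map φ)
  last : Irreducible (H.map φ)
  prod : f.map φ = (∏ i, (P i).map φ) * H.map φ
  mumford : ∀ i, P i ∣ C D * Q i ^ n - f

/-- the factors including the last one -/
def allF {r : ℕ} (P : Fin r → A[X]) (H : A[X]) (j : Option (Fin r)) : A[X] := j.elim H P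

variable {f}

section

variable {n e : ℕ} {D : A} {r : ℕ} {P Q : Fin r → A[X]} {H : A[X]}

theorem Splits.dvd (h : Splits φ π f n e D P Q H) : π ∣ D := by
  obtain ⟨u, -, rfl⟩ := h.exact
  exact (dvd_pow_self π h.ne_zero).mul_left u

theorem Splits.prod' (h : Splits φ π f n e D P Q H) : ∏ j, (allF P H j).map φ = f.map φ := by
  rw [Fintype.prod_option, h.prod, mul_comm]
  rfl

theorem Splits.irr (h : Splits φ π f n e D P Q H) (j : Option (Fin r)) :
    Irreducible ((allF P H j).map φ) := by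
  cases j with
  | none => exact h.last
  | some i => exact h.factors i

theorem Splits.exists_prime (h : Splits φ π f n e D P Q H) (hπ0 : AdjoinRoot.mk f (C π) ≠ 0)
    (j : Option (Fin r)) : ∃ w : HeightOneSpectrum (AdjoinRoot f),
      AdjoinRoot.mk f (C π) ∈ w.asIdeal ∧ AdjoinRoot.mk f (allF P H j) ∈ w.asIdeal :=
  G.exists_prime f h.res (allF P H j) (h.irr j)
    (by rw [← h.prod']; exact Finset.dvd_prod_of_mem _ (Finset.mem_univ j)) hπ0

theorem Splits.not_dvd (h : Splits φ π f n e D P Q H) (i : Fin r) : ¬ f ∣ P i := by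
  intro h0
  have h1 := Polynomial.map_dvd φ h0
  have h2 : H.map φ ∣ (P i).map φ := by
    refine dvd_trans ?_ h1
    rw [h.prod]
    exact dvd_mul_left _ _
  exact factor_not_dvd f (allF P H) h.prod' h.irr h.squarefree (some i) none
    (Option.some_ne_none i) h2

variable [IsDedekindDomain (AdjoinRoot f)]
  (L : Type*) [Field L] [Algebra (AdjoinRoot f) L] [IsFractionRing (AdjoinRoot f) L]

theorem Splits.value_at (h : Splits φ π f n e D P Q H) (hn : n ≠ 0) (a : ℕ)
    (j : Option (Fin r)) (w : HeightOneSpectrum (AdjoinRoot f))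
    (hw : AdjoinRoot.mk f (C π) ∈ w.asIdeal) (hj : AdjoinRoot.mk f (allF P H j) ∈ w.asIdeal)
    (hj1 : ∀ i, i ≠ j → w.intValuation (AdjoinRoot.mk f (allF P H i)) = 1)
    (hjπ : w.intValuation (AdjoinRoot.mk f (C π)) = exp (-1 : ℤ)) (s : Fin r → ℕ) :
    ∃ q : ℤᵐ⁰, q ≠ 0 ∧ w.valuation L (∏ i, algebraMap (AdjoinRoot f) L
        (AdjoinRoot.mk f (C (-D ^ a)) ^ (P i).natDegree * AdjoinRoot.mk f (P i)) ^ s i) =
      exp (e * (-((a * ∑ i, (P i).natDegree * s i : ℕ) : ℤ) -
        (∑ i, if j = some i then s i else 0 : ℕ))) * q ^ n := by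
  classical
  obtain ⟨u, hu, hDu⟩ := h.exact
  have hvalD := D_val f h.res (allF P H j) (h.irr j) D u e hDu hu w hw hj hjπ
  -- the values of the factors
  have hfac : ∀ i : Fin r, ∃ q : ℤᵐ⁰, q ≠ 0 ∧ w.intValuation (AdjoinRoot.mk f (P i)) =
      exp (-(if j = some i then e else 0 : ℕ) : ℤ) * q ^ n := by
    intro i
    by_cases hji : j = some i
    · subst hji
      obtain ⟨h1, h2⟩ := lift_val f (allF P H) h.res h.prod' h.irr h.squarefree hn D
        h.dvd (Q i) none (some i) (Option.some_ne_none i).symm (h.mumford i) _ hw hj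
      refine ⟨w.intValuation (AdjoinRoot.mk f (Q i)), h2, ?_⟩
      rw [if_pos rfl, ← hvalD]
      exact h1
    · refine ⟨1, one_ne_zero, ?_⟩
      rw [if_neg hji, Nat.cast_zero, neg_zero, exp_zero, one_mul, one_pow]
      exact hj1 (some i) (fun h => hji h.symm)
  choose q hq0 hq using hfac
  have hE : ∀ i : Fin r, w.valuation L (algebraMap (AdjoinRoot f) L
        (AdjoinRoot.mk f (C (-D ^ a)) ^ (P i).natDegree * AdjoinRoot.mk f (P i)) ^ s i) =
      exp (e * (-((a * ((P i).natDegree * s i) : ℕ) : ℤ) -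
        (if j = some i then s i else 0 : ℕ))) * (q i ^ s i) ^ n := by
    intro i
    rw [map_pow, valuation_of_algebraMap, map_mul, map_pow, C_neg, C_pow, map_neg, map_pow,
      Valuation.map_neg, map_pow, hvalD, hq, mul_pow, mul_pow, ← pow_mul, ← pow_mul,
      ← exp_nsmul, ← exp_nsmul, ← mul_assoc, ← exp_add, ← pow_mul, ← pow_mul,
      Nat.mul_comm n (s i)]
    congr 2
    by_cases hji : j = some i
    · rw [if_pos hji, if_pos hji]
      simp only [nsmul_eq_mul]
      push_cast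
      ring
    · rw [if_neg hji, if_neg hji]
      simp only [nsmul_eq_mul]
      push_cast
      ring
  refine ⟨∏ i, q i ^ s i, Finset.prod_ne_zero_iff.2 fun i _ => pow_ne_zero _ (hq0 i), ?_⟩
  rw [map_prod, Finset.prod_congr rfl (fun i _ => hE i), Finset.prod_mul_distrib,
    Finset.prod_pow]
  congr 1
  rw [prod_exp]
  congr 1
  rw [← Finset.mul_sum, Finset.sum_sub_distrib, Finset.sum_neg_distrib, Finset.mul_sum]
  push_cast
  rfl

theorem Splits.twist (h : Splits φ π f n e D P Q H) (hn : n ≠ 0)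
    (hπ0 : AdjoinRoot.mk f (C π) ≠ 0) (a : ℕ) (δ : L) (hδ : δ ≠ 0) :
    ∃ (s : Fin r → ℕ) (j : ℕ), ∀ w : HeightOneSpectrum (AdjoinRoot f),
      AdjoinRoot.mk f (C π) ∈ w.asIdeal → w.intValuation (AdjoinRoot.mk f (C π)) = exp (-1 : ℤ) ∧
      ∃ t : ℤᵐ⁰, w.valuation L (δ * ∏ i, algebraMap (AdjoinRoot f) L
        (AdjoinRoot.mk f (C (-D ^ a)) ^ (P i).natDegree * AdjoinRoot.mk f (P i)) ^ s i) *
        exp (-1 : ℤ) ^ j = t ^ n := by
  classical
  choose W hW1 hW2 using h.exists_prime hπ0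
  set u : Option (Fin r) → ℤ := fun j => log ((W j).valuation L δ) with hu
  have hnz : (n : ℤ) ≠ 0 := by exact_mod_cast hn
  -- the inverse of `e` modulo `n`
  obtain ⟨x, y, hxy⟩ : ∃ x y : ℤ, e * x = 1 + n * y := by
    have hbez := Nat.gcd_eq_gcd_ab e n
    rw [h.coprime] at hbez
    exact ⟨Nat.gcdA e n, -Nat.gcdB e n, by rw [Nat.cast_one] at hbez; linear_combination -hbez⟩
  set s : Fin r → ℕ := fun i => ((x * (u (some i) - u none)) % n).toNat with hs
  have hsz : ∀ i, ((s i : ℕ) : ℤ) = (x * (u (some i) - u none)) % n := fun i =>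
    Int.toNat_of_nonneg (Int.emod_nonneg _ hnz)
  set T : ℕ := a * ∑ i, (P i).natDegree * s i with hT
  set J : ℕ := ((u none - e * T) % n).toNat with hJ
  have hJz : (J : ℤ) = (u none - e * T) % n := Int.toNat_of_nonneg (Int.emod_nonneg _ hnz)
  refine ⟨s, J, fun w hw => ?_⟩
  obtain ⟨j, hj, hj1, hjπ⟩ := split_prime f (allF P H) h.res h.prod' h.irr h.squarefree
    hπ0 w hw
  refine ⟨hjπ, ?_⟩
  obtain rfl : w = W j := prime_unique f h.res (allF P H j) (h.irr j) w (W j) hw (hW1 j)
    hj (hW2 j)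
  have hδv : (W j).valuation L δ ≠ 0 := by
    rw [Valuation.ne_zero_iff]; exact hδ
  obtain ⟨q, -, hprodE⟩ := h.value_at L hn a j (W j) hw hj hj1 hjπ s
  -- the exponent is divisible by `n`
  have hks : ∃ m : ℤ, u j - e * ((∑ i, if j = some i then s i else 0 : ℕ) : ℤ) =
      u none + n * m := by
    cases j with
    | none =>
      refine ⟨0, ?_⟩
      simp
    | some i =>
      refine ⟨e * ((x * (u (some i) - u none)) / n) - y * (u (some i) - u none), ?_⟩
      have h1 : (∑ i', if (some i : Option (Fin r)) = some i' then s i' else 0) = s i := by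
        simp only [Option.some.injEq]
        rw [Finset.sum_ite_eq]
        simp
      rw [h1, hsz i]
      have h2 := Int.emod_add_mul_ediv (x * (u (some i) - u none)) n
      linear_combination (-(e : ℤ)) * h2 - (u (some i) - u none) * hxy
  obtain ⟨m, hm⟩ := hks
  refine ⟨exp (m + (u none - e * T) / n) * q, ?_⟩
  have h3 : (W j).valuation L δ = exp (u j) := (exp_log hδv).symm
  rw [map_mul, hprodE, h3, mul_pow, ← exp_nsmul, ← exp_nsmul]
  have h4 : exp (u j) * (exp (e * (-(T : ℤ) - (∑ i, if j = some i then s i else 0 : ℕ))) *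
      q ^ n) * exp (J • (-1 : ℤ)) =
      exp (u j + e * (-(T : ℤ) - (∑ i, if j = some i then s i else 0 : ℕ)) + J • (-1 : ℤ)) *
        q ^ n := by
    rw [exp_add, exp_add]
    ac_rfl
  rw [h4]
  congr 2
  simp only [nsmul_eq_mul]
  have h5 := Int.emod_add_mul_ediv (u none - e * T) n
  rw [hJz]
  linear_combination hm - h5

/-- the values of the lifted divisors are independent modulo `n`-th powers -/
theorem Splits.indep (h : Splits φ π f n e D P Q H) (hn : n ≠ 0)
    (hπ0 : AdjoinRoot.mk f (C π) ≠ 0) (a : ℕ) (s : Fin r → ℕ) (z : L)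
    (hz : ∏ i, algebraMap (AdjoinRoot f) L
        (AdjoinRoot.mk f (C (-D ^ a)) ^ (P i).natDegree * AdjoinRoot.mk f (P i)) ^ s i = z ^ n)
    (i : Fin r) : n ∣ s i := by
  classical
  have key : ∀ j : Option (Fin r), (n : ℤ) ∣ e * (((a * ∑ i, (P i).natDegree * s i : ℕ) : ℤ) +
        (∑ i, if j = some i then s i else 0 : ℕ)) := by
    intro j
    obtain ⟨w, hw, hwj⟩ := h.exists_prime hπ0 j
    obtain ⟨j', hj', hj1, hjπ⟩ := split_prime f (allF P H) h.res h.prod' h.irr
      h.squarefree hπ0 w hw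
    have hjj : j' = j := by
      by_contra hne
      have h1 := hj1 j (fun h => hne h.symm)
      rw [intValuation_eq_one_iff] at h1
      exact h1 hwj
    subst hjj
    obtain ⟨q, hq, hv⟩ := h.value_at L hn a j' w hw hj' hj1 hjπ s
    rw [hz, map_pow] at hv
    have hz0 : w.valuation L z ≠ 0 := by
      intro h0
      rw [h0, zero_pow hn] at hv
      exact mul_ne_zero exp_ne_zero (pow_ne_zero n hq) hv.symm
    rw [← exp_log hz0, ← exp_log hq, ← exp_nsmul, ← exp_nsmul, ← exp_add, exp_inj] at hv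
    simp only [nsmul_eq_mul] at hv
    exact ⟨log q - log (w.valuation L z), by linear_combination hv⟩
  have h1 := key none
  have h2 := key (some i)
  have h3 : (∑ i', if (some i : Option (Fin r)) = some i' then s i' else 0) = s i := by
    simp only [Option.some.injEq]
    rw [Finset.sum_ite_eq]
    simp
  have h4 : (∑ i' : Fin r, if (none : Option (Fin r)) = some i' then s i' else 0) = 0 := by
    simp
  rw [h3] at h2
  rw [h4] at h1
  have h5 := dvd_sub h2 h1
  have h6 : e * (((a * ∑ i, (P i).natDegree * s i : ℕ) : ℤ) + (s i : ℕ)) -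
      e * (((a * ∑ i, (P i).natDegree * s i : ℕ) : ℤ) + (0 : ℕ)) = ((e * s i : ℕ) : ℤ) := by
    push_cast; ring
  rw [h6] at h5
  exact h.coprime.symm.dvd_of_dvd_mul_left (by exact_mod_cast h5)

end

end

end Pool.Agent.H80.CC.G
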